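import Pool.Agent.helper27.TA.Words

/-!
# Existence of the universal Toeplitz representation
-/

set_option autoImplicit false
set_option linter.unusedSimpArgs false
set_option linter.unusedSectionVars false

open scoped Topology ENNReal
open Filter

namespace Pool.Agent.helper27.TA

universe u

variable {A X : Type u} [NonUnitalCStarAlgebra A] [NormedAddCommGroup X] [NormedSpace ℂ X]
  [CompleteSpace X] {E : Correspondence A X} {B C : Type u} [NonUnitalCStarAlgebra B]
  [NonUnitalCStarAlgebra C]

/-- *-polynomials in the generators -/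
inductive Term (A X : Type u) : Type u
  | pi (a : A) : Term A X
  | t (x : X) : Term A X
  | add (p q : Term A X) : Term A X
  | mul (p q : Term A X) : Term A X
  | smul (c : ℂ) (p : Term A X) : Term A X
  | star (p : Term A X) : Term A X

namespace ToeplitzRep

/-- evaluation of a *-polynomial in a Toeplitz representation -/
noncomputable def eval (σ : ToeplitzRep E C) : Term A X → C
  | .pi a => σ.π a
  | .t x => σ.t x
  | .add p q => σ.eval p + σ.eval q
  | .mul p q => σ.eval p * σ.eval q
  | .smul c p => c • σ.eval p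
  | .star p => Star.star (σ.eval p)

/-- the *-algebra generated by a Toeplitz representation -/
noncomputable def gen₀ (σ : ToeplitzRep E C) : NonUnitalStarSubalgebra ℂ C :=
  NonUnitalStarAlgebra.adjoin ℂ (Set.range σ.π ∪ Set.range σ.t)

lemma exists_eval (σ : ToeplitzRep E C) {x : C} (hx : x ∈ σ.gen₀) : ∃ w, x = σ.eval w := by
  unfold gen₀ at hx
  induction hx using NonUnitalStarAlgebra.adjoin_induction with
  | mem x hx =>
    rcases hx with ⟨a, rfl⟩ | ⟨x, rfl⟩
    · exact ⟨.pi a, rfl⟩
    · exact ⟨.t x, rfl⟩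
  | zero => exact ⟨.smul 0 (.pi 0), by simp [eval]⟩
  | add x y _ _ hx hy =>
    obtain ⟨p, rfl⟩ := hx
    obtain ⟨q, rfl⟩ := hy
    exact ⟨.add p q, rfl⟩
  | mul x y _ _ hx hy =>
    obtain ⟨p, rfl⟩ := hx
    obtain ⟨q, rfl⟩ := hy
    exact ⟨.mul p q, rfl⟩
  | smul c x _ hx =>
    obtain ⟨p, rfl⟩ := hx
    exact ⟨.smul c p, rfl⟩
  | star x _ hx =>
    obtain ⟨p, rfl⟩ := hx
    exact ⟨.star p, rfl⟩

lemma eval_mem (σ : ToeplitzRep E C) (w : Term A X) : σ.eval w ∈ σ.gen₀ := by
  induction w with
  | pi a => exact NonUnitalStarAlgebra.subset_adjoin ℂ _ (Or.inl ⟨a, rfl⟩)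
  | t x => exact NonUnitalStarAlgebra.subset_adjoin ℂ _ (Or.inr ⟨x, rfl⟩)
  | add p q hp hq => exact add_mem hp hq
  | mul p q hp hq => exact mul_mem hp hq
  | smul c p hp => exact SMulMemClass.smul_mem c hp
  | star p hp => exact star_mem hp

/-- the generated C*-algebra -/
noncomputable def gen (σ : ToeplitzRep E C) : NonUnitalStarSubalgebra ℂ C := σ.gen₀.topologicalClosure

lemma isClosed_gen (σ : ToeplitzRep E C) : IsClosed (σ.gen : Set C) :=
  NonUnitalStarSubalgebra.isClosed_topologicalClosure _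

noncomputable instance instGen (σ : ToeplitzRep E C) : NonUnitalCStarAlgebra σ.gen :=
  NonUnitalStarSubalgebra.nonUnitalCStarAlgebra σ.gen (h_closed := σ.isClosed_gen)

/-- corestriction to the generated C*-algebra -/
noncomputable def cores (σ : ToeplitzRep E C) : ToeplitzRep E σ.gen where
  π := NonUnitalStarAlgHom.codRestrict σ.π σ.gen
    (fun a => NonUnitalStarSubalgebra.le_topologicalClosure _ (σ.eval_mem (.pi a)))
  t :=
    { toFun := fun x => ⟨σ.t x, NonUnitalStarSubalgebra.le_topologicalClosure _ (σ.eval_mem (.t x))⟩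
      map_add' := fun x y => Subtype.ext (map_add σ.t x y)
      map_smul' := fun c x => Subtype.ext (map_smul σ.t c x) }
  pi_mul_t := fun a x => Subtype.ext (σ.pi_mul_t a x)
  star_t_mul_t := fun x y => Subtype.ext (σ.star_t_mul_t x y)

lemma coe_eval_cores (σ : ToeplitzRep E C) (w : Term A X) :
    ((σ.cores.eval w : σ.gen) : C) = σ.eval w := by
  induction w with
  | pi a => rfl
  | t x => rfl
  | add p q hp hq => simp only [eval]; rw [← hp, ← hq]; rfl
  | mul p q hp hq => simp only [eval]; rw [← hp, ← hq]; rfl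
  | smul c p hp => simp only [eval]; rw [← hp]; rfl
  | star p hp => simp only [eval]; rw [← hp]; rfl

lemma cores_generates (σ : ToeplitzRep E C) : (NonUnitalStarAlgebra.adjoin ℂ
    (Set.range σ.cores.π ∪ Set.range σ.cores.t)).topologicalClosure = ⊤ := by
  rw [eq_top_iff]
  intro x _
  have h1 : ((x : σ.gen) : C) ∈ closure (σ.gen₀ : Set C) := x.2
  have h2 : x ∈ closure (σ.cores.gen₀ : Set σ.gen) := by
    rw [closure_subtype]
    refine closure_mono ?_ h1
    intro y hy
    obtain ⟨w, rfl⟩ := σ.exists_eval hy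
    exact ⟨σ.cores.eval w, σ.cores.eval_mem w, coe_eval_cores σ w⟩
  exact h2

/-- direct sum of two Toeplitz representations -/
noncomputable def prod (ρ : ToeplitzRep E B) (σ : ToeplitzRep E C) : ToeplitzRep E (B × C) where
  π := NonUnitalStarAlgHom.prod ρ.π σ.π
  t := LinearMap.prod ρ.t σ.t
  pi_mul_t := fun a x => Prod.ext (ρ.pi_mul_t a x) (σ.pi_mul_t a x)
  star_t_mul_t := fun x y => Prod.ext (ρ.star_t_mul_t x y) (σ.star_t_mul_t x y)

lemma eval_prod (ρ : ToeplitzRep E B) (σ : ToeplitzRep E C) (w : Term A X) :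
    (ρ.prod σ).eval w = (ρ.eval w, σ.eval w) := by
  induction w with
  | pi a => rfl
  | t x => rfl
  | add p q hp hq => simp only [eval]; rw [hp, hq]; rfl
  | mul p q hp hq => simp only [eval]; rw [hp, hq]; rfl
  | smul c p hp => simp only [eval]; rw [hp]; rfl
  | star p hp => simp only [eval]; rw [hp]; rfl

/-- If `ρ` dominates `σ` then `σ` factors through `ρ`. -/
theorem exists_lift (ρ : ToeplitzRep E B) (σ : ToeplitzRep E C)
    (hgen : ρ.gen = ⊤) (h : ∀ w, ‖σ.eval w‖ ≤ ‖ρ.eval w‖) :
    ∃ Ψ : B →⋆ₙₐ[ℂ] C, (∀ a, Ψ (ρ.π a) = σ.π a) ∧ ∀ x, Ψ (ρ.t x) = σ.t x := by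
  set G := (ρ.prod σ).gen with hG
  -- the two projections
  let f : G →⋆ₙₐ[ℂ] B := (NonUnitalStarAlgHom.fst ℂ B C).comp (NonUnitalStarSubalgebraClass.subtype G)
  let g : G →⋆ₙₐ[ℂ] C := (NonUnitalStarAlgHom.snd ℂ B C).comp (NonUnitalStarSubalgebraClass.subtype G)
  have hf : ∀ z : G, f z = (z : B × C).1 := fun _ => rfl
  have hg : ∀ z : G, g z = (z : B × C).2 := fun _ => rfl
  have hdom : ∀ z ∈ G, ‖z.2‖ ≤ ‖z.1‖ := by
    intro z hz
    have hcl : IsClosed {z : B × C | ‖z.2‖ ≤ ‖z.1‖} :=
      isClosed_le (by fun_prop) (by fun_prop)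
    refine closure_minimal ?_ hcl hz
    intro y hy
    obtain ⟨w, rfl⟩ := (ρ.prod σ).exists_eval hy
    rw [Set.mem_ofPred_eq, eval_prod]
    exact h w
  have hiso : Isometry f := by
    refine AddMonoidHomClass.isometry_of_norm f fun z => ?_
    rw [hf]
    have h1 : ‖z‖ = ‖(z : B × C)‖ := rfl
    rw [h1, Prod.norm_def]
    exact (max_eq_left (hdom z z.2)).symm
  have hinj : Function.Injective f := hiso.injective
  have hsurj : Function.Surjective f := by
    have hcl : IsClosed (Set.range f) := hiso.isClosedEmbedding.isClosed_range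
    have hsub : (ρ.gen₀ : Set B) ⊆ Set.range f := by
      intro y hy
      obtain ⟨w, rfl⟩ := ρ.exists_eval hy
      refine ⟨⟨(ρ.prod σ).eval w, NonUnitalStarSubalgebra.le_topologicalClosure _
        ((ρ.prod σ).eval_mem w)⟩, ?_⟩
      rw [hf]
      change ((ρ.prod σ).eval w).1 = _
      rw [eval_prod]
    intro b
    have hb : b ∈ ρ.gen := by rw [hgen]; trivial
    exact closure_minimal hsub hcl hb
  let e : G ≃⋆ₐ[ℂ] B := StarAlgEquiv.ofBijective f ⟨hinj, hsurj⟩
  refine ⟨g.comp (e.symm : B →⋆ₙₐ[ℂ] G), ?_, ?_⟩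
  · intro a
    have h1 : (⟨(ρ.prod σ).π a, NonUnitalStarSubalgebra.le_topologicalClosure _
        ((ρ.prod σ).eval_mem (.pi a))⟩ : G) = e.symm (ρ.π a) := by
      rw [eq_comm, StarAlgEquiv.symm_apply_eq]; rfl
    change g (e.symm (ρ.π a)) = _
    rw [← h1]; rfl
  · intro x
    have h1 : (⟨(ρ.prod σ).t x, NonUnitalStarSubalgebra.le_topologicalClosure _
        ((ρ.prod σ).eval_mem (.t x))⟩ : G) = e.symm (ρ.t x) := by
      rw [eq_comm, StarAlgEquiv.symm_apply_eq]; rfl
    change g (e.symm (ρ.t x)) = _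
    rw [← h1]; rfl

end ToeplitzRep

/-- the index set of the universal representation -/
def Idx (E : Correspondence A X) : Type u :=
  {p : Term A X → ℝ // ∃ (C : Type u) (_ : NonUnitalCStarAlgebra C) (σ : ToeplitzRep E C),
    ∀ w, p w = ‖σ.eval w‖}

namespace Idx

variable (E)

/-- the C*-algebra at the index `i` -/
def Alg (i : Idx E) : Type u := i.2.choose

noncomputable instance (i : Idx E) : NonUnitalCStarAlgebra (Alg E i) := i.2.choose_spec.choose

/-- the representation at the index `i` -/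
noncomputable def rep (i : Idx E) : ToeplitzRep E (Alg E i) := i.2.choose_spec.choose_spec.choose

lemma rep_spec (i : Idx E) (w : Term A X) : i.1 w = ‖(rep E i).eval w‖ :=
  i.2.choose_spec.choose_spec.choose_spec w

/-- the direct sum of all representations -/
noncomputable def sum : ToeplitzRep E (lp (Alg E) ∞) where
  π :=
    { toFun := fun a => ⟨fun i => (rep E i).π a, memℓp_infty ⟨‖a‖, by
        rintro _ ⟨i, rfl⟩
        exact NonUnitalStarAlgHom.norm_apply_le _ _⟩⟩
      map_smul' := fun c a => Subtype.ext (funext fun i => map_smul (rep E i).π c a)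
      map_zero' := Subtype.ext (funext fun i => map_zero (rep E i).π)
      map_add' := fun a b => Subtype.ext (funext fun i => map_add (rep E i).π a b)
      map_mul' := fun a b => Subtype.ext (funext fun i => map_mul (rep E i).π a b)
      map_star' := fun a => Subtype.ext (funext fun i => map_star (rep E i).π a) }
  t :=
    { toFun := fun x => ⟨fun i => (rep E i).t x, memℓp_infty ⟨‖x‖, by
        rintro _ ⟨i, rfl⟩
        exact (rep E i).norm_t_le x⟩⟩
      map_add' := fun x y => Subtype.ext (funext fun i => map_add (rep E i).t x y)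
      map_smul' := fun c x => Subtype.ext (funext fun i => map_smul (rep E i).t c x) }
  pi_mul_t := fun a x => Subtype.ext (funext fun i => (rep E i).pi_mul_t a x)
  star_t_mul_t := fun x y => Subtype.ext (funext fun i => (rep E i).star_t_mul_t x y)

lemma eval_sum (w : Term A X) (i : Idx E) : ((sum E).eval w : ∀ i, Alg E i) i = (rep E i).eval w := by
  induction w with
  | pi a => rfl
  | t x => rfl
  | add p q hp hq => simp only [ToeplitzRep.eval]; rw [← hp, ← hq]; rfl
  | mul p q hp hq => simp only [ToeplitzRep.eval]; rw [← hp, ← hq]; rfl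
  | smul c p hp => simp only [ToeplitzRep.eval]; rw [← hp]; rfl
  | star p hp => simp only [ToeplitzRep.eval]; rw [← hp]; rfl

end Idx

/-- Every C*-correspondence has a universal Toeplitz representation. -/
theorem exists_universal (E : Correspondence A X) :
    ∃ (B : Type u) (_ : NonUnitalCStarAlgebra B) (ρ : ToeplitzRep E B), ρ.IsUniversal := by
  refine ⟨(Idx.sum E).gen, inferInstance, (Idx.sum E).cores, ⟨(Idx.sum E).cores_generates, ?_⟩⟩
  intro C _ σ
  refine (Idx.sum E).cores.exists_lift σ (Idx.sum E).cores_generates fun w => ?_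
  let i : Idx E := ⟨fun w => ‖σ.eval w‖, C, inferInstance, σ, fun _ => rfl⟩
  have h1 : ‖σ.eval w‖ = ‖(Idx.rep E i).eval w‖ := Idx.rep_spec E i w
  have h2 : ‖((Idx.sum E).cores.eval w : (Idx.sum E).gen)‖ = ‖(Idx.sum E).eval w‖ :=
    congrArg norm (ToeplitzRep.coe_eval_cores (Idx.sum E) w)
  rw [h1, h2, ← Idx.eval_sum E w i]
  exact lp.norm_apply_le_norm (by simp) _ i

end Pool.Agent.helper27.TA
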