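import Pool.Agent.helper27.TA.Local

/-!
# The defect vanishes at characters of the coefficient algebra
-/

set_option autoImplicit false
set_option linter.unusedSimpArgs false
set_option linter.unusedSectionVars false

open scoped InnerProductSpace Topology
open Filter

namespace Pool.Agent.helper27.TA

universe u

variable {A X : Type u} [NonUnitalCStarAlgebra A] [NormedAddCommGroup X] [NormedSpace ℂ X]
  [CompleteSpace X] {E : Correspondence A X} {B : Type u} [NonUnitalCStarAlgebra B]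

namespace HS

variable {K : Type u} [NormedAddCommGroup K] [InnerProductSpace ℂ K]

/-- the subspace of sequences vanishing up to level `m` -/
def low (m : ℕ) : Submodule ℂ (HS K) where
  carrier := {f | ∀ j ≤ m, f j = 0}
  add_mem' := fun {f g} hf hg j hj => by rw [add_apply, hf j hj, hg j hj, add_zero]
  zero_mem' := fun j _ => zero_apply j
  smul_mem' := fun c f hf j hj => by rw [smul_apply, hf j hj, smul_zero]

lemma mem_low {m : ℕ} {f : HS K} : f ∈ low m ↔ ∀ j ≤ m, f j = 0 := Iff.rfl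

lemma isClosed_low (m : ℕ) : IsClosed ((low m : Submodule ℂ (HS K)) : Set (HS K)) := by
  have : ((low m : Submodule ℂ (HS K)) : Set (HS K)) = ⋂ j ∈ Set.Iic m, {f : HS K | ev j f = 0} := by
    ext f
    simp [mem_low]
  rw [this]
  refine isClosed_biInter fun j _ => ?_
  exact isClosed_eq (ev j).continuous continuous_const

lemma sh_pow_mem_low (m : ℕ) (f : HS K) : (sh ^ (m + 1)) f ∈ low m :=
  fun j hj => sh_pow_apply_lt (m + 1) f j (by omega)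

lemma exists_of_mem_low {m : ℕ} {f : HS K} (hf : f ∈ low m) : ∃ g, f = (sh ^ (m + 1)) g := by
  have hs : Summable fun j => ‖f (m + 1 + j)‖ ^ 2 := by
    have := (summable_nat_add_iff (m + 1)).mpr (summable_sq f)
    refine this.congr fun j => ?_
    rw [add_comm]
  refine ⟨mk (fun j => f (m + 1 + j)) hs, ?_⟩
  apply ext'
  intro j
  by_cases hj : j ≤ m
  · rw [hf j hj, sh_pow_mem_low m _ j hj]
  · obtain ⟨i, rfl⟩ : ∃ i, j = m + 1 + i := ⟨j - (m + 1), by omega⟩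
    rw [sh_pow_apply_add, mk_apply]

end HS

namespace ToeplitzRep

variable {ρ : ToeplitzRep E B} {K : Type u} [NormedAddCommGroup K] [InnerProductSpace ℂ K]
  [CompleteSpace K] {Ψ : B →⋆ₙₐ[ℂ] (K →L[ℂ] K)} {A₀ G : K →L[ℂ] K}
  {Φ Φ₀ : B →⋆ₙₐ[ℂ] (HS K →L[ℂ] HS K)} {S : ρ.tensorAlgebra →L[ℂ] ρ.tensorAlgebra}

open HS

lemma IsTwLift.apply_mem_low (hΦ : IsTwLift ρ Ψ A₀ G Φ) (hΦ₀ : IsTwLift ρ Ψ 0 1 Φ₀) {m : ℕ}
    {f : HS K} (hf : f ∈ low m) {y : B} (hy : y ∈ ρ.tensorAlgebra) : Φ y f ∈ low m := by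
  obtain ⟨g, rfl⟩ := exists_of_mem_low hf
  have h := congrArg (fun T : HS K →L[ℂ] HS K => T g) (hΦ.mul_sh_pow_succ hΦ₀ m y hy)
  simp only [mul_apply_eq_comp] at h
  rw [h]
  exact sh_pow_mem_low m _

/-- Locality: if `(μ - t ξ) h` is in the invariant subspace then so is `c_a(ξ) h`. -/
lemma IsTwLift.defect_mem_low (hS : IsApproxLocalLeftMultiplier S) (hΦ : IsTwLift ρ Ψ A₀ G Φ)
    (hΦ₀ : IsTwLift ρ Ψ 0 1 Φ₀) (a : ρ.tensorAlgebra) (ξ : X) (μ : ℂ) {h : HS K} {m : ℕ}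
    (hh : μ • h - Φ (ρ.t ξ) h ∈ low m) :
    Φ ((defect S a ξ : ρ.tensorAlgebra) : B) h ∈ low m := by
  set p : ρ.tensorAlgebra := μ • a - a * ρ.t' ξ with hp
  have e1 : Φ (p : B) h = Φ (a : B) (μ • h - Φ (ρ.t ξ) h) := by
    have : (p : B) = μ • (a : B) - (a : B) * ρ.t ξ := by simp [hp]
    rw [this, map_sub, map_smul, map_mul, map_sub, map_smul]
    rfl
  have e2 : Φ (p : B) h ∈ low m := by
    rw [e1]; exact hΦ.apply_mem_low hΦ₀ hh a.2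
  have e3 : Φ ((S p : ρ.tensorAlgebra) : B) h ∈ low m := by
    obtain ⟨x, hx⟩ := hS p
    have hcont : Continuous fun y : ρ.tensorAlgebra => Φ (y : B) h :=
      ((ContinuousLinearMap.apply ℂ (HS K) h).continuous.comp (continuous_hom Φ)).comp
        continuous_subtype_val
    refine (isClosed_low m).mem_of_tendsto ((hcont.tendsto _).comp hx)
      (Eventually.of_forall fun n => ?_)
    change Φ ((x n * p : ρ.tensorAlgebra) : B) h ∈ low m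
    rw [NonUnitalSubalgebra.coe_mul, map_mul]
    exact hΦ.apply_mem_low hΦ₀ e2 (x n).2
  have e4 : Φ ((defect S a ξ : ρ.tensorAlgebra) : B) h =
      Φ ((S a : ρ.tensorAlgebra) : B) (μ • h - Φ (ρ.t ξ) h) - Φ ((S p : ρ.tensorAlgebra) : B) h := by
    have h1 : ((S p : ρ.tensorAlgebra) : B) = μ • ((S a : ρ.tensorAlgebra) : B) -
        ((S (a * ρ.t' ξ) : ρ.tensorAlgebra) : B) := by
      rw [hp, map_sub, map_smul]; simp
    have h2 : ((defect S a ξ : ρ.tensorAlgebra) : B) = ((S (a * ρ.t' ξ) : ρ.tensorAlgebra) : B) -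
        ((S a : ρ.tensorAlgebra) : B) * ρ.t ξ := by
      unfold defect; simp
    rw [h1, h2, map_sub, map_sub, map_sub, map_smul, map_smul, map_mul Φ]
    simp only [_root_.sub_apply, _root_.smul_apply, mul_apply_eq_comp]
    abel
  rw [e4]
  exact sub_mem (hΦ.apply_mem_low hΦ₀ hh (S a).2) e3

/-- The special vector -/
lemma IsTwLift.vec_mem_low (hΦ : IsTwLift ρ Ψ A₀ G Φ) (hΦ₀ : IsTwLift ρ Ψ 0 1 Φ₀) (ξ : X) {μ : ℂ}
    (hμ : μ ≠ 0) {h₀ : K} (hA₀ : A₀ (Ψ (ρ.t ξ) h₀) = μ • h₀) (m : ℕ) :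
    μ • (emb 0 h₀ + sh (∑ j ∈ Finset.range m,
        (μ⁻¹) ^ (j + 1) • ((Φ₀ (ρ.t ξ)) ^ j) (emb 0 (G (Ψ (ρ.t ξ) h₀)))))
      - Φ (ρ.t ξ) (emb 0 h₀ + sh (∑ j ∈ Finset.range m,
        (μ⁻¹) ^ (j + 1) • ((Φ₀ (ρ.t ξ)) ^ j) (emb 0 (G (Ψ (ρ.t ξ) h₀))))) ∈ low m := by
  set T := Φ₀ (ρ.t ξ) with hT
  set g₁ : HS K := emb 0 (G (Ψ (ρ.t ξ) h₀)) with hg₁
  set k : HS K := ∑ j ∈ Finset.range m, (μ⁻¹) ^ (j + 1) • (T ^ j) g₁ with hk
  have e1 : Φ (ρ.t ξ) (emb 0 h₀) = μ • emb 0 h₀ + sh g₁ := by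
    rw [hΦ.t, mul_apply_eq_comp, amp_emb, tw_emb_zero, hA₀, map_smul, hg₁, sh_emb]
  have e2 : Φ (ρ.t ξ) (sh k) = sh (T k) := by
    have h := congrArg (fun T : HS K →L[ℂ] HS K => T k) (hΦ.mul_sh hΦ₀ (ρ.t ξ) (t_mem ξ))
    simpa only [mul_apply_eq_comp] using h
  have e3 : μ • k - T k = g₁ - (μ⁻¹) ^ m • (T ^ m) g₁ := by
    rw [hk]
    clear_value k
    clear hk e2
    induction m with
    | zero => simp
    | succ m ih =>
      rw [Finset.sum_range_succ, smul_add, map_add, map_smul]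
      have h1 : T ((T ^ m) g₁) = (T ^ (m + 1)) g₁ := by rw [pow_succ', mul_apply_eq_comp]
      have h2 : μ • (μ⁻¹) ^ (m + 1) • (T ^ m) g₁ = (μ⁻¹) ^ m • (T ^ m) g₁ := by
        rw [smul_smul, pow_succ', ← mul_assoc, mul_inv_cancel₀ hμ, one_mul]
      rw [h1, h2]
      have h3 : μ • ∑ j ∈ Finset.range m, (μ⁻¹) ^ (j + 1) • (T ^ j) g₁ + μ⁻¹ ^ m • (T ^ m) g₁ -
          (T (∑ j ∈ Finset.range m, (μ⁻¹) ^ (j + 1) • (T ^ j) g₁) +
            μ⁻¹ ^ (m + 1) • (T ^ (m + 1)) g₁) =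
          (μ • ∑ j ∈ Finset.range m, (μ⁻¹) ^ (j + 1) • (T ^ j) g₁ -
            T (∑ j ∈ Finset.range m, (μ⁻¹) ^ (j + 1) • (T ^ j) g₁)) +
            (μ⁻¹ ^ m • (T ^ m) g₁ - μ⁻¹ ^ (m + 1) • (T ^ (m + 1)) g₁) := by abel
      rw [h3, ih]
      abel
  have e4 : μ • (emb 0 h₀ + sh k) - Φ (ρ.t ξ) (emb 0 h₀ + sh k) =
      -((μ⁻¹) ^ m • sh ((T ^ m) g₁)) := by
    rw [map_add, e1, e2, smul_add, ← map_smul sh]
    have : sh (μ • k) = sh (T k) + sh g₁ - (μ⁻¹) ^ m • sh ((T ^ m) g₁) := by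
      have h1 : μ • k = T k + g₁ - (μ⁻¹) ^ m • (T ^ m) g₁ := by
        have := e3
        rw [sub_eq_iff_eq_add] at this
        rw [this]; abel
      rw [h1, map_sub, map_add, map_smul]
    rw [this]
    abel
  rw [e4]
  apply neg_mem
  apply Submodule.smul_mem
  -- `T ^ m (emb 0 w)` starts at level `m`
  have e5 : ∀ (n : ℕ), ∃ w, (T ^ n) g₁ = (sh ^ n) w := by
    intro n
    induction n with
    | zero => exact ⟨g₁, by simp⟩
    | succ n ih =>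
      obtain ⟨w, hw⟩ := ih
      refine ⟨amp (Ψ (ρ.t ξ)) w, ?_⟩
      have h1 : T * sh ^ n = sh ^ n * T := hΦ₀.mul_sh_pow n (ρ.t ξ) (t_mem ξ)
      have h2 : T = sh * amp (Ψ (ρ.t ξ)) := hΦ₀.t ξ
      have h3 := congrArg (fun T : HS K →L[ℂ] HS K => T w) h1
      simp only [mul_apply_eq_comp] at h3
      rw [pow_succ', mul_apply_eq_comp, hw, h3, pow_succ, mul_apply_eq_comp]
      congr 1
      rw [h2]; rfl
  obtain ⟨w, hw⟩ := e5 m
  rw [hw]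
  have : sh ((sh ^ m) w) = (sh ^ (m + 1)) w := by rw [pow_succ', mul_apply_eq_comp]
  rw [this]
  exact sh_pow_mem_low m w

/-- The identity at level `m`. -/
lemma IsTwLift.key (hS : IsApproxLocalLeftMultiplier S) (hΦ : IsTwLift ρ Ψ A₀ G Φ)
    (hΦ₀ : IsTwLift ρ Ψ 0 1 Φ₀) (a : ρ.tensorAlgebra) (ξ : X) {μ : ℂ}
    (hμ : μ ≠ 0) {h₀ : K} (hA₀ : A₀ (Ψ (ρ.t ξ) h₀) = μ • h₀) (m : ℕ) :
    comp Φ m ((defect S a ξ : ρ.tensorAlgebra) : B) h₀ + ∑ j ∈ Finset.range m, (μ⁻¹) ^ (j + 1) •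
      (sh (Φ₀ ((defect S a ξ : ρ.tensorAlgebra) : B)
        (((Φ₀ (ρ.t ξ)) ^ j) (emb 0 (G (Ψ (ρ.t ξ) h₀))))) : HS K) m = 0 := by
  have h1 := hΦ.defect_mem_low hS hΦ₀ a ξ μ (hΦ.vec_mem_low hΦ₀ ξ hμ hA₀ m)
  have h2 := h1 m le_rfl
  set d := ((defect S a ξ : ρ.tensorAlgebra) : B) with hd
  have h3 := fun k => congrArg (fun T : HS K →L[ℂ] HS K => T k)
    (hΦ.mul_sh hΦ₀ d (defect S a ξ).2)
  simp only [mul_apply_eq_comp] at h3
  rw [map_add, HS.add_apply, h3] at h2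
  rw [comp_apply, ← h2]
  congr 1
  rw [← ev_apply m (sh (Φ₀ d _)), map_sum, map_sum, map_sum]
  refine Finset.sum_congr rfl fun j _ => ?_
  rw [map_smul, map_smul, map_smul, ev_apply]

/-- the parameters -/
noncomputable def prA (e h₀ : K) (s : ℂ) : K →L[ℂ] K := s • (innerSL ℂ e).smulRight h₀

/-- the parameters -/
noncomputable def prG (e : K) (β : ℝ) : K →L[ℂ] K :=
  1 - ((1 - β : ℝ) : ℂ) • (innerSL ℂ e).smulRight e

lemma prA_apply (e h₀ : K) (s : ℂ) (w : K) : prA e h₀ s w = (s * ⟪e, w⟫_ℂ) • h₀ := by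
  unfold prA
  rw [_root_.smul_apply, ContinuousLinearMap.smulRight_apply, innerSL_apply_apply, smul_smul]

lemma prG_apply (e : K) (β : ℝ) (w : K) :
    prG e β w = w - (((1 - β : ℝ) : ℂ) * ⟪e, w⟫_ℂ) • e := by
  unfold prG
  rw [_root_.sub_apply, _root_.smul_apply, ContinuousLinearMap.smulRight_apply, innerSL_apply_apply,
    smul_smul, one_apply_eq_self]

lemma pr_iso {e h₀ : K} (he : ‖e‖ = 1) (hh : ‖h₀‖ = 1) {s : ℂ} {β : ℝ} (hs : ‖s‖ ^ 2 + β ^ 2 = 1)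
    (w : K) : ‖prA e h₀ s w‖ ^ 2 + ‖prG e β w‖ ^ 2 = ‖w‖ ^ 2 := by
  rw [prA_apply, prG_apply, norm_smul, hh, mul_one, norm_mul]
  have h1 : ‖w - (((1 - β : ℝ) : ℂ) * ⟪e, w⟫_ℂ) • e‖ ^ 2 =
      ‖w‖ ^ 2 - (1 - β ^ 2) * ‖⟪e, w⟫_ℂ‖ ^ 2 := by
    rw [@norm_sub_sq ℂ, norm_smul, he, mul_one, norm_mul, Complex.norm_real, Real.norm_eq_abs,
      inner_smul_right]
    have h2 : ((((1 - β : ℝ) : ℂ) * ⟪e, w⟫_ℂ) * ⟪w, e⟫_ℂ) =
        (((1 - β) * ‖⟪e, w⟫_ℂ‖ ^ 2 : ℝ) : ℂ) := by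
      rw [mul_assoc, ← inner_conj_symm w e, Complex.mul_conj, Complex.normSq_eq_norm_sq]
      push_cast; ring
    rw [h2]
    have h3 : RCLike.re ((((1 - β) * ‖⟪e, w⟫_ℂ‖ ^ 2 : ℝ) : ℂ)) = (1 - β) * ‖⟪e, w⟫_ℂ‖ ^ 2 :=
      Complex.ofReal_re _
    rw [h3, mul_pow, sq_abs]
    ring
  rw [h1]
  have h4 : (1 - β ^ 2) = ‖s‖ ^ 2 := by linarith
  rw [h4]; ring

lemma pr_tendsto_A (e h₀ : K) {s : ℕ → ℂ} (hs : Tendsto s atTop (𝓝 0)) :
    Tendsto (fun n => prA e h₀ (s n)) atTop (𝓝 0) := by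
  unfold prA
  have := hs.smul_const ((innerSL ℂ e).smulRight h₀)
  simpa using this

lemma pr_tendsto_G (e : K) {β : ℕ → ℝ} (hs : Tendsto β atTop (𝓝 1)) :
    Tendsto (fun n => prG e (β n)) atTop (𝓝 1) := by
  unfold prG
  have h1 : Tendsto (fun n => ((1 - β n : ℝ) : ℂ)) atTop (𝓝 0) := by
    have := (Complex.continuous_ofReal.tendsto _).comp (hs.const_sub 1)
    simpa [Function.comp_def] using this
  have h2 := (h1.smul_const ((innerSL ℂ e).smulRight e)).const_sub 1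
  simpa using h2

/-- Two (nonzero) eigenvectors with the same eigencharacter: the operators commute. -/
lemma comm_A {χ : A → ℂ} {e h₀ : K} (hstar : ∀ b, χ (star b) = (starRingEnd ℂ) (χ b))
    (he : ∀ b, Ψ (ρ.π b) e = χ b • e) (hh : ∀ b, Ψ (ρ.π b) h₀ = χ b • h₀) (s : ℂ) (b : A) :
    Ψ (ρ.π b) * prA e h₀ s = prA e h₀ s * Ψ (ρ.π b) := by
  ext1 w
  rw [mul_apply_eq_comp, mul_apply_eq_comp, prA_apply, prA_apply, map_smul, hh, smul_smul]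
  have h1 : ⟪e, Ψ (ρ.π b) w⟫_ℂ = χ b * ⟪e, w⟫_ℂ := by
    rw [← ContinuousLinearMap.adjoint_inner_left, ← ContinuousLinearMap.star_eq_adjoint, ← map_star,
      ← map_star, he, inner_smul_left, hstar]
    simp
  rw [h1]
  congr 1; ring

lemma comm_G {χ : A → ℂ} {e : K} (hstar : ∀ b, χ (star b) = (starRingEnd ℂ) (χ b))
    (he : ∀ b, Ψ (ρ.π b) e = χ b • e) (β : ℝ) (b : A) :
    Ψ (ρ.π b) * prG e β = prG e β * Ψ (ρ.π b) := by
  have h := comm_A hstar he he ((1 - β : ℝ) : ℂ) b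
  have h1 : prG e β = 1 - prA e e ((1 - β : ℝ) : ℂ) := rfl
  rw [h1, mul_sub, sub_mul, h, mul_one, one_mul]

/-- sums over roots of unity -/
lemma sum_roots (m : ℕ) {ζ : ℂ} (hζ : IsPrimitiveRoot ζ (m + 1)) {j : ℕ} (hj : j < m) :
    ∑ i ∈ Finset.range (m + 1), ((ζ ^ i)⁻¹) ^ (j + 1) = 0 := by
  have h1 : ∀ i, ((ζ ^ i)⁻¹) ^ (j + 1) = ((ζ ^ (j + 1))⁻¹) ^ i := by
    intro i
    rw [inv_pow, inv_pow, ← pow_mul, ← pow_mul, mul_comm]
  simp only [h1]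
  have hne : ζ ^ (j + 1) ≠ 1 := hζ.pow_ne_one_of_pos_of_lt (by omega) (by omega)
  rw [geom_sum_eq (by simpa [inv_eq_one] using hne)]
  have : ((ζ ^ (j + 1))⁻¹) ^ (m + 1) = 1 := by
    rw [inv_pow, ← pow_mul, mul_comm, pow_mul, hζ.pow_eq_one, one_pow, inv_one]
  rw [this, sub_self, zero_div]

/-- Step C4. -/
lemma comp_defect_eq_zero (hρ : ρ.IsUniversal) (hS : IsApproxLocalLeftMultiplier S)
    (hΦ₀ : IsTwLift ρ Ψ 0 1 Φ₀) {χ : A → ℂ} {e h₀ : K}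
    (hstar : ∀ b, χ (star b) = (starRingEnd ℂ) (χ b))
    (he : ∀ b, Ψ (ρ.π b) e = χ b • e) (hh : ∀ b, Ψ (ρ.π b) h₀ = χ b • h₀)
    (he1 : ‖e‖ = 1) (hh1 : ‖h₀‖ = 1) (a : ρ.tensorAlgebra) (ξ : X)
    (hκ : ⟪e, Ψ (ρ.t ξ) h₀⟫_ℂ ≠ 0) (m : ℕ) :
    comp Φ₀ m ((defect S a ξ : ρ.tensorAlgebra) : B) h₀ = 0 := by
  set κ := ⟪e, Ψ (ρ.t ξ) h₀⟫_ℂ with hκ'
  set d := ((defect S a ξ : ρ.tensorAlgebra) : B) with hd
  let α : ℕ → ℝ := fun n => 1 / ((n : ℝ) + 1)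
  let β : ℕ → ℝ := fun n => Real.sqrt (1 - α n ^ 2)
  have hαpos : ∀ n, 0 < α n := fun n => by positivity
  have hαle : ∀ n, α n ≤ 1 := fun n => by
    have : (1 : ℝ) ≤ (n : ℝ) + 1 := by
      have := Nat.cast_nonneg (α := ℝ) n; linarith
    exact (div_le_one (by positivity)).mpr this
  have hα0 : Tendsto α atTop (𝓝 0) := tendsto_one_div_add_atTop_nhds_zero_nat
  have hβ : Tendsto β atTop (𝓝 1) := by
    have h1 : Tendsto (fun n => 1 - α n ^ 2) atTop (𝓝 1) := by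
      have := (hα0.pow 2).const_sub 1
      simpa using this
    have := h1.sqrt
    simpa using this
  have hαβ : ∀ n, α n ^ 2 + β n ^ 2 = 1 := fun n => by
    have h1 : 0 ≤ 1 - α n ^ 2 := by
      have := hαpos n; have := hαle n; nlinarith
    rw [Real.sq_sqrt h1]; ring
  obtain ⟨ζ, hζ⟩ : ∃ ζ : ℂ, IsPrimitiveRoot ζ (m + 1) :=
    ⟨_, Complex.isPrimitiveRoot_exp (m + 1) (by omega)⟩
  have hζn : ‖ζ‖ = 1 := Complex.norm_eq_one_of_pow_eq_one hζ.pow_eq_one (by omega)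
  have hζ0 : ζ ≠ 0 := by
    intro h; rw [h, norm_zero] at hζn; exact zero_ne_one hζn
  have hsn : ∀ (i n : ℕ), ‖ζ ^ i * (α n : ℂ)‖ ^ 2 + β n ^ 2 = 1 := fun i n => by
    rw [norm_mul, norm_pow, hζn, one_pow, one_mul, Complex.norm_real, Real.norm_eq_abs, sq_abs, hαβ]
  -- the representations
  have hex : ∀ i n : ℕ, ∃ Φ : B →⋆ₙₐ[ℂ] (HS K →L[ℂ] HS K),
      IsTwLift ρ Ψ (prA e h₀ (ζ ^ i * (α n : ℂ))) (prG e (β n)) Φ := fun i n =>
    hρ.exists_twLift Ψ _ _ (pr_iso he1 hh1 (hsn i n)) (comm_A hstar he hh _) (comm_G hstar he _)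
  choose Φ hΦ using hex
  have hsum : ∀ n, ∑ i ∈ Finset.range (m + 1), comp (Φ i n) m d h₀ = 0 := by
    intro n
    have hμ : ∀ i, ζ ^ i * (α n : ℂ) * κ ≠ 0 := fun i =>
      mul_ne_zero (mul_ne_zero (pow_ne_zero _ hζ0) (by exact_mod_cast (hαpos n).ne')) hκ
    have h1 : ∀ i, comp (Φ i n) m d h₀ = - ∑ j ∈ Finset.range m,
        ((ζ ^ i * (α n : ℂ) * κ)⁻¹) ^ (j + 1) • (sh (Φ₀ d
        (((Φ₀ (ρ.t ξ)) ^ j) (emb 0 (prG e (β n) (Ψ (ρ.t ξ) h₀))))) : HS K) m := by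
      intro i
      exact eq_neg_of_add_eq_zero_left ((hΦ i n).key hS hΦ₀ a ξ (hμ i) (by rw [prA_apply]) m)
    simp only [h1]
    rw [Finset.sum_neg_distrib, Finset.sum_comm, neg_eq_zero]
    refine Finset.sum_eq_zero fun j hj => ?_
    rw [← Finset.sum_smul]
    have h2 : ∀ i, ((ζ ^ i * (α n : ℂ) * κ)⁻¹) ^ (j + 1) =
        ((ζ ^ i)⁻¹) ^ (j + 1) * (((α n : ℂ) * κ)⁻¹) ^ (j + 1) := by
      intro i
      rw [mul_assoc, mul_inv, mul_pow]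
    simp only [h2]
    rw [← Finset.sum_mul, sum_roots m hζ (Finset.mem_range.mp hj), zero_mul, zero_smul]
  have hlim : ∀ i, Tendsto (fun n => comp (Φ i n) m d h₀) atTop (𝓝 (comp Φ₀ m d h₀)) := by
    intro i
    have hA : Tendsto (fun n => prA e h₀ (ζ ^ i * (α n : ℂ))) atTop (𝓝 0) := by
      apply pr_tendsto_A
      have h1 : Tendsto (fun n => ((α n : ℝ) : ℂ)) atTop (𝓝 0) := by
        have := (Complex.continuous_ofReal.tendsto _).comp hα0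
        simpa [Function.comp_def] using this
      have := h1.const_mul (ζ ^ i)
      simpa using this
    have h2 := IsTwLift.tendsto (fun n => hΦ i n) hΦ₀ hA (pr_tendsto_G e hβ) d (defect S a ξ).2
    have hc : Continuous fun T : HS K →L[ℂ] HS K => ev m (T (emb 0 h₀)) :=
      (ev m).continuous.comp (ContinuousLinearMap.apply ℂ (HS K) (emb 0 h₀)).continuous
    exact (hc.tendsto _).comp h2
  have h3 : Tendsto (fun n => ∑ i ∈ Finset.range (m + 1), comp (Φ i n) m d h₀) atTop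
      (𝓝 (∑ i ∈ Finset.range (m + 1), comp Φ₀ m d h₀)) :=
    tendsto_finsetSum _ fun i _ => hlim i
  simp only [hsum] at h3
  have h4 := tendsto_nhds_unique h3 tendsto_const_nhds
  rw [Finset.sum_const, Finset.card_range] at h4
  have h5 : (((m + 1 : ℕ) : ℂ)) • comp Φ₀ m d h₀ = 0 := by
    rw [← h4, Nat.cast_smul_eq_nsmul]
  exact (smul_eq_zero.mp h5).resolve_left (by exact_mod_cast Nat.succ_ne_zero m)

end ToeplitzRep

end Pool.Agent.helper27.TA
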