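import Pool.Agent.helper27.TA.Char

/-!
# The defect vanishes at characters of the coefficient algebra, continued
-/

set_option autoImplicit false
set_option linter.unusedSimpArgs false
set_option linter.unusedSectionVars false

open scoped InnerProductSpace Topology
open Filter

namespace Pool.Agent.helper27.TA

universe u

variable {A X : Type u} [NonUnitalCStarAlgebra A] [NormedAddCommGroup X] [NormedSpace ℂ X]
  [CompleteSpace X] {E : Correspondence A X} {B : Type u} [NonUnitalCStarAlgebra B]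

/-- functional calculus: a quasi-projection -/
lemma exists_quasi {u : A} (hu : IsSelfAdjoint u) {lam δ : ℝ} (hlam : 0 ≤ lam) (hδ : lam ≤ δ)
    (hδ0 : 0 < δ) :
    ∃ w z : A, z = w * u - lam • w ∧ IsSelfAdjoint z ∧
      ‖u - z * u - u * z + z * u * z‖ ≤ δ := by
  let k : ℝ → ℝ := fun t => t / (t ^ 2 + δ ^ 2)
  have hden : ∀ t : ℝ, 0 < t ^ 2 + δ ^ 2 := fun t => by positivity
  have hk : Continuous k := by
    refine continuous_id.div (by fun_prop) fun t => (hden t).ne'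
  have hk0 : k 0 = 0 := by simp [k]
  let f : ℝ → ℝ := fun t => k t * t - lam * k t
  have hf : Continuous f := by fun_prop
  have hf0 : f 0 = 0 := by simp [f, hk0]
  have hid : cfcₙ (fun t : ℝ => t) u = u := cfcₙ_id' ℝ u hu
  refine ⟨cfcₙ k u, cfcₙ f u, ?_, ?_, ?_⟩
  · have h1 : cfcₙ f u = cfcₙ (fun t => k t * t) u - cfcₙ (fun t => lam * k t) u := by
      rw [← cfcₙ_sub (R := ℝ) (fun t => k t * t) (fun t => lam * k t) u (by fun_prop) (by simp)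
        (by fun_prop) (by simp [hk0])]
    have h2 : cfcₙ (fun t => k t * t) u = cfcₙ k u * u := by
      rw [cfcₙ_mul (R := ℝ) k (fun t => t) u (by fun_prop) hk0 (by fun_prop) rfl, hid]
    have h3 : cfcₙ (fun t => lam * k t) u = lam • cfcₙ k u :=
      cfcₙ_const_mul (R := ℝ) lam k u (by fun_prop) hk0
    rw [h1, h2, h3]
  · exact cfcₙ_predicate f u
  · let g : ℝ → ℝ := fun t => t - f t * t - t * f t + f t * t * f t
    have hg : cfcₙ g u = u - cfcₙ f u * u - u * cfcₙ f u + cfcₙ f u * u * cfcₙ f u := by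
      have h1 : cfcₙ (fun t => f t * t) u = cfcₙ f u * u := by
        rw [cfcₙ_mul (R := ℝ) f (fun t => t) u (by fun_prop) hf0 (by fun_prop) rfl, hid]
      have h2 : cfcₙ (fun t => t * f t) u = u * cfcₙ f u := by
        rw [cfcₙ_mul (R := ℝ) (fun t => t) f u (by fun_prop) rfl (by fun_prop) hf0, hid]
      have h3 : cfcₙ (fun t => f t * t * f t) u = cfcₙ f u * u * cfcₙ f u := by
        rw [cfcₙ_mul (R := ℝ) (fun t => f t * t) f u (by fun_prop) (by simp) (by fun_prop) hf0, h1]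
      have h4 : cfcₙ (fun t => t - f t * t) u = u - cfcₙ f u * u := by
        rw [cfcₙ_sub (R := ℝ) (fun t => t) (fun t => f t * t) u (by fun_prop) rfl (by fun_prop)
          (by simp), hid, h1]
      have h5 : cfcₙ (fun t => t - f t * t - t * f t) u = u - cfcₙ f u * u - u * cfcₙ f u := by
        rw [cfcₙ_sub (R := ℝ) (fun t => t - f t * t) (fun t => t * f t) u (by fun_prop) (by simp)
          (by fun_prop) (by simp), h4, h2]
      change cfcₙ (fun t => t - f t * t - t * f t + f t * t * f t) u = _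
      rw [cfcₙ_add (R := ℝ) (fun t => t - f t * t - t * f t) (fun t => f t * t * f t) u
        (by fun_prop) (by simp) (by fun_prop) (by simp), h5, h3]
    rw [← hg]
    refine norm_cfcₙ_le fun t _ => ?_
    have e1 : g t = t * ((δ ^ 2 + lam * t) / (t ^ 2 + δ ^ 2)) ^ 2 := by
      have h1 : 1 - f t = (δ ^ 2 + lam * t) / (t ^ 2 + δ ^ 2) := by
        have := (hden t).ne'
        simp only [f, k]
        field_simp
        ring
      rw [← h1]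
      simp only [g]
      ring
    rw [e1, Real.norm_eq_abs, abs_mul, abs_of_nonneg (sq_nonneg ((δ ^ 2 + lam * t) / (t ^ 2 + δ ^ 2))),
      div_pow, ← mul_div_assoc, div_le_iff₀ (by positivity)]
    have h2 : |δ ^ 2 + lam * t| ≤ δ * (δ + |t|) := by
      calc |δ ^ 2 + lam * t| ≤ |δ ^ 2| + |lam * t| := abs_add_le _ _
        _ = δ ^ 2 + lam * |t| := by rw [abs_mul, abs_of_nonneg (sq_nonneg δ), abs_of_nonneg hlam]
        _ ≤ δ ^ 2 + δ * |t| := by gcongr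
        _ = δ * (δ + |t|) := by ring
    have h3 : (δ ^ 2 + lam * t) ^ 2 ≤ δ ^ 2 * (δ + |t|) ^ 2 := by
      rw [← sq_abs, ← mul_pow]
      gcongr
    have h4 : (δ + |t|) ^ 2 ≤ 2 * (t ^ 2 + δ ^ 2) := by
      have h5 : |t| ^ 2 = t ^ 2 := sq_abs t
      nlinarith [sq_nonneg (δ - |t|)]
    have h6 : 2 * (δ * |t|) ≤ t ^ 2 + δ ^ 2 := by
      have h5 : |t| ^ 2 = t ^ 2 := sq_abs t
      nlinarith [sq_nonneg (δ - |t|)]
    calc |t| * (δ ^ 2 + lam * t) ^ 2 ≤ |t| * (δ ^ 2 * (2 * (t ^ 2 + δ ^ 2))) := by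
          gcongr
          exact h3.trans (by gcongr)
      _ = δ * ((2 * (δ * |t|)) * (t ^ 2 + δ ^ 2)) := by ring
      _ ≤ δ * ((t ^ 2 + δ ^ 2) * (t ^ 2 + δ ^ 2)) := by gcongr
      _ = δ * (t ^ 2 + δ ^ 2) ^ 2 := by ring

namespace ToeplitzRep

variable {ρ : ToeplitzRep E B} {K : Type u} [NormedAddCommGroup K] [InnerProductSpace ℂ K]
  [CompleteSpace K] {Ψ : B →⋆ₙₐ[ℂ] (K →L[ℂ] K)}
  {Φ₀ : B →⋆ₙₐ[ℂ] (HS K →L[ℂ] HS K)} {S : ρ.tensorAlgebra →L[ℂ] ρ.tensorAlgebra}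
  {χ : A → ℂ} {h₀ : K}

open HS

lemma chi_star (hh : ∀ b, Ψ (ρ.π b) h₀ = χ b • h₀) (hh1 : ‖h₀‖ = 1) (b : A) :
    χ (star b) = (starRingEnd ℂ) (χ b) := by
  have h1 : ⟪h₀, Ψ (ρ.π (star b)) h₀⟫_ℂ = χ (star b) := by
    rw [hh, inner_smul_right, inner_self_eq_norm_sq_to_K, hh1]; simp
  have h2 : ⟪h₀, Ψ (ρ.π (star b)) h₀⟫_ℂ = (starRingEnd ℂ) (χ b) := by
    rw [map_star, map_star, ContinuousLinearMap.star_eq_adjoint,
      ContinuousLinearMap.adjoint_inner_right, hh, inner_smul_left, inner_self_eq_norm_sq_to_K, hh1]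
    simp
  rw [← h1, h2]

lemma chi_ip (hh : ∀ b, Ψ (ρ.π b) h₀ = χ b • h₀) (hh1 : ‖h₀‖ = 1) (ξ : X) :
    χ (E.ip ξ ξ) = ((‖Ψ (ρ.t ξ) h₀‖ ^ 2 : ℝ) : ℂ) := by
  have h1 : ⟪Ψ (ρ.t ξ) h₀, Ψ (ρ.t ξ) h₀⟫_ℂ = χ (E.ip ξ ξ) := by
    rw [← ContinuousLinearMap.adjoint_inner_right, ← ContinuousLinearMap.star_eq_adjoint,
      ← map_star, ← mul_apply_eq_comp, ← map_mul, ρ.star_t_mul_t, hh, inner_smul_right,
      inner_self_eq_norm_sq_to_K, hh1]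
    simp
  rw [← h1, inner_self_eq_norm_sq_to_K]
  push_cast; rfl

/-- Step C1 -/
lemma exists_elem (hh : ∀ b, Ψ (ρ.π b) h₀ = χ b • h₀) (hh1 : ‖h₀‖ = 1) {b₀ : A} (hb₀ : χ b₀ = 1)
    (ξ : X) {δ : ℝ} (hδ : ‖Ψ (ρ.t ξ) h₀‖ ^ 2 < δ) :
    ∃ b : A, Ψ (ρ.π b) h₀ = h₀ ∧ ‖E.ract ξ b‖ ^ 2 ≤ ‖b₀‖ ^ 2 * δ := by
  have hu : IsSelfAdjoint (E.ip ξ ξ) := E.star_ip ξ ξ
  have hδ0 : 0 < δ := lt_of_le_of_lt (by positivity) hδ
  obtain ⟨w, z, hz, hzsa, hn⟩ := exists_quasi hu (lam := ‖Ψ (ρ.t ξ) h₀‖ ^ 2) (by positivity)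
    hδ.le hδ0
  refine ⟨b₀ - z * b₀, ?_, ?_⟩
  · have h1 : Ψ (ρ.π z) h₀ = 0 := by
      have h2 : (‖Ψ (ρ.t ξ) h₀‖ ^ 2 : ℝ) • w = ((‖Ψ (ρ.t ξ) h₀‖ ^ 2 : ℝ) : ℂ) • w :=
        (Complex.coe_smul _ _).symm
      rw [hz, h2, map_sub, map_sub, map_mul, map_mul, map_smul, map_smul, _root_.sub_apply,
        mul_apply_eq_comp, _root_.smul_apply, hh (E.ip ξ ξ), map_smul, chi_ip hh hh1, sub_self]
    rw [map_sub, map_sub, map_mul, map_mul, _root_.sub_apply, mul_apply_eq_comp, hh b₀, hb₀,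
      one_smul, h1, sub_zero]
  · rw [E.norm_sq, E.ract_ip, E.ip_ract, ← mul_assoc]
    have e1 : star (b₀ - z * b₀) * E.ip ξ ξ * (b₀ - z * b₀) =
        star b₀ * (E.ip ξ ξ - z * E.ip ξ ξ - E.ip ξ ξ * z + z * E.ip ξ ξ * z) * b₀ := by
      rw [star_sub, star_mul, hzsa.star_eq]
      noncomm_ring
    rw [e1]
    calc _ ≤ ‖star b₀‖ * ‖E.ip ξ ξ - z * E.ip ξ ξ - E.ip ξ ξ * z + z * E.ip ξ ξ * z‖ * ‖b₀‖ := by
          refine (norm_mul_le _ _).trans ?_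
          gcongr
          exact norm_mul_le _ _
      _ ≤ ‖b₀‖ * δ * ‖b₀‖ := by
          rw [norm_star]; gcongr
      _ = _ := by ring

/-- the map `ξ ↦ (c_a ξ)_m h₀` -/
noncomputable def lamMap (ρ : ToeplitzRep E B) (Φ₀ : B →⋆ₙₐ[ℂ] (HS K →L[ℂ] HS K))
    (S : ρ.tensorAlgebra →L[ℂ] ρ.tensorAlgebra) (a : ρ.tensorAlgebra) (h₀ : K) (m : ℕ) :
    X →ₗ[ℂ] K where
  toFun ξ := comp Φ₀ m ((defect S a ξ : ρ.tensorAlgebra) : B) h₀
  map_add' ξ η := by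
    rw [defect_add, NonUnitalSubalgebra.coe_add, comp_add, _root_.add_apply]
  map_smul' c ξ := by
    rw [defect_smul, NonUnitalSubalgebra.coe_smul, comp_smul, _root_.smul_apply]; rfl

lemma lamMap_apply (Φ₀ : B →⋆ₙₐ[ℂ] (HS K →L[ℂ] HS K))
    (S : ρ.tensorAlgebra →L[ℂ] ρ.tensorAlgebra) (a : ρ.tensorAlgebra) (h₀ : K) (m : ℕ) (ξ : X) :
    lamMap ρ Φ₀ S a h₀ m ξ = comp Φ₀ m ((defect S a ξ : ρ.tensorAlgebra) : B) h₀ := rfl

lemma norm_lamMap_le (hh1 : ‖h₀‖ = 1) (a : ρ.tensorAlgebra) (m : ℕ) (ξ : X) :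
    ‖lamMap ρ Φ₀ S a h₀ m ξ‖ ≤ (2 * ‖S‖ * ‖a‖) * ‖ξ‖ := by
  rw [lamMap_apply]
  refine ((comp Φ₀ m _).le_opNorm _).trans ?_
  rw [hh1, mul_one]
  exact (norm_comp_le Φ₀ m _).trans (norm_defect_le a ξ)

lemma lamMap_ract (hS : IsApproxLocalLeftMultiplier S) (hΦ₀ : IsTwLift ρ Ψ 0 1 Φ₀)
    (a : ρ.tensorAlgebra) (m : ℕ) (ξ : X) (b : A) :
    lamMap ρ Φ₀ S a h₀ m (E.ract ξ b) =
      comp Φ₀ m ((defect S a ξ : ρ.tensorAlgebra) : B) (Ψ (ρ.π b) h₀) := by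
  rw [lamMap_apply, defect_ract hS, NonUnitalSubalgebra.coe_mul, coe_pi', hΦ₀.comp_mul_pi,
    mul_apply_eq_comp]

lemma lamMap_phi (hS : IsApproxLocalLeftMultiplier S) (hΦ₀ : IsTwLift ρ Ψ 0 1 Φ₀)
    (a : ρ.tensorAlgebra) (m : ℕ) (ξ : X) (b : A) :
    lamMap ρ Φ₀ S a h₀ m (E.phi b ξ) =
      comp Φ₀ m ((defect S a ξ : ρ.tensorAlgebra) : B) (Ψ (ρ.π b) h₀) := by
  rw [lamMap_apply, defect_phi hS, NonUnitalSubalgebra.coe_mul, coe_pi', hΦ₀.comp_mul_pi,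
    mul_apply_eq_comp]

/-- Step C1, conclusion -/
lemma norm_lamMap_le' (hS : IsApproxLocalLeftMultiplier S) (hΦ₀ : IsTwLift ρ Ψ 0 1 Φ₀)
    (hh : ∀ b, Ψ (ρ.π b) h₀ = χ b • h₀) (hh1 : ‖h₀‖ = 1)
    {b₀ : A} (hb₀ : χ b₀ = 1) (a : ρ.tensorAlgebra) (m : ℕ) (ξ : X) :
    ‖lamMap ρ Φ₀ S a h₀ m ξ‖ ≤ (2 * ‖S‖ * ‖a‖ * ‖b₀‖) * ‖Ψ (ρ.t ξ) h₀‖ := by
  set C := 2 * ‖S‖ * ‖a‖ with hC
  have hC0 : 0 ≤ C := by positivity
  have h1 : ∀ δ, ‖Ψ (ρ.t ξ) h₀‖ ^ 2 < δ → ‖lamMap ρ Φ₀ S a h₀ m ξ‖ ^ 2 ≤ (C * ‖b₀‖) ^ 2 * δ := by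
    intro δ hδ
    obtain ⟨b, hb1, hb2⟩ := exists_elem hh hh1 hb₀ ξ hδ
    have h2 : lamMap ρ Φ₀ S a h₀ m ξ = lamMap ρ Φ₀ S a h₀ m (E.ract ξ b) := by
      rw [lamMap_ract hS hΦ₀, hb1, lamMap_apply]
    rw [h2]
    calc ‖lamMap ρ Φ₀ S a h₀ m (E.ract ξ b)‖ ^ 2 ≤ (C * ‖E.ract ξ b‖) ^ 2 := by
          gcongr
          exact norm_lamMap_le hh1 a m _
      _ = C ^ 2 * ‖E.ract ξ b‖ ^ 2 := by ring
      _ ≤ C ^ 2 * (‖b₀‖ ^ 2 * δ) := by gcongr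
      _ = _ := by ring
  have h2 : ‖lamMap ρ Φ₀ S a h₀ m ξ‖ ^ 2 ≤ (C * ‖b₀‖) ^ 2 * ‖Ψ (ρ.t ξ) h₀‖ ^ 2 := by
    have h3 : Tendsto (fun n : ℕ => (C * ‖b₀‖) ^ 2 * (‖Ψ (ρ.t ξ) h₀‖ ^ 2 + 1 / ((n : ℝ) + 1))) atTop
        (𝓝 ((C * ‖b₀‖) ^ 2 * (‖Ψ (ρ.t ξ) h₀‖ ^ 2 + 0))) :=
      (tendsto_one_div_add_atTop_nhds_zero_nat.const_add _).const_mul _
    rw [add_zero] at h3
    refine ge_of_tendsto' h3 fun n => h1 _ ?_
    have : (0 : ℝ) < 1 / ((n : ℝ) + 1) := by positivity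
    linarith
  rw [← mul_pow] at h2
  exact (pow_le_pow_iff_left₀ (norm_nonneg _) (by positivity) two_ne_zero).mp h2

/-- Step C: the defect vanishes on eigenvectors of the coefficient algebra. -/
theorem comp_defect_char (hρ : ρ.IsUniversal) (hS : IsApproxLocalLeftMultiplier S)
    (hΦ₀ : IsTwLift ρ Ψ 0 1 Φ₀) (hh : ∀ b, Ψ (ρ.π b) h₀ = χ b • h₀) (hh1 : ‖h₀‖ = 1)
    (a : ρ.tensorAlgebra) (ξ₀ : X) (m : ℕ) :
    comp Φ₀ m ((defect S a ξ₀ : ρ.tensorAlgebra) : B) h₀ = 0 := by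
  rw [← lamMap_apply]
  set Λ := lamMap ρ Φ₀ S a h₀ m with hΛ
  by_cases hχ : ∀ b, χ b = 0
  · -- the character vanishes
    obtain ⟨l, hl⟩ := exists_isAU A
    have := hl.neBot
    have h1 : Tendsto (fun u => Λ (E.ract ξ₀ u)) l (𝓝 (Λ ξ₀)) := by
      have hcont : Continuous Λ :=
        AddMonoidHomClass.continuous_of_bound Λ (2 * ‖S‖ * ‖a‖) (norm_lamMap_le hh1 a m)
      exact (hcont.tendsto _).comp (hl.tendsto_ract ξ₀)
    have h2 : ∀ u, Λ (E.ract ξ₀ u) = 0 := fun u => by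
      rw [hΛ, lamMap_ract hS hΦ₀, hh, hχ, zero_smul, map_zero]
    simp only [h2] at h1
    exact (tendsto_nhds_unique h1 tendsto_const_nhds)
  · push Not at hχ
    obtain ⟨b₁, hb₁⟩ := hχ
    by_contra hne
    -- normalise
    set b₀ : A := (χ b₁)⁻¹ • b₁ with hb₀
    have hh0 : h₀ ≠ 0 := by
      intro h; rw [h, norm_zero] at hh1; exact zero_ne_one hh1
    have hχb₀ : χ b₀ = 1 := by
      have h1 : Ψ (ρ.π b₀) h₀ = (1 : ℂ) • h₀ := by
        rw [hb₀, map_smul, map_smul, _root_.smul_apply, hh, smul_smul, inv_mul_cancel₀ hb₁]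
      rw [hh] at h1
      exact smul_left_injective ℂ hh0 h1
    have hbd := fun ξ => norm_lamMap_le' (Φ₀ := Φ₀) hS hΦ₀ hh hh1 hχb₀ a m ξ
    rw [← hΛ] at hbd
    set M := 2 * ‖S‖ * ‖a‖ * ‖b₀‖ with hM
    -- the map `q`
    let q : X →ₗ[ℂ] K :=
      { toFun := fun ξ => Ψ (ρ.t ξ) h₀
        map_add' := fun ξ η => by rw [map_add, map_add, _root_.add_apply]
        map_smul' := fun c ξ => by rw [map_smul, map_smul, _root_.smul_apply]; rfl }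
    have hq : ∀ ξ, q ξ = Ψ (ρ.t ξ) h₀ := fun _ => rfl
    -- the functional
    let ℓ : X →ₗ[ℂ] ℂ := (innerSL ℂ (Λ ξ₀) : K →ₗ[ℂ] ℂ) ∘ₗ Λ
    have hℓ : ∀ ξ, ℓ ξ = ⟪Λ ξ₀, Λ ξ⟫_ℂ := fun _ => rfl
    have hℓb : ∀ ξ, ‖ℓ ξ‖ ≤ (‖Λ ξ₀‖ * M) * ‖q ξ‖ := by
      intro ξ
      rw [hℓ, mul_assoc]
      refine (norm_inner_le_norm _ _).trans ?_
      gcongr
      exact hbd ξ
    have hker : LinearMap.ker q ≤ LinearMap.ker ℓ := by
      intro ξ hξ
      rw [LinearMap.mem_ker] at hξ ⊢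
      have := hℓb ξ
      rw [hξ, norm_zero, mul_zero] at this
      exact norm_le_zero_iff.mp this
    obtain ⟨v', hv'⟩ : ∃ v' : K, ∀ ξ, ⟪v', q ξ⟫_ℂ = ℓ ξ := by
      let f₀ : LinearMap.range q →ₗ[ℂ] ℂ :=
        ((LinearMap.ker q).liftQ ℓ hker) ∘ₗ (q.quotKerEquivRange.symm : _ →ₗ[ℂ] _)
      have hf₀ : ∀ ξ, f₀ ⟨q ξ, LinearMap.mem_range_self q ξ⟩ = ℓ ξ := by
        intro ξ
        have h1 : q.quotKerEquivRange.symm ⟨q ξ, LinearMap.mem_range_self q ξ⟩ =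
            (LinearMap.ker q).mkQ ξ := LinearMap.quotKerEquivRange_symm_apply_image q ξ _
        change ((LinearMap.ker q).liftQ ℓ hker) (q.quotKerEquivRange.symm _) = _
        rw [h1]
        simp
      let f : StrongDual ℂ (LinearMap.range q) := f₀.mkContinuous (‖Λ ξ₀‖ * M) (by
        rintro ⟨_, ξ, rfl⟩
        rw [hf₀]
        exact hℓb ξ)
      obtain ⟨g, hg, -⟩ := exists_extension_norm_eq (LinearMap.range q) f
      refine ⟨(InnerProductSpace.toDual ℂ K).symm g, fun ξ => ?_⟩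
      rw [InnerProductSpace.toDual_symm_apply]
      have := hg ⟨q ξ, LinearMap.mem_range_self q ξ⟩
      rw [this]
      exact hf₀ ξ
    -- project
    let R : Submodule ℂ K := (LinearMap.range q).topologicalClosure
    have hRc : IsClosed (R : Set K) := Submodule.isClosed_topologicalClosure _
    have : CompleteSpace R := hRc.completeSpace_coe
    let v : K := R.starProjection v'
    have hvR : v ∈ R := Submodule.starProjection_apply_mem R v'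
    have hv : ∀ ξ, ⟪v, q ξ⟫_ℂ = ℓ ξ := by
      intro ξ
      have hqR : q ξ ∈ R := Submodule.le_topologicalClosure _ (LinearMap.mem_range_self q ξ)
      rw [← hv' ξ]
      have h1 := Submodule.starProjection_inner_eq_zero (K := R) v' (q ξ) hqR
      rw [inner_sub_left, sub_eq_zero] at h1
      exact h1.symm
    -- eigenvector
    have hχmul : ∀ b ξ, ℓ (E.phi b ξ) = χ b * ℓ ξ := by
      intro b ξ
      rw [hℓ, hℓ]
      have : Λ (E.phi b ξ) = χ b • Λ ξ := by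
        rw [hΛ, lamMap_phi hS hΦ₀, hh, map_smul, lamMap_apply]
      rw [this, inner_smul_right]
    have hRinv : ∀ b, ∀ r ∈ R, Ψ (ρ.π b) r ∈ R := by
      intro b r hr
      have h1 : Set.MapsTo (Ψ (ρ.π b)) (LinearMap.range q : Set K) (LinearMap.range q : Set K) := by
        rintro _ ⟨ξ, rfl⟩
        refine ⟨E.phi b ξ, ?_⟩
        rw [hq, hq, ← mul_apply_eq_comp, ← map_mul, ρ.pi_mul_t]
      exact h1.closure (Ψ (ρ.π b)).continuous hr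
    have hveig : ∀ b, Ψ (ρ.π b) v = χ b • v := by
      intro b
      have h1 : Ψ (ρ.π b) v - χ b • v ∈ R := sub_mem (hRinv b v hvR) (Submodule.smul_mem _ _ hvR)
      have h2 : ∀ ξ, ⟪Ψ (ρ.π b) v - χ b • v, q ξ⟫_ℂ = 0 := by
        intro ξ
        rw [inner_sub_left, inner_smul_left, ← chi_star hh hh1]
        have h3 : ⟪Ψ (ρ.π b) v, q ξ⟫_ℂ = ⟪v, q (E.phi (star b) ξ)⟫_ℂ := by
          rw [hq (E.phi _ _), ← ρ.pi_mul_t, map_mul, mul_apply_eq_comp, map_star, map_star,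
            ContinuousLinearMap.star_eq_adjoint, ContinuousLinearMap.adjoint_inner_right, hq]
        rw [h3, hv, hv, hχmul, sub_self]
      have h4 : ∀ r ∈ R, ⟪Ψ (ρ.π b) v - χ b • v, r⟫_ℂ = 0 := by
        intro r hr
        have hcl : IsClosed {r : K | ⟪Ψ (ρ.π b) v - χ b • v, r⟫_ℂ = 0} :=
          isClosed_eq (by fun_prop) continuous_const
        refine closure_minimal ?_ hcl hr
        rintro _ ⟨ξ, rfl⟩
        exact h2 ξ
      have h5 := h4 _ h1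
      exact sub_eq_zero.mp (inner_self_eq_zero.mp h5)
    have hvq : ⟪v, q ξ₀⟫_ℂ ≠ 0 := by
      rw [hv, hℓ]
      exact fun h => hne (inner_self_eq_zero.mp h)
    have hv0 : v ≠ 0 := by
      intro h
      rw [h, inner_zero_left] at hvq
      exact hvq rfl
    have hvn : ‖v‖ ≠ 0 := norm_ne_zero_iff.mpr hv0
    -- normalise
    set e : K := ((‖v‖ : ℂ))⁻¹ • v with he
    have he1 : ‖e‖ = 1 := by
      rw [he, norm_smul, norm_inv, Complex.norm_real, norm_norm, inv_mul_cancel₀ hvn]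
    have heig : ∀ b, Ψ (ρ.π b) e = χ b • e := by
      intro b
      rw [he, map_smul, hveig, smul_comm]
    have heq : ⟪e, Ψ (ρ.t ξ₀) h₀⟫_ℂ ≠ 0 := by
      rw [he, inner_smul_left, ← hq]
      refine mul_ne_zero ?_ hvq
      simpa using hvn
    exact hne (comp_defect_eq_zero hρ hS hΦ₀ (chi_star hh hh1) heig hh he1 hh1 a ξ₀ heq m)

end ToeplitzRep

end Pool.Agent.helper27.TA
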