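import Mathlib

/-!
# C*-correspondences, Toeplitz representations and tensor algebras: definitions
-/

set_option autoImplicit false

namespace Pool.Agent.helper27.TA

universe u

/-- A C*-correspondence `(X, A, φ)` over a (not necessarily unital) C*-algebra `A`: a right
Hilbert `A`-module `X` (complete for the norm `‖x‖² = ‖⟨x, x⟩‖`) with a *-homomorphism
`φ : A → 𝓛(X)` into the adjointable operators.  No nondegeneracy is assumed.  That each `φ a` is
adjointable with adjoint `φ (star a)` is `phi_adjoint`; it implies that `φ a` is linear,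
`A`-linear and bounded. -/
structure Correspondence (A X : Type u) [NonUnitalCStarAlgebra A]
    [NormedAddCommGroup X] [NormedSpace ℂ X] [CompleteSpace X] where
  /-- the `A`-valued inner product `⟨x, y⟩`, linear in the second variable -/
  ip : X → X → A
  /-- the right action `x · a` -/
  ract : X → A → X
  /-- the left action `φ(a) x` -/
  phi : A → X → X
  ract_add : ∀ x a b, ract x (a + b) = ract x a + ract x b
  add_ract : ∀ x y a, ract (x + y) a = ract x a + ract y a
  ract_smul : ∀ (c : ℂ) x a, ract x (c • a) = c • ract x a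
  smul_ract : ∀ (c : ℂ) x a, ract (c • x) a = c • ract x a
  ract_mul : ∀ x a b, ract x (a * b) = ract (ract x a) b
  ip_add : ∀ x y z, ip x (y + z) = ip x y + ip x z
  ip_smul : ∀ (c : ℂ) x y, ip x (c • y) = c • ip x y
  ip_ract : ∀ x y a, ip x (ract y a) = ip x y * a
  star_ip : ∀ x y, star (ip x y) = ip y x
  /-- positivity: `⟨x, x⟩` has the form `b* b` -/
  ip_self_pos : ∀ x, ∃ b : A, ip x x = star b * b
  norm_sq : ∀ x, ‖x‖ ^ 2 = ‖ip x x‖
  phi_add : ∀ a b x, phi (a + b) x = phi a x + phi b x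
  phi_smul : ∀ (c : ℂ) a x, phi (c • a) x = c • phi a x
  phi_mul : ∀ a b x, phi (a * b) x = phi a (phi b x)
  phi_adjoint : ∀ a x y, ip (phi a x) y = ip x (phi (star a) y)

section

variable {A X : Type u} [NonUnitalCStarAlgebra A] [NormedAddCommGroup X] [NormedSpace ℂ X]
  [CompleteSpace X]

/-- A Toeplitz representation `(π, t)` of the correspondence `E` in a C*-algebra `B`. -/
structure ToeplitzRep (E : Correspondence A X) (B : Type u) [NonUnitalCStarAlgebra B] where
  /-- the *-homomorphism on the coefficient algebra -/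
  π : A →⋆ₙₐ[ℂ] B
  /-- the linear map on the module -/
  t : X →ₗ[ℂ] B
  pi_mul_t : ∀ a x, π a * t x = t (E.phi a x)
  star_t_mul_t : ∀ x y, star (t x) * t y = π (E.ip x y)

/-- `(π, t) : (A, X) → B` is *the* universal Toeplitz representation: `B` is generated, as a
C*-algebra, by the images of `π` and `t`, and every Toeplitz representation in a C*-algebra `C`
factors through `(π, t)` by a *-homomorphism `B → C`.  (So `B` is the Toeplitz algebra `𝒯_X`.) -/
structure ToeplitzRep.IsUniversal {E : Correspondence A X} {B : Type u} [NonUnitalCStarAlgebra B]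
    (ρ : ToeplitzRep E B) : Prop where
  generates : (NonUnitalStarAlgebra.adjoin ℂ
    (Set.range ρ.π ∪ Set.range ρ.t)).topologicalClosure = ⊤
  lift : ∀ (C : Type u) [NonUnitalCStarAlgebra C] (σ : ToeplitzRep E C),
    ∃ Ψ : B →⋆ₙₐ[ℂ] C, (∀ a, Ψ (ρ.π a) = σ.π a) ∧ ∀ x, Ψ (ρ.t x) = σ.t x

/-- The norm-closed (non-selfadjoint) subalgebra of `B` generated by the images of `π` and `t`.
For the universal Toeplitz representation this is the tensor algebra `𝒯_X⁺`. -/
def ToeplitzRep.tensorAlgebra {E : Correspondence A X} {B : Type u} [NonUnitalCStarAlgebra B]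
    (ρ : ToeplitzRep E B) : NonUnitalSubalgebra ℂ B :=
  (NonUnitalAlgebra.adjoin ℂ (Set.range ρ.π ∪ Set.range ρ.t)).topologicalClosure

end

section Multipliers

variable {T : Type u} [NonUnitalRing T] [Module ℂ T] [TopologicalSpace T]

/-- `S` is a left multiplier: `S (a b) = S(a) b`. -/
def IsLeftMultiplier (S : T →L[ℂ] T) : Prop :=
  ∀ a b : T, S (a * b) = S a * b

/-- `S` is a local left multiplier: for each `a` there is `x` with `S a = x a`. -/
def IsLocalLeftMultiplier (S : T →L[ℂ] T) : Prop :=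
  ∀ a : T, ∃ x : T, S a = x * a

/-- `S` is an approximately local left multiplier: for each `a` there are `x_n` with
`S a = lim x_n a`. -/
def IsApproxLocalLeftMultiplier (S : T →L[ℂ] T) : Prop :=
  ∀ a : T, ∃ x : ℕ → T, Filter.Tendsto (fun n => x n * a) Filter.atTop (nhds (S a))

lemma IsLocalLeftMultiplier.approx {S : T →L[ℂ] T} (h : IsLocalLeftMultiplier S) :
    IsApproxLocalLeftMultiplier S := by
  intro a
  obtain ⟨x, hx⟩ := h a
  exact ⟨fun _ => x, by rw [hx]; exact tendsto_const_nhds⟩

end Multipliers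

/-! ## Basic consequences of the axioms -/

section Basic

variable {A X : Type u} [NonUnitalCStarAlgebra A] [NormedAddCommGroup X] [NormedSpace ℂ X]
  [CompleteSpace X]

namespace Correspondence

variable (E : Correspondence A X)

lemma ip_zero_right (x : X) : E.ip x 0 = 0 := by
  have := E.ip_smul 0 x 0
  simpa using this

lemma ip_neg (x y : X) : E.ip x (-y) = -E.ip x y := by
  have := E.ip_smul (-1) x y
  simpa using this

lemma ip_sub (x y z : X) : E.ip x (y - z) = E.ip x y - E.ip x z := by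
  rw [sub_eq_add_neg, E.ip_add, E.ip_neg, ← sub_eq_add_neg]

lemma add_ip (x y z : X) : E.ip (x + y) z = E.ip x z + E.ip y z := by
  rw [← E.star_ip, E.ip_add, star_add, E.star_ip, E.star_ip]

lemma sub_ip (x y z : X) : E.ip (x - y) z = E.ip x z - E.ip y z := by
  rw [← E.star_ip, E.ip_sub, star_sub, E.star_ip, E.star_ip]

lemma ract_ip (x y : X) (a : A) : E.ip (E.ract x a) y = star a * E.ip x y := by
  rw [← E.star_ip, E.ip_ract, star_mul, E.star_ip]

lemma phi_ip (a : A) (x y : X) : E.ip x (E.phi a y) = E.ip (E.phi (star a) x) y := by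
  rw [E.phi_adjoint, star_star]

lemma eq_zero_of_ip_self {x : X} (h : E.ip x x = 0) : x = 0 := by
  have := E.norm_sq x
  rw [h, norm_zero] at this
  exact norm_eq_zero.mp (pow_eq_zero_iff (two_ne_zero) |>.mp this)

lemma norm_eq (x : X) : ‖x‖ = Real.sqrt ‖E.ip x x‖ := by
  rw [← E.norm_sq, Real.sqrt_sq (norm_nonneg _)]

lemma ext_ip {x y : X} (h : ∀ z, E.ip z x = E.ip z y) : x = y := by
  rw [← sub_eq_zero]
  apply E.eq_zero_of_ip_self
  rw [E.ip_sub, h, sub_self]

lemma phi_add_right (a : A) (x y : X) : E.phi a (x + y) = E.phi a x + E.phi a y := by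
  apply E.ext_ip
  intro z
  rw [E.phi_ip, E.ip_add, E.ip_add, E.phi_ip, E.phi_ip]

lemma phi_smul_right (a : A) (c : ℂ) (x : X) : E.phi a (c • x) = c • E.phi a x := by
  apply E.ext_ip
  intro z
  rw [E.phi_ip, E.ip_smul, E.ip_smul, E.phi_ip]

lemma phi_ract (a : A) (x : X) (b : A) : E.phi a (E.ract x b) = E.ract (E.phi a x) b := by
  apply E.ext_ip
  intro z
  rw [E.phi_ip, E.ip_ract, E.ip_ract, E.phi_ip]

end Correspondence

namespace ToeplitzRep

variable {E : Correspondence A X} {B : Type u} [NonUnitalCStarAlgebra B] (ρ : ToeplitzRep E B)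

lemma t_mul_pi (x : X) (a : A) : ρ.t x * ρ.π a = ρ.t (E.ract x a) := by
  rw [← sub_eq_zero, ← CStarRing.star_mul_self_eq_zero_iff]
  rw [star_sub, star_mul, sub_mul, mul_sub, mul_sub]
  have h1 : star (ρ.π a) * star (ρ.t x) * (ρ.t x * ρ.π a) = ρ.π (star a * E.ip x x * a) := by
    rw [mul_assoc, ← mul_assoc (star (ρ.t x)), ρ.star_t_mul_t, map_mul, map_mul, map_star, mul_assoc]
  have h2 : star (ρ.π a) * star (ρ.t x) * ρ.t (E.ract x a) = ρ.π (star a * E.ip x x * a) := by
    rw [mul_assoc, ρ.star_t_mul_t, E.ip_ract, map_mul, map_mul, map_mul, map_star, mul_assoc]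
  have h3 : star (ρ.t (E.ract x a)) * (ρ.t x * ρ.π a) = ρ.π (star a * E.ip x x * a) := by
    rw [← mul_assoc, ρ.star_t_mul_t, E.ract_ip, map_mul, map_mul, map_mul, map_star]
  have h4 : star (ρ.t (E.ract x a)) * ρ.t (E.ract x a) = ρ.π (star a * E.ip x x * a) := by
    rw [ρ.star_t_mul_t, E.ract_ip, E.ip_ract, ← mul_assoc]
  rw [h1, h2, h3, h4]
  simp

lemma norm_t_le (x : X) : ‖ρ.t x‖ ≤ ‖x‖ := by
  have h : ‖ρ.t x‖ ^ 2 ≤ ‖x‖ ^ 2 := by
    rw [E.norm_sq, sq, ← CStarRing.norm_star_mul_self, ρ.star_t_mul_t]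
    exact NonUnitalStarAlgHom.norm_apply_le _ _
  exact (pow_le_pow_iff_left₀ (norm_nonneg _) (norm_nonneg _) two_ne_zero).mp h

end ToeplitzRep

end Basic

end Pool.Agent.helper27.TA
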