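import Mathlib

/-!
# Extending characters to states, and the GNS vector of a character
-/

set_option autoImplicit false
set_option linter.unusedSectionVars false

open scoped InnerProductSpace ComplexOrder

namespace Pool.Agent.helper27.TA

universe u

variable {U : Type u} [CStarAlgebra U] [PartialOrder U] [StarOrderedRing U]

/-- a contractive functional with `g 1 = 1` is real on self-adjoint elements -/
lemma im_eq_zero_of_norm_le (g : U →L[ℂ] ℂ) (hg : ‖g‖ ≤ 1) (h1 : g 1 = 1) {a : U}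
    (ha : IsSelfAdjoint a) : (g a).im = 0 := by
  have key : ∀ s : ℝ, (g a).re ^ 2 + ((g a).im + s) ^ 2 ≤ ‖a‖ ^ 2 + s ^ 2 := by
    intro s
    have e1 : g (a + ((s : ℂ) * Complex.I) • (1 : U)) = g a + (s : ℂ) * Complex.I := by
      rw [map_add, map_smul, h1, smul_eq_mul, mul_one]
    have e2 : ‖a + ((s : ℂ) * Complex.I) • (1 : U)‖ ^ 2 ≤ ‖a‖ ^ 2 + s ^ 2 := by
      have e3 : star (a + ((s : ℂ) * Complex.I) • (1 : U)) * (a + ((s : ℂ) * Complex.I) • (1 : U))
          = a * a + ((s : ℂ) ^ 2) • (1 : U) := by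
        rw [star_add, star_smul, star_one, ha.star_eq]
        simp only [add_mul, mul_add, smul_mul_assoc, mul_smul_comm, one_mul, mul_one, smul_smul,
          smul_add]
        have : star ((s : ℂ) * Complex.I) = -((s : ℂ) * Complex.I) := by simp
        rw [this]
        have h2 : ((s : ℂ) * Complex.I) * -((s : ℂ) * Complex.I) = (s : ℂ) ^ 2 := by
          ring_nf; simp
        rw [h2]; module
      rw [sq, ← CStarRing.norm_star_mul_self, e3]
      refine (norm_add_le _ _).trans ?_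
      have h4 : ‖a * a‖ ≤ ‖a‖ ^ 2 := by rw [sq]; exact norm_mul_le _ _
      have h5 : ‖((s : ℂ) ^ 2) • (1 : U)‖ ≤ s ^ 2 := by
        rw [norm_smul, norm_pow, Complex.norm_real, Real.norm_eq_abs, sq_abs]
        by_cases hU : Nontrivial U
        · rw [CStarRing.norm_one, mul_one]
        · have : Subsingleton U := not_nontrivial_iff_subsingleton.mp hU
          rw [Subsingleton.elim (1 : U) 0, norm_zero, mul_zero]
          positivity
      linarith
    have e4 : ‖g a + (s : ℂ) * Complex.I‖ ^ 2 = (g a).re ^ 2 + ((g a).im + s) ^ 2 := by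
      rw [Complex.sq_norm, Complex.normSq_apply]
      simp
      ring
    rw [← e4, ← e1]
    refine le_trans ?_ e2
    gcongr
    calc ‖g (a + ((s : ℂ) * Complex.I) • (1 : U))‖ ≤ ‖g‖ * ‖a + ((s : ℂ) * Complex.I) • (1 : U)‖ :=
          g.le_opNorm _
      _ ≤ 1 * ‖a + ((s : ℂ) * Complex.I) • (1 : U)‖ := by gcongr
      _ = _ := one_mul _
  by_contra hne
  set b := (g a).im with hb
  have h := key ((‖a‖ ^ 2 + 1) / (2 * b))
  have h2 : 2 * b * ((‖a‖ ^ 2 + 1) / (2 * b)) = ‖a‖ ^ 2 + 1 := by field_simp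
  nlinarith [sq_nonneg (g a).re, sq_nonneg b]

/-- a contractive functional with `g 1 = 1` is positive -/
lemma nonneg_of_norm_le (g : U →L[ℂ] ℂ) (hg : ‖g‖ ≤ 1) (h1 : g 1 = 1) {a : U} (ha : 0 ≤ a) :
    0 ≤ g a := by
  have hsa : IsSelfAdjoint a := IsSelfAdjoint.of_nonneg ha
  have him := im_eq_zero_of_norm_le g hg h1 hsa
  rw [Complex.nonneg_iff]
  refine ⟨?_, him.symm⟩
  have e1 : ‖algebraMap ℝ U ‖a‖ - a‖ ≤ ‖a‖ := by
    have h2 : a ≤ algebraMap ℝ U ‖a‖ := IsSelfAdjoint.le_algebraMap_norm_self hsa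
    have h3 : ‖algebraMap ℝ U ‖a‖ - a‖ ≤ ‖algebraMap ℝ U ‖a‖‖ :=
      CStarAlgebra.norm_le_norm_of_nonneg_of_le (sub_nonneg.mpr h2) (sub_le_self _ ha)
    refine h3.trans ?_
    rw [Algebra.algebraMap_eq_smul_one, norm_smul, norm_norm]
    by_cases hU : Nontrivial U
    · rw [CStarRing.norm_one, mul_one]
    · have : Subsingleton U := not_nontrivial_iff_subsingleton.mp hU
      rw [Subsingleton.elim (1 : U) 0, norm_zero, mul_zero]
      positivity
  have e2 : g (algebraMap ℝ U ‖a‖ - a) = (‖a‖ : ℂ) - g a := by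
    rw [map_sub, Algebra.algebraMap_eq_smul_one]
    congr 1
    have : (‖a‖ • (1 : U)) = ((‖a‖ : ℂ)) • (1 : U) := by simp
    rw [this, map_smul, h1, smul_eq_mul, mul_one]
  have e3 : ‖(‖a‖ : ℂ) - g a‖ ≤ ‖a‖ := by
    rw [← e2]
    calc ‖g (algebraMap ℝ U ‖a‖ - a)‖ ≤ ‖g‖ * ‖algebraMap ℝ U ‖a‖ - a‖ := g.le_opNorm _
      _ ≤ 1 * ‖a‖ := by gcongr
      _ = _ := one_mul _
  have e4 := (Complex.abs_re_le_norm ((‖a‖ : ℂ) - g a)).trans e3
  rw [Complex.sub_re, Complex.ofReal_re] at e4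
  have := (abs_le.mp e4).2
  linarith

/-- Every character of a unital *-subalgebra extends to a state, whose GNS vector is an
eigenvector for the subalgebra. -/
theorem exists_gns_character (C : StarSubalgebra ℂ U) (χ : C →⋆ₐ[ℂ] ℂ)
    (hχ : ∀ c : C, ‖χ c‖ ≤ ‖c‖) :
    ∃ (K : Type u) (_ : NormedAddCommGroup K) (_ : InnerProductSpace ℂ K) (_ : CompleteSpace K)
      (τ : U →⋆ₐ[ℂ] (K →L[ℂ] K)) (h : K), ‖h‖ = 1 ∧ ∀ c : C, τ (c : U) h = χ c • h := by
  -- the functional on the subspace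
  let p : Subspace ℂ U := Subalgebra.toSubmodule C.toSubalgebra
  let f₀ : p →ₗ[ℂ] ℂ :=
    { toFun := fun x => χ ⟨x.1, x.2⟩
      map_add' := fun x y => by
        rw [← map_add]; rfl
      map_smul' := fun c x => by
        rw [RingHom.id_apply, ← map_smul]; rfl }
  let f : StrongDual ℂ p := f₀.mkContinuous 1 (fun x => by
    rw [one_mul]; exact hχ ⟨x.1, x.2⟩)
  have hf : ‖f‖ ≤ 1 := LinearMap.mkContinuous_norm_le _ zero_le_one _
  obtain ⟨g, hg1, hg2⟩ := exists_extension_norm_eq p f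
  have hgC : ∀ c : C, g (c : U) = χ c := by
    intro c
    have := hg1 ⟨c.1, c.2⟩
    exact this
  have hg : ‖g‖ ≤ 1 := hg2.trans_le hf
  have h1 : g 1 = 1 := by
    have := hgC 1
    simpa using this
  let σ : U →ₚ[ℂ] ℂ := PositiveLinearMap.mk₀ (g : U →ₗ[ℂ] ℂ) (fun x hx => nonneg_of_norm_le g hg h1 hx)
  have hσ : ∀ x, σ x = g x := fun x => rfl
  refine ⟨σ.GNS, inferInstance, inferInstance, inferInstance, σ.gnsStarAlgHom,
    ((σ.toPreGNS 1 : σ.PreGNS) : σ.GNS), ?_, ?_⟩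
  · rw [UniformSpace.Completion.norm_coe]
    have h2 := σ.preGNS_norm_sq (σ.toPreGNS 1)
    rw [σ.ofPreGNS_toPreGNS, star_one, one_mul, hσ, h1] at h2
    have h3 : ‖σ.toPreGNS 1‖ ^ 2 = 1 := by exact_mod_cast h2
    have h4 : 0 ≤ ‖σ.toPreGNS 1‖ := norm_nonneg _
    nlinarith
  · intro c
    have e1 : σ.gnsStarAlgHom (c : U) ((σ.toPreGNS 1 : σ.PreGNS) : σ.GNS)
        = ((σ.toPreGNS (c : U) : σ.PreGNS) : σ.GNS) := by
      change σ.gnsNonUnitalStarAlgHom (c : U) ((σ.toPreGNS 1 : σ.PreGNS) : σ.GNS) = _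
      rw [σ.gnsNonUnitalStarAlgHom_apply_coe, σ.leftMulMapPreGNS_apply]
      simp
    have e2 : χ c • ((σ.toPreGNS 1 : σ.PreGNS) : σ.GNS)
        = ((σ.toPreGNS (χ c • (1 : U)) : σ.PreGNS) : σ.GNS) := by
      rw [map_smul, UniformSpace.Completion.coe_smul]
    rw [e1, e2, ← sub_eq_zero, ← UniformSpace.Completion.coe_sub, ← map_sub, ← norm_eq_zero,
      UniformSpace.Completion.norm_coe]
    have e3 := σ.preGNS_norm_sq (σ.toPreGNS ((c : U) - χ c • (1 : U)))
    rw [σ.ofPreGNS_toPreGNS, hσ] at e3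
    have e4 : star ((c : U) - χ c • (1 : U)) * ((c : U) - χ c • (1 : U))
        = ((star (c - χ c • (1 : C)) * (c - χ c • (1 : C)) : C) : U) := by
      simp
    have e6 : χ (c - χ c • (1 : C)) = 0 := by
      rw [map_sub, map_smul, map_one, smul_eq_mul, mul_one, sub_self]
    rw [e4, hgC, map_mul, e6, mul_zero] at e3
    have e5 : ‖σ.toPreGNS ((c : U) - χ c • (1 : U))‖ ^ 2 = 0 := by exact_mod_cast e3
    exact pow_eq_zero_iff (two_ne_zero) |>.mp e5

/-- characters of commutative C*-algebras separate points -/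
lemma exists_character {C : Type u} [CommCStarAlgebra C] {c : C} (hc : c ≠ 0) :
    ∃ χ : C →⋆ₐ[ℂ] ℂ, χ c ≠ 0 ∧ ∀ x : C, ‖χ x‖ ≤ ‖x‖ := by
  have hnt : Nontrivial C := ⟨c, 0, hc⟩
  have h1 : WeakDual.gelfandTransform ℂ C c ≠ 0 := by
    intro h
    apply hc
    have h2 := (gelfandTransform_isometry C).norm_map_of_map_zero (map_zero _) c
    rw [h, norm_zero] at h2
    exact norm_eq_zero.mp h2.symm
  obtain ⟨φ, hφ⟩ : ∃ φ : WeakDual.characterSpace ℂ C, WeakDual.gelfandTransform ℂ C c φ ≠ 0 := by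
    by_contra hcon
    push Not at hcon
    exact h1 (ContinuousMap.ext hcon)
  refine ⟨{ WeakDual.CharacterSpace.toAlgHom φ with map_star' := fun x => map_star φ x }, ?_, ?_⟩
  · exact hφ
  · intro x
    exact (AlgHom.norm_apply_le_self (WeakDual.CharacterSpace.toAlgHom φ) x)

/-- For a closed commutative unital *-subalgebra `C` and `0 ≠ c₀ ∈ C` there is a representation of
the ambient algebra with a unit vector which is an eigenvector for `C`, with nonzero eigenvalue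
for `c₀`. -/
theorem exists_gns_of_comm (C : StarSubalgebra ℂ U) (hcl : IsClosed (C : Set U))
    (hcomm : ∀ x ∈ C, ∀ y ∈ C, x * y = y * x) {c₀ : U} (hc₀ : c₀ ∈ C) (hne : c₀ ≠ 0) :
    ∃ (K : Type u) (_ : NormedAddCommGroup K) (_ : InnerProductSpace ℂ K) (_ : CompleteSpace K)
      (τ : U →⋆ₐ[ℂ] (K →L[ℂ] K)) (h : K) (χ : U → ℂ), ‖h‖ = 1 ∧ (∀ c ∈ C, τ c h = χ c • h) ∧
        χ c₀ ≠ 0 := by
  classical
  let inst : CommCStarAlgebra C :=
    { (StarSubalgebra.cstarAlgebra C (h_closed := hcl)) with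
      mul_comm := fun x y => Subtype.ext (hcomm x x.2 y y.2) }
  have hne' : (⟨c₀, hc₀⟩ : C) ≠ 0 := fun h => hne (congrArg Subtype.val h)
  obtain ⟨χ, h1, h2⟩ := exists_character hne'
  obtain ⟨K, i1, i2, i3, τ, h, hh, hτ⟩ := exists_gns_character C χ h2
  refine ⟨K, i1, i2, i3, τ, h, fun x => if hx : x ∈ C then χ ⟨x, hx⟩ else 0, hh, ?_, ?_⟩
  · intro c hc
    dsimp only
    rw [dif_pos hc]
    exact hτ ⟨c, hc⟩
  · dsimp only
    rw [dif_pos hc₀]
    exact h1

/-- A nonzero element of a C*-algebra acts non-trivially in some Hilbert space representation. -/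
theorem exists_rep_ne_zero {B : Type u} [NonUnitalCStarAlgebra B] {d : B} (hd : d ≠ 0) :
    ∃ (K : Type u) (_ : NormedAddCommGroup K) (_ : InnerProductSpace ℂ K) (_ : CompleteSpace K)
      (Ψ : B →⋆ₙₐ[ℂ] (K →L[ℂ] K)) (k : K), Ψ d k ≠ 0 := by
  let _ : PartialOrder (Unitization ℂ B) := CStarAlgebra.spectralOrder _
  have _ : StarOrderedRing (Unitization ℂ B) := CStarAlgebra.spectralOrderedRing _
  set x : Unitization ℂ B := star (d : Unitization ℂ B) * (d : Unitization ℂ B) with hx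
  have hxsa : IsSelfAdjoint x := IsSelfAdjoint.star_mul_self _
  have hxn : IsStarNormal x := hxsa.isStarNormal
  have hxne : x ≠ 0 := by
    rw [hx, Ne, CStarRing.star_mul_self_eq_zero_iff]
    intro h
    exact hd (Unitization.inr_injective (h.trans (Unitization.inr_zero ℂ).symm))
  obtain ⟨K, i1, i2, i3, τ, h, χ, hh, hτ, hχ⟩ := exists_gns_of_comm (StarAlgebra.elemental ℂ x)
    (StarAlgebra.elemental.isClosed ℂ x) (fun a ha b hb => by
      have := mul_comm (⟨a, ha⟩ : StarAlgebra.elemental ℂ x) ⟨b, hb⟩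
      exact congrArg Subtype.val this) (StarAlgebra.elemental.self_mem ℂ x) hxne
  refine ⟨K, i1, i2, i3, (τ : Unitization ℂ B →⋆ₙₐ[ℂ] (K →L[ℂ] K)).comp
    (Unitization.inrNonUnitalStarAlgHom ℂ B), h, ?_⟩
  intro h0
  have h1 : τ (d : Unitization ℂ B) h = 0 := h0
  have h2 : τ x h = 0 := by
    rw [hx, map_mul, mul_apply_eq_comp, h1, map_zero]
  rw [hτ x (StarAlgebra.elemental.self_mem ℂ x)] at h2
  rcases smul_eq_zero.mp h2 with h3 | h3
  · exact hχ h3
  · rw [h3, norm_zero] at hh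
    exact zero_ne_one hh

end Pool.Agent.helper27.TA
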