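import Mathlib

/-!
# The zero product property of C*-algebras

Continuous bilinear maps `β` on a C*-algebra with `β b c = 0` whenever `b * c = 0` satisfy
`β (b * c) c' = β b (c * c')`.
-/

set_option autoImplicit false

open Finset

namespace Pool.Agent.helper27.PropB

section Signs

variable {F V : Type*} [NormedAddCommGroup F] [NormedSpace ℝ F] [AddCommGroup V] [Module ℝ V]

lemma exists_signs (φ : V →ₗ[ℝ] V →ₗ[ℝ] F) (f g : ℕ → V) (n : ℕ) : ∀ (F₀ G₀ : V),
    ∃ ε : ℕ → ℝ, (∀ k, |ε k| = 1) ∧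
      ‖∑ k ∈ range n, φ (f k) (g k) + φ F₀ G₀‖ ≤
        ‖φ (F₀ + ∑ k ∈ range n, ε k • f k) (G₀ + ∑ k ∈ range n, ε k • g k)‖ := by
  induction n with
  | zero =>
    intro F₀ G₀
    exact ⟨fun _ => 1, fun k => by simp, by simp⟩
  | succ n ih =>
    intro F₀ G₀
    set Zp := ∑ k ∈ range n, φ (f k) (g k) + φ (F₀ + f n) (G₀ + g n) with hZp
    set Zm := ∑ k ∈ range n, φ (f k) (g k) + φ (F₀ - f n) (G₀ - g n) with hZm
    have hZ : ∑ k ∈ range (n+1), φ (f k) (g k) + φ F₀ G₀ = (2:ℝ)⁻¹ • (Zp + Zm) := by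
      rw [hZp, hZm, Finset.sum_range_succ]
      simp only [map_add, map_sub, LinearMap.add_apply, LinearMap.sub_apply]
      module
    have key : ∃ s : ℝ, |s| = 1 ∧ ‖∑ k ∈ range (n+1), φ (f k) (g k) + φ F₀ G₀‖ ≤
        ‖∑ k ∈ range n, φ (f k) (g k) + φ (F₀ + s • f n) (G₀ + s • g n)‖ := by
      have hle : ‖∑ k ∈ range (n+1), φ (f k) (g k) + φ F₀ G₀‖ ≤ (‖Zp‖ + ‖Zm‖) / 2 := by
        rw [hZ, norm_smul]
        have := norm_add_le Zp Zm
        norm_num
        linarith
      rcases le_total ‖Zp‖ ‖Zm‖ with h | h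
      · refine ⟨-1, by simp, ?_⟩
        have : ‖∑ k ∈ range n, φ (f k) (g k) + φ (F₀ + (-1:ℝ) • f n) (G₀ + (-1:ℝ) • g n)‖ = ‖Zm‖ := by
          rw [hZm]; simp only [neg_smul, one_smul, sub_eq_add_neg]
        rw [this]; linarith
      · refine ⟨1, by simp, ?_⟩
        have : ‖∑ k ∈ range n, φ (f k) (g k) + φ (F₀ + (1:ℝ) • f n) (G₀ + (1:ℝ) • g n)‖ = ‖Zp‖ := by
          rw [hZp]; simp only [one_smul]
        rw [this]; linarith
    obtain ⟨s, hs, hle⟩ := key
    obtain ⟨ε, hε, hle2⟩ := ih (F₀ + s • f n) (G₀ + s • g n)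
    refine ⟨Function.update ε n s, ?_, hle.trans (hle2.trans (le_of_eq ?_))⟩
    · intro k
      by_cases hk : k = n
      · subst hk; simpa using hs
      · simpa [Function.update_of_ne hk] using hε k
    · have h1 : ∀ (h : ℕ → V), ∑ k ∈ range n, Function.update ε n s k • h k = ∑ k ∈ range n, ε k • h k := by
        intro h
        refine Finset.sum_congr rfl fun k hk => ?_
        rw [Function.update_of_ne (Finset.mem_range.mp hk).ne]
      rw [Finset.sum_range_succ, Finset.sum_range_succ, h1 f, h1 g]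
      simp only [Function.update_self]
      have e1 : F₀ + s • f n + ∑ k ∈ range n, ε k • f k = F₀ + (∑ k ∈ range n, ε k • f k + s • f n) := by
        abel
      have e2 : G₀ + s • g n + ∑ k ∈ range n, ε k • g k = G₀ + (∑ k ∈ range n, ε k • g k + s • g n) := by
        abel
      rw [e1, e2]

end Signs

/-- the ramp functions -/
noncomputable def ramp (N : ℕ) (k : ℕ) (t : ℝ) : ℝ :=
  match k with
  | 0 => 1
  | k + 1 => min 1 (max 0 (N * t - k))

lemma continuous_ramp (N k : ℕ) : Continuous (ramp N k) := by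
  cases k with
  | zero => unfold ramp; fun_prop
  | succ k => unfold ramp; fun_prop

lemma ramp_nonneg (N k : ℕ) (t : ℝ) : 0 ≤ ramp N k t := by
  cases k with
  | zero => simp [ramp]
  | succ k => simp [ramp]

lemma ramp_le_one (N k : ℕ) (t : ℝ) : ramp N k t ≤ 1 := by
  cases k with
  | zero => simp [ramp]
  | succ k => simp [ramp]

lemma ramp_succ_mul (N k : ℕ) (t : ℝ) : ramp N (k+1) t * ramp N k t = ramp N (k+1) t := by
  cases k with
  | zero => simp [ramp]
  | succ k =>
    simp only [ramp]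
    rcases le_total (N * t - ((k+1 : ℕ) : ℝ)) 0 with h | h
    · rw [max_eq_left h]; simp
    · have : (1:ℝ) ≤ N * t - k := by push_cast at h; linarith
      rw [min_eq_left (this.trans (le_max_right _ _)), mul_one]

lemma ramp_succ_le (N k : ℕ) (t : ℝ) : ramp N (k+1) t ≤ ramp N k t := by
  rw [← ramp_succ_mul]
  exact mul_le_of_le_one_left (ramp_nonneg _ _ _) (ramp_le_one _ _ _)

lemma sum_ramp (N n : ℕ) (t : ℝ) (ht : 0 ≤ t) :
    ∑ k ∈ range n, ramp N (k+1) t = min (n:ℝ) (N * t) := by
  induction n with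
  | zero =>
    simp only [range_zero, sum_empty, Nat.cast_zero]
    rw [min_eq_left (by positivity)]
  | succ n ih =>
    rw [Finset.sum_range_succ, ih]
    simp only [ramp]
    rcases le_total (N * t - n) 0 with h | h
    · rw [max_eq_left h, min_eq_right (zero_le_one), min_eq_right (by linarith),
        min_eq_right (by push_cast; linarith), add_zero]
    · rw [max_eq_right h, min_eq_left (by linarith : (n:ℝ) ≤ N * t)]
      rcases le_total 1 (N * t - n) with h' | h'
      · rw [min_eq_left h', min_eq_left (by push_cast; linarith)]; push_cast; ring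
      · rw [min_eq_right h', min_eq_right (by push_cast; linarith)]; ring

lemma sum_ramp_sub (N n : ℕ) (t : ℝ) :
    ∑ k ∈ range n, (ramp N k t - ramp N (k+1) t) ≤ 1 := by
  rw [Finset.sum_range_sub']
  have := ramp_nonneg N n t
  simp only [ramp] at *
  linarith

lemma abs_sum_signs_le (N n : ℕ) (t : ℝ) (j : ℕ) (ε : ℕ → ℝ) (hε : ∀ k, |ε k| = 1) :
    |∑ k ∈ range n, ε k * (ramp N (k+j) t - ramp N (k+j+1) t)| ≤ 1 := by
  calc |∑ k ∈ range n, ε k * (ramp N (k+j) t - ramp N (k+j+1) t)|
      ≤ ∑ k ∈ range n, |ε k * (ramp N (k+j) t - ramp N (k+j+1) t)| := Finset.abs_sum_le_sum_abs _ _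
    _ = ∑ k ∈ range n, (ramp N (k+j) t - ramp N (k+j+1) t) := by
        refine Finset.sum_congr rfl fun k _ => ?_
        rw [abs_mul, hε, one_mul, abs_of_nonneg]
        have := ramp_succ_le N (k+j) t
        linarith
    _ = ramp N j t - ramp N (n + j) t := by
        have := Finset.sum_range_sub' (fun k => ramp N (k+j) t) n
        simp only [zero_add] at this
        rw [← this]
        refine Finset.sum_congr rfl fun k _ => ?_
        congr 2
        ring
    _ ≤ 1 := by
        have h1 := ramp_nonneg N (n+j) t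
        have h2 := ramp_le_one N j t
        linarith

section Unital

variable {U : Type*} [CStarAlgebra U] {F : Type*} [NormedAddCommGroup F] [NormedSpace ℝ F]

/-- The zero product property for self-adjoint elements with spectrum in `[0,1]`. -/
lemma apply_self_one_aux (φ : U →ₗ[ℝ] U →ₗ[ℝ] F) (C : ℝ) (hC : ∀ x y, ‖φ x y‖ ≤ C * ‖x‖ * ‖y‖)
    (hφ : ∀ x y, x * y = 0 → φ x y = 0) (c : U) (hc : IsSelfAdjoint c)
    (hsp : ∀ t ∈ spectrum ℝ c, 0 ≤ t ∧ t ≤ 1) : φ c 1 = φ 1 c := by
  have hC0 : 0 ≤ C ∨ ∀ x y, φ x y = 0 := by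
    by_cases h : 0 ≤ C
    · exact Or.inl h
    · right
      intro x y
      have := hC x y
      have h2 : C * ‖x‖ * ‖y‖ ≤ 0 := by
        have : C ≤ 0 := le_of_not_ge h
        have h3 : 0 ≤ ‖x‖ * ‖y‖ := by positivity
        nlinarith
      exact norm_le_zero_iff.mp (this.trans h2)
  rcases hC0 with hC0 | hzero
  swap
  · rw [hzero, hzero]
  -- key estimate
  have key : ∀ N : ℕ, 0 < N → ‖φ c 1 - φ 1 c‖ ≤ 2 * C / N := by
    intro N hN
    have hN' : (N:ℝ) ≠ 0 := by positivity
    set r : ℕ → U := fun k => cfc (ramp N k) c with hr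
    have hr0 : r 0 = 1 := by
      simp only [hr]
      have : ramp N 0 = fun _ => (1:ℝ) := by ext t; simp [ramp]
      rw [this]
      exact cfc_const_one ℝ c
    have hmul : ∀ k, r (k+1) * r k = r (k+1) := by
      intro k
      simp only [hr]
      rw [← cfc_mul (ramp N (k+1)) (ramp N k) c (continuous_ramp _ _).continuousOn
        (continuous_ramp _ _).continuousOn]
      congr 1
      ext t
      exact ramp_succ_mul N k t
    have hmul' : ∀ k, r k * r (k+1) = r (k+1) := by
      intro k
      simp only [hr]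
      rw [← cfc_mul (ramp N k) (ramp N (k+1)) c (continuous_ramp _ _).continuousOn
        (continuous_ramp _ _).continuousOn]
      congr 1
      ext t
      rw [mul_comm]
      exact ramp_succ_mul N k t
    have hmul2 : ∀ k, r (k+2) * r k = r (k+2) := by
      intro k
      calc r (k+2) * r k = (r (k+2) * r (k+1)) * r k := by rw [hmul (k+1)]
        _ = r (k+2) * (r (k+1) * r k) := by rw [mul_assoc]
        _ = r (k+2) := by rw [hmul k, hmul (k+1)]
    have hmul2' : ∀ k, r k * r (k+2) = r (k+2) := by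
      intro k
      calc r k * r (k+2) = r k * (r (k+1) * r (k+2)) := by rw [hmul' (k+1)]
        _ = (r k * r (k+1)) * r (k+2) := by rw [mul_assoc]
        _ = r (k+2) := by rw [hmul' k, hmul' (k+1)]
    have hsum : ∑ k ∈ range N, r (k+1) = (N:ℝ) • c := by
      simp only [hr]
      rw [← cfc_sum (fun k => ramp N (k+1)) c (range N) (fun k _ => (continuous_ramp _ _).continuousOn)]
      have : cfc (∑ k ∈ range N, ramp N (k+1)) c = cfc (fun t => (N:ℝ) * t) c := by
        refine cfc_congr ?_
        intro t ht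
        obtain ⟨h0, h1⟩ := hsp t ht
        simp only [Finset.sum_apply]
        rw [sum_ramp N N t h0, min_eq_right]
        exact mul_le_of_le_one_right (by positivity) h1
      rw [this, cfc_const_mul (N:ℝ) (fun t => t) c (by fun_prop), cfc_id' ℝ c]
    -- the identity for one step
    have hstep : ∀ k, φ (r (k+1)) 1 - φ 1 (r (k+1)) =
        φ (r (k+1) - r (k+2)) (r k - r (k+1)) - φ (r k - r (k+1)) (r (k+1) - r (k+2)) := by
      intro k
      have e1 : φ (r (k+1)) 1 = φ (r (k+1)) (r k) := by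
        have : φ (r (k+1)) (1 - r k) = 0 := by
          apply hφ; rw [mul_sub, mul_one, hmul, sub_self]
        rw [map_sub, sub_eq_zero] at this
        exact this
      have e2 : φ 1 (r (k+1)) = φ (r k) (r (k+1)) := by
        have : φ (1 - r k) (r (k+1)) = 0 := by
          apply hφ; rw [sub_mul, one_mul, hmul', sub_self]
        rw [map_sub, LinearMap.sub_apply, sub_eq_zero] at this
        exact this
      have e3 : φ (r (k+2)) (r k - r (k+1)) = 0 := by
        apply hφ; rw [mul_sub, hmul2, hmul (k+1), sub_self]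
      have e4 : φ (r k - r (k+1)) (r (k+2)) = 0 := by
        apply hφ; rw [sub_mul, hmul2', hmul' (k+1), sub_self]
      have e5 : φ (r (k+1) - r (k+2)) (r k - r (k+1)) = φ (r (k+1)) (r k - r (k+1)) := by
        rw [map_sub φ, LinearMap.sub_apply, e3, sub_zero]
      have e6 : φ (r k - r (k+1)) (r (k+1) - r (k+2)) = φ (r k - r (k+1)) (r (k+1)) := by
        rw [map_sub (φ (r k - r (k+1))), e4, sub_zero]
      rw [e1, e2, e5, e6]
      simp only [map_sub, LinearMap.sub_apply]
      abel
    have hN2 : (N:ℝ) • (φ c 1 - φ 1 c) = ∑ k ∈ range N, φ (r (k+1) - r (k+2)) (r k - r (k+1))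
        - ∑ k ∈ range N, φ (r k - r (k+1)) (r (k+1) - r (k+2)) := by
      rw [← Finset.sum_sub_distrib]
      rw [Finset.sum_congr rfl fun k _ => (hstep k).symm]
      rw [Finset.sum_sub_distrib]
      have a1 : ∑ k ∈ range N, φ (r (k+1)) 1 = (N:ℝ) • φ c 1 := by
        rw [← LinearMap.sum_apply, ← map_sum, hsum, map_smul, LinearMap.smul_apply]
      have a2 : ∑ k ∈ range N, φ 1 (r (k+1)) = (N:ℝ) • φ 1 c := by
        rw [← map_sum, hsum, map_smul]
      rw [a1, a2, smul_sub]
    -- norm bounds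
    have hnorm : ∀ (j : ℕ) (ε : ℕ → ℝ), (∀ k, |ε k| = 1) →
        ‖∑ k ∈ range N, ε k • (r (k+j) - r (k+j+1))‖ ≤ 1 := by
      intro j ε hε
      have hcont : ∀ k, Continuous (fun t => ε k * (ramp N (k+j) t - ramp N (k+j+1) t)) := fun k =>
        continuous_const.mul ((continuous_ramp _ _).sub (continuous_ramp _ _))
      have : ∑ k ∈ range N, ε k • (r (k+j) - r (k+j+1)) =
          cfc (∑ k ∈ range N, fun t => ε k * (ramp N (k+j) t - ramp N (k+j+1) t)) c := by
        rw [cfc_sum _ c (range N) (fun k _ => (hcont k).continuousOn)]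
        refine Finset.sum_congr rfl fun k _ => ?_
        simp only [hr]
        rw [cfc_const_mul (ε k) (fun t => ramp N (k+j) t - ramp N (k+j+1) t) c
          ((continuous_ramp _ _).sub (continuous_ramp _ _)).continuousOn,
          cfc_sub (ramp N (k+j)) (ramp N (k+j+1)) c (continuous_ramp _ _).continuousOn
          (continuous_ramp _ _).continuousOn]
      rw [this]
      refine norm_cfc_le zero_le_one fun t _ => ?_
      rw [Finset.sum_apply, Real.norm_eq_abs]
      exact abs_sum_signs_le N N t j ε hε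
    have hb : ∀ (j j' : ℕ), ‖∑ k ∈ range N, φ (r (k+j) - r (k+j+1)) (r (k+j') - r (k+j'+1))‖ ≤ C := by
      intro j j'
      obtain ⟨ε, hε, hle⟩ := exists_signs φ (fun k => r (k+j) - r (k+j+1))
        (fun k => r (k+j') - r (k+j'+1)) N 0 0
      simp only [map_zero, add_zero, zero_add] at hle
      refine hle.trans ((hC _ _).trans ?_)
      have h1 := hnorm j ε hε
      have h2 := hnorm j' ε hε
      calc C * ‖∑ k ∈ range N, ε k • (r (k+j) - r (k+j+1))‖ *
            ‖∑ k ∈ range N, ε k • (r (k+j') - r (k+j'+1))‖ ≤ C * 1 * 1 := by gcongr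
        _ = C := by ring
    have hfin : ‖(N:ℝ) • (φ c 1 - φ 1 c)‖ ≤ 2 * C := by
      rw [hN2]
      refine (norm_sub_le _ _).trans ?_
      have h1 := hb 1 0
      have h2 := hb 0 1
      simp only [add_zero] at h1 h2
      have h3 : ∀ k : ℕ, k + 1 + 1 = k + 2 := fun k => by ring
      simp only [h3] at h1 h2
      linarith
    rw [norm_smul, Real.norm_of_nonneg (by positivity)] at hfin
    rw [le_div_iff₀ (by positivity)]
    linarith
  -- conclusion
  rw [← sub_eq_zero, ← norm_le_zero_iff]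
  refine le_of_forall_pos_le_add fun δ hδ => ?_
  obtain ⟨N, hN⟩ := exists_nat_gt (2 * C / δ)
  have hNpos : 0 < N := by
    have : (0:ℝ) ≤ 2 * C / δ := by positivity
    exact_mod_cast this.trans_lt hN
  refine (key N hNpos).trans ?_
  rw [zero_add, div_le_iff₀ (by positivity)]
  rw [div_lt_iff₀ hδ] at hN
  linarith

/-- The zero product property for self-adjoint elements. -/
lemma apply_self_one_sa (φ : U →ₗ[ℝ] U →ₗ[ℝ] F) (C : ℝ) (hC : ∀ x y, ‖φ x y‖ ≤ C * ‖x‖ * ‖y‖)
    (hφ : ∀ x y, x * y = 0 → φ x y = 0) (c : U) (hc : IsSelfAdjoint c) : φ c 1 = φ 1 c := by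
  by_cases htriv : Subsingleton U
  · have : c = 1 := Subsingleton.elim _ _
    rw [this]
  have hnt : Nontrivial U := not_subsingleton_iff_nontrivial.mp htriv
  set M : ℝ := ‖c‖ + 1 with hM
  have hMpos : 0 < M := by positivity
  set c' : U := cfc (fun t : ℝ => (2 * M)⁻¹ * (t + M)) c with hc'
  have hc'eq : c' = (2 * M)⁻¹ • (c + M • 1) := by
    rw [hc', cfc_const_mul (2 * M)⁻¹ (fun t => t + M) c (by fun_prop),
      cfc_add_const M (fun t => t) c, cfc_id' ℝ c, Algebra.algebraMap_eq_smul_one]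
  have hsa : IsSelfAdjoint c' := cfc_predicate _ _
  have hsp : ∀ t ∈ spectrum ℝ c', 0 ≤ t ∧ t ≤ 1 := by
    intro t ht
    rw [hc', cfc_map_spectrum (fun t : ℝ => (2 * M)⁻¹ * (t + M)) c hc (by fun_prop)] at ht
    obtain ⟨s, hs, rfl⟩ := ht
    have hs' : |s| ≤ ‖c‖ := by
      have := spectrum.norm_le_norm_of_mem hs
      simpa using this
    rw [abs_le] at hs'
    constructor
    · have : 0 ≤ s + M := by rw [hM]; linarith [hs'.1]
      positivity
    · simp only
      rw [inv_mul_le_iff₀ (by positivity)]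
      rw [hM]; linarith [hs'.2]
  have h := apply_self_one_aux φ C hC hφ c' hsa hsp
  rw [hc'eq] at h
  simp only [map_smul, map_add, LinearMap.smul_apply, LinearMap.add_apply] at h
  have h2 := smul_right_injective F (by positivity : (2 * M)⁻¹ ≠ 0) h
  simpa using h2

end Unital

section UnitalC

variable {U : Type*} [CStarAlgebra U] {F : Type*} [NormedAddCommGroup F] [NormedSpace ℂ F]

/-- The zero product property of a unital C*-algebra. -/
lemma apply_self_one (φ : U →ₗ[ℂ] U →ₗ[ℂ] F) (C : ℝ) (hC : ∀ x y, ‖φ x y‖ ≤ C * ‖x‖ * ‖y‖)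
    (hφ : ∀ x y, x * y = 0 → φ x y = 0) (c : U) : φ c 1 = φ 1 c := by
  let _ : NormedSpace ℝ F := NormedSpace.restrictScalars ℝ ℂ F
  let φr : U →ₗ[ℝ] U →ₗ[ℝ] F := LinearMap.mk₂ ℝ (fun x y => φ x y)
    (fun x y z => by simp) (fun r x y => by
      have : (r • x : U) = (r : ℂ) • x := by simp
      rw [this, map_smul, LinearMap.smul_apply]; rfl)
    (fun x y z => by simp) (fun r x y => by
      have : (r • y : U) = (r : ℂ) • y := by simp
      rw [this, map_smul]; rfl)
  have hsa : ∀ c : U, IsSelfAdjoint c → φ c 1 = φ 1 c := fun c hc =>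
    apply_self_one_sa φr C hC hφ c hc
  have h1 := hsa (realPart c : U) (realPart c).2
  have h2 := hsa (imaginaryPart c : U) (imaginaryPart c).2
  conv_lhs => rw [← realPart_add_I_smul_imaginaryPart c]
  conv_rhs => rw [← realPart_add_I_smul_imaginaryPart c]
  simp only [map_add, map_smul, LinearMap.add_apply, LinearMap.smul_apply, h1, h2]

end UnitalC

section NonUnital

variable {A : Type*} [NonUnitalCStarAlgebra A] {F : Type*} [NormedAddCommGroup F] [NormedSpace ℂ F]

/-- The zero product property of a C*-algebra: if `β` is a bounded bilinear map with `β b c = 0`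
whenever `b * c = 0`, then `β (b * c) c' = β b (c * c')`. -/
theorem zero_product (β : A →ₗ[ℂ] A →ₗ[ℂ] F) (C : ℝ) (hC : ∀ x y, ‖β x y‖ ≤ C * ‖x‖ * ‖y‖)
    (hβ : ∀ x y, x * y = 0 → β x y = 0) (b c c' : A) : β (b * c) c' = β b (c * c') := by
  have hsnd : ∀ z : Unitization ℂ A, z.fst = 0 → ‖z.snd‖ = ‖z‖ := by
    intro z hz
    have : z = (z.snd : Unitization ℂ A) := by ext <;> simp [hz]
    conv_rhs => rw [this]
    rw [Unitization.norm_inr]
  let φ : Unitization ℂ A →ₗ[ℂ] Unitization ℂ A →ₗ[ℂ] F := LinearMap.mk₂ ℂ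
    (fun x y => β (((b : Unitization ℂ A) * x).snd) ((y * (c' : Unitization ℂ A)).snd))
    (fun x x' y => by
      rw [mul_add, Unitization.snd_add, map_add, LinearMap.add_apply])
    (fun r x y => by
      rw [mul_smul_comm, Unitization.snd_smul, map_smul, LinearMap.smul_apply])
    (fun x y y' => by
      rw [add_mul, Unitization.snd_add, map_add])
    (fun r x y => by
      rw [smul_mul_assoc, Unitization.snd_smul, map_smul])
  have hφdef : ∀ x y, φ x y = β (((b : Unitization ℂ A) * x).snd) ((y * (c' : Unitization ℂ A)).snd) :=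
    fun x y => rfl
  have hC0 : 0 ≤ C ∨ ∀ x y, β x y = 0 := by
    by_cases h : 0 ≤ C
    · exact Or.inl h
    · right
      intro x y
      have := hC x y
      have h2 : C * ‖x‖ * ‖y‖ ≤ 0 := by
        have : C ≤ 0 := le_of_not_ge h
        have h3 : 0 ≤ ‖x‖ * ‖y‖ := by positivity
        nlinarith
      exact norm_le_zero_iff.mp (this.trans h2)
  rcases hC0 with hC0 | hzero
  swap
  · rw [hzero, hzero]
  have hbound : ∀ x y, ‖φ x y‖ ≤ (C * ‖b‖ * ‖c'‖) * ‖x‖ * ‖y‖ := by
    intro x y
    rw [hφdef]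
    refine (hC _ _).trans ?_
    have h1 : ‖((b : Unitization ℂ A) * x).snd‖ ≤ ‖b‖ * ‖x‖ := by
      rw [hsnd _ (by simp)]
      refine (norm_mul_le _ _).trans ?_
      rw [Unitization.norm_inr]
    have h2 : ‖(y * (c' : Unitization ℂ A)).snd‖ ≤ ‖y‖ * ‖c'‖ := by
      rw [hsnd _ (by simp)]
      refine (norm_mul_le _ _).trans ?_
      rw [Unitization.norm_inr]
    calc C * ‖((b : Unitization ℂ A) * x).snd‖ * ‖(y * (c' : Unitization ℂ A)).snd‖
        ≤ C * (‖b‖ * ‖x‖) * (‖y‖ * ‖c'‖) := by gcongr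
      _ = (C * ‖b‖ * ‖c'‖) * ‖x‖ * ‖y‖ := by ring
  have hzero : ∀ x y, x * y = 0 → φ x y = 0 := by
    intro x y hxy
    rw [hφdef]
    apply hβ
    have h1 : (((((b : Unitization ℂ A) * x).snd * (y * (c' : Unitization ℂ A)).snd : A)) : Unitization ℂ A)
        = ((b : Unitization ℂ A) * x) * (y * (c' : Unitization ℂ A)) := by
      have e1 : ((b : Unitization ℂ A) * x) = (((b : Unitization ℂ A) * x).snd : Unitization ℂ A) := by
        ext <;> simp
      have e2 : (y * (c' : Unitization ℂ A)) = ((y * (c' : Unitization ℂ A)).snd : Unitization ℂ A) := by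
        ext <;> simp
      rw [Unitization.inr_mul, ← e1, ← e2]
    have h2 : ((b : Unitization ℂ A) * x) * (y * (c' : Unitization ℂ A)) = 0 := by
      rw [mul_assoc, ← mul_assoc x, hxy, zero_mul, mul_zero]
    rw [h2] at h1
    exact Unitization.inr_injective (h1.trans (Unitization.inr_zero ℂ).symm)
  have hmain := apply_self_one φ _ hbound hzero (c : Unitization ℂ A)
  rw [hφdef, hφdef, one_mul, mul_one, ← Unitization.inr_mul, ← Unitization.inr_mul,
    Unitization.snd_inr, Unitization.snd_inr, Unitization.snd_inr, Unitization.snd_inr] at hmain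
  exact hmain

end NonUnital

end Pool.Agent.helper27.PropB
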