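import Pool.Agent.helper27.TA.Words
import Pool.Agent.helper27.TA.PropB

/-!
# Algebraic consequences of locality
-/

set_option autoImplicit false
set_option linter.unusedSimpArgs false
set_option linter.unusedSectionVars false

open scoped InnerProductSpace Topology
open Filter

namespace Pool.Agent.helper27.TA

universe u

variable {A X : Type u} [NonUnitalCStarAlgebra A] [NormedAddCommGroup X] [NormedSpace ℂ X]
  [CompleteSpace X] {E : Correspondence A X} {B : Type u} [NonUnitalCStarAlgebra B]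

namespace ToeplitzRep

noncomputable instance instNormedSpaceTensorAlgebra (ρ : ToeplitzRep E B) :
    NormedSpace ℂ ρ.tensorAlgebra where
  norm_smul_le c x := norm_smul_le c (x : B)

variable {ρ : ToeplitzRep E B}

/-- the coefficient `π(a)` as an element of the tensor algebra -/
def pi' (ρ : ToeplitzRep E B) (a : A) : ρ.tensorAlgebra := ⟨ρ.π a, pi_mem a⟩

/-- the generator `t(x)` as an element of the tensor algebra -/
def t' (ρ : ToeplitzRep E B) (x : X) : ρ.tensorAlgebra := ⟨ρ.t x, t_mem x⟩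

@[simp] lemma coe_pi' (a : A) : ((ρ.pi' a : ρ.tensorAlgebra) : B) = ρ.π a := rfl
@[simp] lemma coe_t' (x : X) : ((ρ.t' x : ρ.tensorAlgebra) : B) = ρ.t x := rfl

lemma isClosed_tensorAlgebra (ρ : ToeplitzRep E B) : IsClosed (ρ.tensorAlgebra : Set B) :=
  NonUnitalSubalgebra.isClosed_topologicalClosure _

/-- a general closedness lemma, filter version -/
lemma isClosed_tendsto' {V W ι : Type*} [SeminormedAddCommGroup V] [SeminormedAddCommGroup W]
    {l : Filter ι} (F : ι → V → W) (F₀ : V → W) (C : ℝ)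
    (h : ∀ᶠ n in l, ∀ x y, ‖F n x - F n y‖ ≤ C * ‖x - y‖)
    (h₀ : ∀ x y, ‖F₀ x - F₀ y‖ ≤ C * ‖x - y‖) :
    IsClosed {y | Tendsto (fun n => F n y) l (𝓝 (F₀ y))} := by
  rw [← closure_subset_iff_isClosed]
  intro y hy
  rw [Set.mem_ofPred_eq, Metric.tendsto_nhds]
  intro ε hε
  have hC : 0 ≤ |C| := abs_nonneg C
  obtain ⟨z, hz, hyz⟩ := Metric.mem_closure_iff.mp hy (ε / (3 * (|C| + 1))) (by positivity)
  rw [Set.mem_ofPred_eq, Metric.tendsto_nhds] at hz
  have hN := hz (ε / 3) (by positivity)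
  filter_upwards [h, hN] with n h1 h3
  have hb : C * ‖y - z‖ ≤ ε / 3 := by
    rw [dist_eq_norm] at hyz
    calc C * ‖y - z‖ ≤ (|C| + 1) * ‖y - z‖ := by
          gcongr
          have := le_abs_self C
          linarith
      _ ≤ (|C| + 1) * (ε / (3 * (|C| + 1))) := by gcongr
      _ = ε / 3 := by field_simp
  have h1' := h1 y z
  have h2 := h₀ z y
  rw [norm_sub_rev z y] at h2
  rw [dist_eq_norm] at h3 ⊢
  calc ‖F n y - F₀ y‖ = ‖(F n y - F n z) + (F n z - F₀ z) + (F₀ z - F₀ y)‖ := by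
        congr 1; abel
    _ ≤ ‖F n y - F n z‖ + ‖F n z - F₀ z‖ + ‖F₀ z - F₀ y‖ := norm_add₃_le
    _ < ε := by linarith

/-- `l` is an approximate unit of contractions of `A` -/
structure IsAU (l : Filter A) : Prop where
  neBot : l.NeBot
  left : ∀ m : A, Tendsto (fun x => m * x) l (𝓝 m)
  right : ∀ m : A, Tendsto (fun x => x * m) l (𝓝 m)
  norm : ∀ᶠ x in l, ‖x‖ ≤ 1

lemma exists_isAU (A : Type u) [NonUnitalCStarAlgebra A] : ∃ l : Filter A, IsAU l := by
  let _ : PartialOrder A := CStarAlgebra.spectralOrder _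
  have _ : StarOrderedRing A := CStarAlgebra.spectralOrderedRing _
  have h := CStarAlgebra.increasingApproximateUnit A
  exact ⟨_, h.neBot, h.tendsto_mul_left, h.tendsto_mul_right, h.eventually_norm⟩

lemma IsAU.tendsto_ract {l : Filter A} (hl : IsAU l) (x : X) :
    Tendsto (fun u => E.ract x u) l (𝓝 x) := by
  rw [tendsto_iff_norm_sub_tendsto_zero]
  have h1 : ∀ᶠ u in l, ‖E.ract x u - x‖ ≤ Real.sqrt (2 * ‖E.ip x x * u - E.ip x x‖) := by
    filter_upwards [hl.norm] with u hu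
    apply Real.le_sqrt_of_sq_le
    rw [E.norm_sq]
    have e : E.ip (E.ract x u - x) (E.ract x u - x) =
        star u * (E.ip x x * u - E.ip x x) - (E.ip x x * u - E.ip x x) := by
      rw [E.ip_sub, E.sub_ip, E.sub_ip, E.ip_ract, E.ip_ract, E.ract_ip, mul_sub, mul_assoc]
      abel
    rw [e]
    refine (norm_sub_le _ _).trans ?_
    have h2 : ‖star u * (E.ip x x * u - E.ip x x)‖ ≤ ‖E.ip x x * u - E.ip x x‖ := by
      refine (norm_mul_le _ _).trans ?_
      rw [norm_star]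
      exact mul_le_of_le_one_left (norm_nonneg _) hu
    linarith
  refine squeeze_zero' (Eventually.of_forall fun _ => norm_nonneg _) h1 ?_
  have h2 := tendsto_iff_norm_sub_tendsto_zero.mp (hl.left (E.ip x x))
  have h3 := (h2.const_mul 2).sqrt
  simpa using h3

lemma IsAU.tendsto_mul_pi {l : Filter A} (hl : IsAU l) :
    ∀ y ∈ ρ.tensorAlgebra, Tendsto (fun u => y * ρ.π u) l (𝓝 y) := by
  apply tensorAlgebra_induction
  · refine isClosed_tendsto' (fun u y => y * ρ.π u) (fun y => y) 1 ?_ (fun x y => by rw [one_mul])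
    filter_upwards [hl.norm] with u hu x y
    rw [← sub_mul]
    refine (norm_mul_le _ _).trans ?_
    rw [mul_comm]
    gcongr
    exact (NonUnitalStarAlgHom.norm_apply_le _ _).trans hu
  · simp only [zero_mul]
    exact tendsto_const_nhds
  · intro x y hx hy
    simp only [add_mul]
    exact hx.add hy
  · intro c x hx
    simp only [smul_mul_assoc]
    exact hx.const_smul c
  · intro n w hw
    induction hw with
    | pi a =>
      simp only [← map_mul]
      exact ((continuous_hom ρ.π).tendsto a).comp (hl.left a)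
    | t x =>
      simp only [ρ.t_mul_pi]
      have h := hl.tendsto_ract (E := E) x
      rw [tendsto_iff_norm_sub_tendsto_zero] at h ⊢
      refine squeeze_zero (fun _ => norm_nonneg _) (fun u => ?_) h
      rw [← map_sub]
      exact ρ.norm_t_le _
    | step x h ih =>
      simp only [mul_assoc]
      exact tendsto_const_nhds.mul ih

lemma IsAU.tendsto_mul_pi' {l : Filter A} (hl : IsAU l) (y : ρ.tensorAlgebra) :
    Tendsto (fun u => y * ρ.pi' u) l (𝓝 y) := by
  rw [tendsto_subtype_rng]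
  exact hl.tendsto_mul_pi (y : B) y.2

/-- an element of the tensor algebra killed by `A` on the right is zero -/
lemma eq_of_mul_pi {y z : ρ.tensorAlgebra} (h : ∀ a, y * ρ.pi' a = z * ρ.pi' a) : y = z := by
  obtain ⟨l, hl⟩ := exists_isAU A
  have := hl.neBot
  have h1 := hl.tendsto_mul_pi' y
  have h2 := hl.tendsto_mul_pi' z
  simp only [h] at h1
  exact tendsto_nhds_unique h1 h2

section Loc

variable {S : ρ.tensorAlgebra →L[ℂ] ρ.tensorAlgebra}

lemma loc_mul_eq_zero (hS : IsApproxLocalLeftMultiplier S) {a : ρ.tensorAlgebra} {y : B}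
    (h : (a : B) * y = 0) : ((S a : ρ.tensorAlgebra) : B) * y = 0 := by
  obtain ⟨x, hx⟩ := hS a
  have h1 : Tendsto (fun n => ((x n * a : ρ.tensorAlgebra) : B) * y) atTop
      (𝓝 (((S a : ρ.tensorAlgebra) : B) * y)) :=
    ((continuous_subtype_val.tendsto _).comp hx).mul_const y
  have h2 : ∀ n, ((x n * a : ρ.tensorAlgebra) : B) * y = 0 := fun n => by
    rw [NonUnitalSubalgebra.coe_mul, mul_assoc, h, mul_zero]
  simp only [h2] at h1
  exact tendsto_nhds_unique h1 tendsto_const_nhds |>.symm ▸ rfl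

/-- Step (A): `S` is right `A`-linear. -/
lemma map_mul_pi (hS : IsApproxLocalLeftMultiplier S) (x : ρ.tensorAlgebra) (c : A) :
    S (x * ρ.pi' c) = S x * ρ.pi' c := by
  -- the bilinear map
  let β : A →ₗ[ℂ] A →ₗ[ℂ] B := LinearMap.mk₂ ℂ
    (fun b c => ((S (x * ρ.pi' b) : ρ.tensorAlgebra) : B) * ρ.π c)
    (fun b b' c => by
      have : x * ρ.pi' (b + b') = x * ρ.pi' b + x * ρ.pi' b' := by
        apply Subtype.ext; simp [mul_add]
      rw [this, map_add, NonUnitalSubalgebra.coe_add, add_mul])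
    (fun r b c => by
      have : x * ρ.pi' (r • b) = r • (x * ρ.pi' b) := by
        apply Subtype.ext; simp [mul_smul_comm]
      rw [this, map_smul, NonUnitalSubalgebra.coe_smul, smul_mul_assoc])
    (fun b c c' => by rw [map_add, mul_add])
    (fun r b c => by rw [map_smul, mul_smul_comm])
  have hβ : ∀ b c, β b c = ((S (x * ρ.pi' b) : ρ.tensorAlgebra) : B) * ρ.π c := fun _ _ => rfl
  have hbound : ∀ b c, ‖β b c‖ ≤ (‖S‖ * ‖x‖) * ‖b‖ * ‖c‖ := by
    intro b c
    rw [hβ]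
    refine (norm_mul_le _ _).trans ?_
    have h1 : ‖((S (x * ρ.pi' b) : ρ.tensorAlgebra) : B)‖ ≤ ‖S‖ * (‖x‖ * ‖b‖) := by
      refine (S.le_opNorm _).trans ?_
      gcongr
      refine (norm_mul_le _ _).trans ?_
      gcongr
      exact NonUnitalStarAlgHom.norm_apply_le ρ.π b
    have h2 : ‖ρ.π c‖ ≤ ‖c‖ := NonUnitalStarAlgHom.norm_apply_le ρ.π c
    calc _ ≤ (‖S‖ * (‖x‖ * ‖b‖)) * ‖c‖ := by gcongr
      _ = _ := by ring
  have hzero : ∀ b c, b * c = 0 → β b c = 0 := by
    intro b c hbc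
    rw [hβ]
    apply loc_mul_eq_zero hS
    rw [NonUnitalSubalgebra.coe_mul, coe_pi', mul_assoc, ← map_mul, hbc, map_zero, mul_zero]
  have key := fun b c c' => PropB.zero_product β _ hbound hzero b c c'
  have step1 : ∀ b c, S (x * ρ.pi' (b * c)) = S (x * ρ.pi' b) * ρ.pi' c := by
    intro b c
    apply eq_of_mul_pi
    intro c'
    apply Subtype.ext
    have h := key b c c'
    rw [hβ, hβ, map_mul ρ.π c c'] at h
    rw [NonUnitalSubalgebra.coe_mul, NonUnitalSubalgebra.coe_mul, NonUnitalSubalgebra.coe_mul,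
      coe_pi', coe_pi', mul_assoc]
    exact h
  obtain ⟨l, hl⟩ := exists_isAU A
  have := hl.neBot
  have h1 : Tendsto (fun u => S (x * ρ.pi' (u * c))) l (𝓝 (S (x * ρ.pi' c))) := by
    refine (S.continuous.tendsto _).comp ?_
    rw [tendsto_subtype_rng]
    simp only [NonUnitalSubalgebra.coe_mul, coe_pi']
    exact (((continuous_hom ρ.π).tendsto c).comp (hl.right c)).const_mul (x : B)
  have h2 : Tendsto (fun u => S (x * ρ.pi' u) * ρ.pi' c) l (𝓝 (S x * ρ.pi' c)) :=
    ((S.continuous.tendsto _).comp (hl.tendsto_mul_pi' x)).mul_const _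
  simp only [step1] at h1
  exact tendsto_nhds_unique h1 h2

/-- the defect `c_a(η) = S(a t(η)) - S(a) t(η)` -/
def defect (S : ρ.tensorAlgebra →L[ℂ] ρ.tensorAlgebra) (a : ρ.tensorAlgebra) (η : X) :
    ρ.tensorAlgebra :=
  S (a * ρ.t' η) - S a * ρ.t' η

lemma t'_add (x y : X) : ρ.t' (x + y) = ρ.t' x + ρ.t' y := by apply Subtype.ext; simp
lemma t'_smul (c : ℂ) (x : X) : ρ.t' (c • x) = c • ρ.t' x := by apply Subtype.ext; simp
lemma pi'_mul_t' (a : A) (x : X) : ρ.pi' a * ρ.t' x = ρ.t' (E.phi a x) := by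
  apply Subtype.ext; simp [ρ.pi_mul_t]
lemma t'_mul_pi' (x : X) (a : A) : ρ.t' x * ρ.pi' a = ρ.t' (E.ract x a) := by
  apply Subtype.ext; simp [ρ.t_mul_pi]
lemma pi'_mul (a b : A) : ρ.pi' (a * b) = ρ.pi' a * ρ.pi' b := by apply Subtype.ext; simp

lemma defect_add (a : ρ.tensorAlgebra) (x y : X) :
    defect S a (x + y) = defect S a x + defect S a y := by
  unfold defect
  rw [t'_add, mul_add, mul_add, map_add]
  abel

lemma defect_smul (a : ρ.tensorAlgebra) (c : ℂ) (x : X) :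
    defect S a (c • x) = c • defect S a x := by
  unfold defect
  rw [t'_smul, mul_smul_comm, mul_smul_comm, map_smul, smul_sub]

lemma norm_defect_le (a : ρ.tensorAlgebra) (x : X) :
    ‖defect S a x‖ ≤ 2 * ‖S‖ * ‖a‖ * ‖x‖ := by
  unfold defect
  have ht : ‖(ρ.t' x : ρ.tensorAlgebra)‖ ≤ ‖x‖ := ρ.norm_t_le x
  refine (norm_sub_le _ _).trans ?_
  have h1 : ‖S (a * ρ.t' x)‖ ≤ ‖S‖ * (‖a‖ * ‖x‖) := by
    refine (S.le_opNorm _).trans ?_
    gcongr
    exact (norm_mul_le _ _).trans (by gcongr)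
  have h2 : ‖S a * ρ.t' x‖ ≤ (‖S‖ * ‖a‖) * ‖x‖ := by
    refine (norm_mul_le _ _).trans ?_
    gcongr
    exact S.le_opNorm _
  calc _ ≤ ‖S‖ * (‖a‖ * ‖x‖) + (‖S‖ * ‖a‖) * ‖x‖ := add_le_add h1 h2
    _ = _ := by ring

lemma defect_ract (hS : IsApproxLocalLeftMultiplier S) (a : ρ.tensorAlgebra) (x : X) (b : A) :
    defect S a (E.ract x b) = defect S a x * ρ.pi' b := by
  unfold defect
  rw [← t'_mul_pi', ← mul_assoc, map_mul_pi hS, ← mul_assoc, sub_mul]

/-- Step (B): if `π(b) y = 0` then the defect `c_a(b η)` kills `y`. -/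
lemma defect_phi_mul_eq_zero (hS : IsApproxLocalLeftMultiplier S) (a : ρ.tensorAlgebra) (η : X)
    {b : A} {y : B} (hby : ρ.π b * y = 0) :
    ((defect S a (E.phi b η) : ρ.tensorAlgebra) : B) * y = 0 := by
  let L : B →L[ℂ] B := ContinuousLinearMap.mul ℂ B (ρ.t η)
  have hL : ∀ w, L w = ρ.t η * w := fun w => rfl
  -- the resolvent
  have hcont : ContinuousAt (fun z : ℂ => Ring.inverse (1 + z • L)) 0 := by
    have h1 : ContinuousAt (Ring.inverse : (B →L[ℂ] B) → (B →L[ℂ] B)) ((1 : (B →L[ℂ] B)ˣ) : B →L[ℂ] B) :=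
      NormedRing.inverse_continuousAt 1
    have h2 : ContinuousAt (fun z : ℂ => 1 + z • L) 0 := by fun_prop
    have h3 : (1 : B →L[ℂ] B) + (0 : ℂ) • L = ((1 : (B →L[ℂ] B)ˣ) : B →L[ℂ] B) := by simp
    have h4 : ContinuousAt (Ring.inverse : (B →L[ℂ] B) → (B →L[ℂ] B)) (1 + (0 : ℂ) • L) := by
      rw [h3]; exact h1
    exact ContinuousAt.comp (f := fun z : ℂ => 1 + z • L) h4 h2
  have hunit : ∀ᶠ z : ℂ in 𝓝 0, IsUnit (1 + z • L) := by
    have h2 : ContinuousAt (fun z : ℂ => 1 + z • L) 0 := by fun_prop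
    have h3 : (1 : B →L[ℂ] B) + (0 : ℂ) • L = 1 := by simp
    have h4 : {T : B →L[ℂ] B | IsUnit T} ∈ 𝓝 (1 + (0 : ℂ) • L) := by
      rw [h3]; exact Units.isOpen.mem_nhds isUnit_one
    exact h2 h4
  -- locality gives the vanishing for small nonzero z
  have hz : ∀ᶠ z : ℂ in 𝓝[≠] 0,
      ((defect S a (E.phi b η) : ρ.tensorAlgebra) : B) * (Ring.inverse (1 + z • L) y) = 0 := by
    filter_upwards [self_mem_nhdsWithin, nhdsWithin_le_nhds hunit] with z hz0 hzu
    set yz := Ring.inverse (1 + z • L) y with hyz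
    have e1 : yz + z • (ρ.t η * yz) = y := by
      have h1 := Ring.mul_inverse_cancel _ hzu
      have h2 := congrArg (fun T : B →L[ℂ] B => T y) h1
      simpa [hL] using h2
    have e2 : ρ.π b * yz + z • (ρ.π b * ρ.t η * yz) = 0 := by
      have h1 := congrArg (fun w => ρ.π b * w) e1
      rw [mul_add, mul_smul_comm, hby, ← mul_assoc] at h1
      exact h1
    have e3 : ((a * ρ.pi' b + z • (a * ρ.t' (E.phi b η)) : ρ.tensorAlgebra) : B) * yz = 0 := by
      have h1 : ((a * ρ.pi' b + z • (a * ρ.t' (E.phi b η)) : ρ.tensorAlgebra) : B) =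
          (a : B) * ρ.π b + z • ((a : B) * ρ.t (E.phi b η)) := by simp
      rw [h1, ← ρ.pi_mul_t, add_mul, smul_mul_assoc]
      have h2 : (a : B) * ρ.π b * yz + z • ((a : B) * (ρ.π b * ρ.t η) * yz) =
          (a : B) * (ρ.π b * yz + z • (ρ.π b * ρ.t η * yz)) := by
        rw [mul_add, mul_smul_comm]; simp only [mul_assoc]
      rw [h2, e2, mul_zero]
    have e4 := loc_mul_eq_zero hS e3
    rw [map_add, map_smul, map_mul_pi hS] at e4
    have e5 : ((S a * ρ.pi' b + z • S (a * ρ.t' (E.phi b η)) : ρ.tensorAlgebra) : B) * yz =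
        ((S a : ρ.tensorAlgebra) : B) * (ρ.π b * yz + z • (ρ.π b * ρ.t η * yz)) +
          z • (((defect S a (E.phi b η) : ρ.tensorAlgebra) : B) * yz) := by
      unfold defect
      have h1 : ((S a * ρ.pi' b + z • S (a * ρ.t' (E.phi b η)) : ρ.tensorAlgebra) : B) =
          ((S a : ρ.tensorAlgebra) : B) * ρ.π b +
            z • ((S (a * ρ.t' (E.phi b η)) : ρ.tensorAlgebra) : B) := by simp
      have h2 : ((S (a * ρ.t' (E.phi b η)) - S a * ρ.t' (E.phi b η) : ρ.tensorAlgebra) : B) =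
          ((S (a * ρ.t' (E.phi b η)) : ρ.tensorAlgebra) : B) -
            ((S a : ρ.tensorAlgebra) : B) * ρ.t (E.phi b η) := by simp
      rw [h1, h2, ← ρ.pi_mul_t, sub_mul, add_mul, mul_add, smul_mul_assoc, mul_smul_comm, smul_sub]
      simp only [mul_assoc]
      abel
    rw [e5, e2, mul_zero, zero_add] at e4
    exact (smul_eq_zero.mp e4).resolve_left hz0
  have hlim : Tendsto (fun z : ℂ => ((defect S a (E.phi b η) : ρ.tensorAlgebra) : B) *
      (Ring.inverse (1 + z • L) y)) (𝓝[≠] 0)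
      (𝓝 (((defect S a (E.phi b η) : ρ.tensorAlgebra) : B) * y)) := by
    have h1 : Tendsto (fun z : ℂ => Ring.inverse (1 + z • L)) (𝓝[≠] 0) (𝓝 1) := by
      have := hcont.tendsto
      simp only [zero_smul, add_zero, Ring.inverse_one] at this
      exact this.mono_left nhdsWithin_le_nhds
    have h2 : Tendsto (fun z : ℂ => (Ring.inverse (1 + z • L)) y) (𝓝[≠] 0) (𝓝 ((1 : B →L[ℂ] B) y)) :=
      ((ContinuousLinearMap.apply ℂ B y).continuous.tendsto _).comp h1
    rw [one_apply_eq_self] at h2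
    exact h2.const_mul _
  have h0 : Tendsto (fun z : ℂ => ((defect S a (E.phi b η) : ρ.tensorAlgebra) : B) *
      (Ring.inverse (1 + z • L) y)) (𝓝[≠] 0) (𝓝 0) :=
    tendsto_const_nhds.congr' (hz.mono fun z hz => hz.symm)
  exact tendsto_nhds_unique hlim h0

/-- `c_a(b c η) = c_a(b η) c` -/
lemma defect_phi_mul (hS : IsApproxLocalLeftMultiplier S) (a : ρ.tensorAlgebra) (η : X) (b c : A) :
    defect S a (E.phi (b * c) η) = defect S a (E.phi b η) * ρ.pi' c := by
  let β : A →ₗ[ℂ] A →ₗ[ℂ] B := LinearMap.mk₂ ℂ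
    (fun b c => ((defect S a (E.phi b η) : ρ.tensorAlgebra) : B) * ρ.π c)
    (fun b b' c => by
      rw [E.phi_add, defect_add, NonUnitalSubalgebra.coe_add, add_mul])
    (fun r b c => by
      rw [E.phi_smul, defect_smul, NonUnitalSubalgebra.coe_smul, smul_mul_assoc])
    (fun b c c' => by rw [map_add, mul_add])
    (fun r b c => by rw [map_smul, mul_smul_comm])
  have hβ : ∀ b c, β b c = ((defect S a (E.phi b η) : ρ.tensorAlgebra) : B) * ρ.π c := fun _ _ => rfl
  have hbd : ∀ b, ‖defect S a (E.phi b η)‖ ≤ (2 * ‖S‖ * ‖a‖ * ‖η‖) * ‖b‖ := by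
    intro b
    unfold defect
    rw [← pi'_mul_t']
    have hp : ‖(ρ.pi' b * ρ.t' η : ρ.tensorAlgebra)‖ ≤ ‖b‖ * ‖η‖ := by
      refine (norm_mul_le _ _).trans ?_
      gcongr
      · exact NonUnitalStarAlgHom.norm_apply_le ρ.π b
      · exact ρ.norm_t_le η
    refine (norm_sub_le _ _).trans ?_
    have h1 : ‖S (a * (ρ.pi' b * ρ.t' η))‖ ≤ ‖S‖ * (‖a‖ * (‖b‖ * ‖η‖)) := by
      refine (S.le_opNorm _).trans ?_
      gcongr
      exact (norm_mul_le _ _).trans (by gcongr)
    have h2 : ‖S a * (ρ.pi' b * ρ.t' η)‖ ≤ (‖S‖ * ‖a‖) * (‖b‖ * ‖η‖) := by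
      refine (norm_mul_le _ _).trans ?_
      gcongr
      exact S.le_opNorm _
    calc _ ≤ ‖S‖ * (‖a‖ * (‖b‖ * ‖η‖)) + (‖S‖ * ‖a‖) * (‖b‖ * ‖η‖) := add_le_add h1 h2
      _ = _ := by ring
  have hbound : ∀ b c, ‖β b c‖ ≤ (2 * ‖S‖ * ‖a‖ * ‖η‖) * ‖b‖ * ‖c‖ := by
    intro b c
    rw [hβ]
    refine (norm_mul_le _ _).trans ?_
    gcongr
    · exact hbd b
    · exact NonUnitalStarAlgHom.norm_apply_le ρ.π c
  have hzero : ∀ b c, b * c = 0 → β b c = 0 := by
    intro b c hbc
    rw [hβ]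
    apply defect_phi_mul_eq_zero hS
    rw [← map_mul, hbc, map_zero]
  apply eq_of_mul_pi
  intro c'
  apply Subtype.ext
  have h := PropB.zero_product β _ hbound hzero b c c'
  rw [hβ, hβ, map_mul ρ.π c c'] at h
  rw [NonUnitalSubalgebra.coe_mul, NonUnitalSubalgebra.coe_mul, NonUnitalSubalgebra.coe_mul,
    coe_pi', coe_pi', mul_assoc]
  exact h

/-- `c_a(b η) = c_a(η) b` -/
lemma defect_phi (hS : IsApproxLocalLeftMultiplier S) (a : ρ.tensorAlgebra) (η : X) (b : A) :
    defect S a (E.phi b η) = defect S a η * ρ.pi' b := by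
  obtain ⟨l, hl⟩ := exists_isAU A
  have := hl.neBot
  have hau := hl.tendsto_mul_pi' a
  -- general limit
  have hlim : ∀ ζ : X, Tendsto (fun u => defect S a (E.phi u ζ)) l (𝓝 (defect S a ζ)) := by
    intro ζ
    unfold defect
    refine Tendsto.sub ?_ ?_
    · refine (S.continuous.tendsto _).comp ?_
      have h1 : ∀ u, a * ρ.t' (E.phi u ζ) = (a * ρ.pi' u) * ρ.t' ζ := fun u => by
        rw [← pi'_mul_t', mul_assoc]
      simp only [h1]
      exact hau.mul_const _
    · have h1 : ∀ u, S a * ρ.t' (E.phi u ζ) = (S a * ρ.pi' u) * ρ.t' ζ := fun u => by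
        rw [← pi'_mul_t', mul_assoc]
      simp only [h1]
      exact (hl.tendsto_mul_pi' (S a)).mul_const _
  have h1 : Tendsto (fun u => defect S a (E.phi (u * b) η)) l (𝓝 (defect S a (E.phi b η))) := by
    have := hlim (E.phi b η)
    simpa only [← E.phi_mul] using this
  have h2 : Tendsto (fun u => defect S a (E.phi u η) * ρ.pi' b) l (𝓝 (defect S a η * ρ.pi' b)) :=
    (hlim η).mul_const _
  simp only [defect_phi_mul hS] at h1
  exact tendsto_nhds_unique h1 h2

/-- the defect kills commutators -/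
lemma defect_mul_comm (hS : IsApproxLocalLeftMultiplier S) (a : ρ.tensorAlgebra) (η : X)
    (b c : A) : defect S a η * ρ.pi' b * ρ.pi' c = defect S a η * ρ.pi' c * ρ.pi' b := by
  rw [← defect_ract hS a η b, ← defect_phi hS a (E.ract η b) c, E.phi_ract, defect_ract hS,
    defect_phi hS]

end Loc

end ToeplitzRep

end Pool.Agent.helper27.TA
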