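import Pool.Agent.helper27.TA.Char2
import Pool.Agent.helper27.TA.Ext

/-!
# Approximately local left multipliers of tensor algebras are left multipliers
-/

set_option autoImplicit false
set_option linter.unusedSimpArgs false
set_option linter.unusedSectionVars false

open scoped InnerProductSpace Topology
open Filter

namespace Pool.Agent.helper27.TA

universe u

variable {A X : Type u} [NonUnitalCStarAlgebra A] [NormedAddCommGroup X] [NormedSpace ℂ X]
  [CompleteSpace X] {E : Correspondence A X} {B : Type u} [NonUnitalCStarAlgebra B]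

/-- An element `y = y*` of a closed *-algebra `D` with `y b c = y c b` produces a state of the
ambient algebra, whose GNS vector is a common eigenvector for `D`. -/
lemma exists_gns_of_central {U : Type u} [CStarAlgebra U] (D : NonUnitalStarSubalgebra ℂ U)
    {y : U} (hy : y ∈ D) (hysa : star y = y) (hne : y ≠ 0)
    (hcomm : ∀ b ∈ D, ∀ c ∈ D, y * (b * c) = y * (c * b)) :
    ∃ (K : Type u) (_ : NormedAddCommGroup K) (_ : InnerProductSpace ℂ K) (_ : CompleteSpace K)
      (τ : U →⋆ₐ[ℂ] (K →L[ℂ] K)) (h : K) (χ : U → ℂ), ‖h‖ = 1 ∧ (∀ c ∈ D, τ c h = χ c • h) ∧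
        τ y h ≠ 0 := by
  set e : U := y * y with he
  have heD : e ∈ D := mul_mem hy hy
  have hesa : star e = e := by rw [he, star_mul, hysa]
  have hcomm' : ∀ b ∈ D, ∀ c ∈ D, b * c * y = c * b * y := by
    intro b hb c hc
    have h := hcomm (star c) (star_mem hc) (star b) (star_mem hb)
    have h2 := congrArg star h
    simpa [star_mul, hysa] using h2
  have hcen : ∀ b ∈ D, e * b = b * e := by
    intro b hb
    calc e * b = y * (y * b) := by rw [he, mul_assoc]
      _ = y * (b * y) := hcomm y hy b hb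
      _ = y * b * y := by rw [mul_assoc]
      _ = b * y * y := hcomm' y hy b hb
      _ = b * e := by rw [he, mul_assoc]
  have hecomm : ∀ b ∈ D, ∀ c ∈ D, e * (b * c) = e * (c * b) := by
    intro b hb c hc
    rw [he, mul_assoc, mul_assoc, hcomm b hb c hc]
  let s : Set U := {x | ∃ b ∈ D, x = e * b}
  have hs : ∀ x ∈ s, ∀ z ∈ s, x * z = z * x := by
    rintro _ ⟨b, hb, rfl⟩ _ ⟨c, hc, rfl⟩
    calc e * b * (e * c) = e * (b * e) * c := by simp only [mul_assoc]
      _ = e * (e * b) * c := by rw [hcen b hb]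
      _ = e * (e * (b * c)) := by simp only [mul_assoc]
      _ = e * (e * (c * b)) := by rw [hecomm b hb c hc]
      _ = e * (e * c) * b := by simp only [mul_assoc]
      _ = e * (c * e) * b := by rw [hcen c hc]
      _ = e * c * (e * b) := by simp only [mul_assoc]
  have hstar : ∀ x ∈ s, star x ∈ s := by
    rintro _ ⟨b, hb, rfl⟩
    exact ⟨star b, star_mem hb, by rw [star_mul, hesa, hcen _ (star_mem hb)]⟩
  have hs' : ∀ x ∈ s, ∀ z ∈ s, x * star z = star z * x := fun x hx z hz => hs x hx _ (hstar z hz)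
  let C₀ : StarSubalgebra ℂ U := StarAlgebra.adjoin ℂ s
  let C : StarSubalgebra ℂ U := C₀.topologicalClosure
  have hC₀ : ∀ x y : C₀, x * y = y * x := by
    intro x y
    exact (StarAlgebra.isMulCommutative_adjoin ℂ hs hs').is_comm.comm x y
  have hC : ∀ x ∈ C, ∀ z ∈ C, x * z = z * x := by
    intro x hx z hz
    have := (C₀.commRingTopologicalClosure hC₀).mul_comm ⟨x, hx⟩ ⟨z, hz⟩
    exact congrArg Subtype.val this
  have hsC : ∀ x ∈ s, x ∈ C := fun x hx =>
    StarSubalgebra.le_topologicalClosure _ (StarAlgebra.subset_adjoin ℂ s hx)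
  have hclC : IsClosed (C : Set U) := StarSubalgebra.isClosed_topologicalClosure _
  have he0 : e ≠ 0 := by
    intro h
    apply hne
    rw [he] at h
    have : star y * y = 0 := by rw [hysa, h]
    exact (CStarRing.star_mul_self_eq_zero_iff y).mp this
  have hee0 : e * e ≠ 0 := by
    intro h
    apply he0
    have : star e * e = 0 := by rw [hesa, h]
    exact (CStarRing.star_mul_self_eq_zero_iff e).mp this
  let _ : PartialOrder U := CStarAlgebra.spectralOrder _
  have _ : StarOrderedRing U := CStarAlgebra.spectralOrderedRing _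
  obtain ⟨K, i1, i2, i3, τ, h, χ, hh, hτ, hχ⟩ := exists_gns_of_comm C hclC hC
    (hsC _ ⟨e, heD, rfl⟩) hee0
  refine ⟨K, i1, i2, i3, τ, h, fun b => (χ (e * e))⁻¹ * χ (e * (e * b)), hh, ?_, ?_⟩
  · intro b hb
    have h1 : τ b (τ (e * e) h) = τ (e * (e * b)) h := by
      rw [← mul_apply_eq_comp, ← map_mul]
      congr 2
      calc b * (e * e) = b * e * e := (mul_assoc b e e).symm
        _ = e * b * e := by rw [hcen b hb]
        _ = e * (b * e) := mul_assoc e b e
        _ = e * (e * b) := by rw [hcen b hb]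
    rw [hτ _ (hsC _ ⟨e, heD, rfl⟩), hτ _ (hsC _ ⟨e * b, mul_mem heD hb, rfl⟩), map_smul] at h1
    rw [mul_smul, ← h1, smul_smul, inv_mul_cancel₀ hχ, one_smul]
  · intro h0
    have h1 : τ (e * e) h = 0 := by
      have : e * e = y * y * y * y := by rw [he]; simp only [mul_assoc]
      rw [this, map_mul, mul_apply_eq_comp, h0, map_zero]
    rw [hτ _ (hsC _ ⟨e, heD, rfl⟩)] at h1
    rcases smul_eq_zero.mp h1 with h3 | h3
    · exact hχ h3
    · rw [h3, norm_zero] at hh
      exact zero_ne_one hh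

namespace ToeplitzRep

variable {ρ : ToeplitzRep E B} {S : ρ.tensorAlgebra →L[ℂ] ρ.tensorAlgebra}

/-- Step D: the defect vanishes. -/
theorem defect_eq_zero (hρ : ρ.IsUniversal) (hS : IsApproxLocalLeftMultiplier S)
    (a : ρ.tensorAlgebra) (ξ : X) : defect S a ξ = 0 := by
  by_contra hne
  set d : B := ((defect S a ξ : ρ.tensorAlgebra) : B) with hd
  have hdmem : d ∈ ρ.tensorAlgebra := (defect S a ξ).2
  have hd0 : d ≠ 0 := fun h => hne (Subtype.ext h)
  obtain ⟨K₁, i1, i2, i3, Ψ₁, k₁, hk₁⟩ := exists_rep_ne_zero hd0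
  obtain ⟨Φ₁, hΦ₁⟩ := hρ.exists_shLift Ψ₁
  obtain ⟨m, hm⟩ : ∃ m, comp Φ₁ m d k₁ ≠ 0 := by
    by_contra hcon
    push Not at hcon
    exact hk₁ (hΦ₁.eq_zero_of_comp hdmem hcon)
  set D := comp Φ₁ m d with hD
  have hD0 : D ≠ 0 := by
    intro h; rw [h] at hm; exact hm rfl
  -- `D` kills commutators of the coefficient algebra
  have hDcomm : ∀ b ∈ coeff ρ Ψ₁, ∀ c ∈ coeff ρ Ψ₁, D * (b * c) = D * (c * b) := by
    have h1 : ∀ b c : A, D * (Ψ₁ (ρ.π b) * Ψ₁ (ρ.π c)) = D * (Ψ₁ (ρ.π c) * Ψ₁ (ρ.π b)) := by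
      intro b c
      rw [← mul_assoc, ← mul_assoc, hD, ← hΦ₁.comp_mul_pi, ← hΦ₁.comp_mul_pi, ← hΦ₁.comp_mul_pi,
        ← hΦ₁.comp_mul_pi]
      congr 1
      exact congrArg Subtype.val (defect_mul_comm hS a ξ b c)
    intro b hb
    have h2 : ∀ c : A, D * (b * Ψ₁ (ρ.π c)) = D * (Ψ₁ (ρ.π c) * b) := by
      intro c
      refine coeff_induction (ρ := ρ) (Ψ := Ψ₁)
        (p := fun b => D * (b * Ψ₁ (ρ.π c)) = D * (Ψ₁ (ρ.π c) * b)) ?_ (fun b => h1 b c) b hb
      exact isClosed_eq (by fun_prop) (by fun_prop)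
    intro c hc
    refine coeff_induction (ρ := ρ) (Ψ := Ψ₁)
      (p := fun c => D * (b * c) = D * (c * b)) ?_ h2 c hc
    exact isClosed_eq (by fun_prop) (by fun_prop)
  set y := star D * D with hy
  have hymem : y ∈ coeff ρ Ψ₁ := hΦ₁.star_comp_mul_comp m hdmem d hdmem
  have hysa : star y = y := by rw [hy, star_mul, star_star]
  have hy0 : y ≠ 0 := by
    intro h
    exact hD0 ((CStarRing.star_mul_self_eq_zero_iff D).mp h)
  have hycomm : ∀ b ∈ coeff ρ Ψ₁, ∀ c ∈ coeff ρ Ψ₁, y * (b * c) = y * (c * b) := by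
    intro b hb c hc
    rw [hy, mul_assoc, mul_assoc, hDcomm b hb c hc]
  obtain ⟨K', j1, j2, j3, τ, h₀, χ, hh1, hτ, hτy⟩ :=
    exists_gns_of_central (coeff ρ Ψ₁) hymem hysa hy0 hycomm
  let τ' : (K₁ →L[ℂ] K₁) →⋆ₙₐ[ℂ] (K' →L[ℂ] K') := (τ : (K₁ →L[ℂ] K₁) →⋆ₙₐ[ℂ] (K' →L[ℂ] K'))
  have hτ' : ∀ T, τ' T = τ T := fun _ => rfl
  obtain ⟨Φ', hΦ'⟩ := hρ.exists_shLift (τ'.comp Ψ₁)
  have hh : ∀ b, (τ'.comp Ψ₁) (ρ.π b) h₀ = χ (Ψ₁ (ρ.π b)) • h₀ := by
    intro b
    exact hτ _ (coeff_mem b)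
  have h1 := comp_defect_char hρ hS hΦ' (χ := fun b => χ (Ψ₁ (ρ.π b))) hh hh1 a ξ m
  rw [comp_change hΦ₁ τ' hΦ' m d hdmem, ← hD, hτ'] at h1
  apply hτy
  rw [hy, map_mul, mul_apply_eq_comp, h1, map_zero]

/-- **Main theorem.** Every approximately local left multiplier of the tensor algebra of a
C*-correspondence is a left multiplier. -/
theorem isLeftMultiplier_of_approxLocal (hρ : ρ.IsUniversal)
    (hS : IsApproxLocalLeftMultiplier S) : IsLeftMultiplier S := by
  have key : ∀ y ∈ ρ.tensorAlgebra,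
      ∃ hy : y ∈ ρ.tensorAlgebra, ∀ a, S (a * ⟨y, hy⟩) = S a * ⟨y, hy⟩ := by
    apply tensorAlgebra_induction
    · have h1 : {y : B | ∃ hy : y ∈ ρ.tensorAlgebra, ∀ a, S (a * ⟨y, hy⟩) = S a * ⟨y, hy⟩} =
          Subtype.val '' {b : ρ.tensorAlgebra | ∀ a, S (a * b) = S a * b} := by
        ext y
        constructor
        · rintro ⟨hy, h⟩
          exact ⟨⟨y, hy⟩, h, rfl⟩
        · rintro ⟨⟨y, hy⟩, h, rfl⟩
          exact ⟨hy, h⟩
      rw [h1]
      refine (isClosed_tensorAlgebra ρ).isClosedEmbedding_subtypeVal.isClosedMap _ ?_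
      have h2 : {b : ρ.tensorAlgebra | ∀ a, S (a * b) = S a * b} =
          ⋂ a, {b : ρ.tensorAlgebra | S (a * b) = S a * b} := by
        ext b; simp
      rw [h2]
      exact isClosed_iInter fun a => isClosed_eq (by fun_prop) (by fun_prop)
    · refine ⟨zero_mem _, fun a => ?_⟩
      have : (⟨0, zero_mem _⟩ : ρ.tensorAlgebra) = 0 := rfl
      rw [this, mul_zero, mul_zero, map_zero]
    · rintro x y ⟨hx, h1⟩ ⟨hy, h2⟩
      refine ⟨add_mem hx hy, fun a => ?_⟩
      have : (⟨x + y, add_mem hx hy⟩ : ρ.tensorAlgebra) = ⟨x, hx⟩ + ⟨y, hy⟩ := rfl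
      rw [this, mul_add, mul_add, map_add, h1, h2]
    · rintro c x ⟨hx, h1⟩
      refine ⟨SMulMemClass.smul_mem c hx, fun a => ?_⟩
      have : (⟨c • x, SMulMemClass.smul_mem c hx⟩ : ρ.tensorAlgebra) = c • ⟨x, hx⟩ := rfl
      rw [this, mul_smul_comm, mul_smul_comm, map_smul, h1]
    · intro n w hw
      induction hw with
      | pi b => exact ⟨pi_mem b, fun a => map_mul_pi hS a b⟩
      | t x =>
        refine ⟨t_mem x, fun a => ?_⟩
        have := defect_eq_zero hρ hS a x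
        exact sub_eq_zero.mp this
      | @step x n w h ih =>
        obtain ⟨hw, ih⟩ := ih
        refine ⟨(IsWord.step x h).mem, fun a => ?_⟩
        have e1 : (⟨ρ.t x * w, (IsWord.step x h).mem⟩ : ρ.tensorAlgebra) = ρ.t' x * ⟨w, hw⟩ := rfl
        have e2 : S (a * ρ.t' x) = S a * ρ.t' x := sub_eq_zero.mp (defect_eq_zero hρ hS a x)
        rw [e1, ← mul_assoc, ih, e2, mul_assoc]
  intro a b
  obtain ⟨hb, h⟩ := key (b : B) b.2
  exact h a

/-- Every local left multiplier of the tensor algebra of a C*-correspondence is a left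
multiplier. -/
theorem isLeftMultiplier_of_local (hρ : ρ.IsUniversal)
    (hS : IsLocalLeftMultiplier S) : IsLeftMultiplier S :=
  isLeftMultiplier_of_approxLocal hρ hS.approx

end ToeplitzRep

end Pool.Agent.helper27.TA
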