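import Mathlib

/-!
# Operators on `ℓ²(ℕ, K)`: amplification, shift, twisted shifts
-/

set_option autoImplicit false
set_option linter.unusedSimpArgs false
set_option linter.unusedSectionVars false

open scoped InnerProductSpace

namespace Pool.Agent.helper27.TA

universe u

variable {K : Type u} [NormedAddCommGroup K] [InnerProductSpace ℂ K]

/-- The Hilbert space `ℓ²(ℕ, K)`. -/
abbrev HS (K : Type u) [NormedAddCommGroup K] [InnerProductSpace ℂ K] : Type u :=
  lp (fun _ : ℕ => K) 2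

namespace HS

lemma hasSum_sq (f : HS K) : HasSum (fun j => ‖f j‖ ^ 2) (‖f‖ ^ 2) := by
  have h := lp.hasSum_norm (p := 2) (by norm_num) f
  simpa using h

lemma summable_sq (f : HS K) : Summable (fun j => ‖f j‖ ^ 2) := (hasSum_sq f).summable

lemma norm_sq_eq (f : HS K) : ‖f‖ ^ 2 = ∑' j, ‖f j‖ ^ 2 := (hasSum_sq f).tsum_eq.symm

lemma memlp {f : ℕ → K} (hf : Summable fun j => ‖f j‖ ^ 2) : Memℓp (E := fun _ : ℕ => K) f 2 := by
  apply memℓp_gen
  simpa using hf

/-- constructor -/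
def mk (f : ℕ → K) (hf : Summable fun j => ‖f j‖ ^ 2) : HS K := ⟨f, memlp hf⟩

@[simp] lemma mk_apply (f : ℕ → K) (hf : Summable fun j => ‖f j‖ ^ 2) (j : ℕ) : mk f hf j = f j := rfl

lemma ext' {f g : HS K} (h : ∀ j, f j = g j) : f = g := lp.ext (funext h)

lemma add_apply (f g : HS K) (j : ℕ) : (f + g) j = f j + g j := by
  rw [lp.coeFn_add]; rfl

lemma sub_apply (f g : HS K) (j : ℕ) : (f - g) j = f j - g j := by
  rw [lp.coeFn_sub]; rfl

lemma smul_apply (c : ℂ) (f : HS K) (j : ℕ) : (c • f) j = c • f j := by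
  rw [lp.coeFn_smul]; rfl

lemma zero_apply (j : ℕ) : (0 : HS K) j = 0 := by
  rw [lp.coeFn_zero]; rfl

/-! ### amplification -/

lemma summable_amp (T : K →L[ℂ] K) (f : HS K) : Summable fun j => ‖T (f j)‖ ^ 2 := by
  refine Summable.of_nonneg_of_le (fun _ => by positivity) (fun j => ?_)
    ((summable_sq f).mul_left (‖T‖ ^ 2))
  rw [← mul_pow]
  gcongr
  exact T.le_opNorm _

/-- the diagonal operator `T ⊗ 1` -/
noncomputable def amp (T : K →L[ℂ] K) : HS K →L[ℂ] HS K :=
  LinearMap.mkContinuous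
    { toFun := fun f => mk (fun j => T (f j)) (summable_amp T f)
      map_add' := fun f g => by
        apply ext'; intro j; simp [add_apply]
      map_smul' := fun c f => by
        apply ext'; intro j; simp [smul_apply] } ‖T‖ (by
      intro f
      simp only [LinearMap.coe_mk, AddHom.coe_mk]
      have h : ‖mk (fun j => T (f j)) (summable_amp T f)‖ ^ 2 ≤ (‖T‖ * ‖f‖) ^ 2 := by
        rw [norm_sq_eq, mul_pow, norm_sq_eq f, ← tsum_mul_left]
        refine Summable.tsum_le_tsum (fun j => ?_) ?_ ((summable_sq f).mul_left (‖T‖ ^ 2))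
        · rw [mk_apply, ← mul_pow]
          gcongr
          exact T.le_opNorm _
        · exact summable_amp T f
      exact (pow_le_pow_iff_left₀ (norm_nonneg _) (by positivity) two_ne_zero).mp h)

@[simp] lemma amp_apply (T : K →L[ℂ] K) (f : HS K) (j : ℕ) : amp T f j = T (f j) := rfl

lemma amp_mul (S T : K →L[ℂ] K) : amp (S * T) = amp S * amp T := by
  ext1 f; apply ext'; intro j; simp

lemma amp_add (S T : K →L[ℂ] K) : amp (S + T) = amp S + amp T := by
  ext1 f; apply ext'; intro j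
  rw [_root_.add_apply, add_apply]; simp

lemma amp_smul (c : ℂ) (T : K →L[ℂ] K) : amp (c • T) = c • amp T := by
  ext1 f; apply ext'; intro j
  rw [_root_.smul_apply, smul_apply]; simp

lemma amp_zero : amp (0 : K →L[ℂ] K) = 0 := by
  ext1 f; apply ext'; intro j; rw [_root_.zero_apply, zero_apply]; simp

section Complete

variable [CompleteSpace K]

lemma amp_star (T : K →L[ℂ] K) : amp (star T) = star (amp T) := by
  rw [ContinuousLinearMap.star_eq_adjoint (amp T), ContinuousLinearMap.eq_adjoint_iff]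
  intro f g
  have h1 := lp.hasSum_inner (𝕜 := ℂ) (amp (star T) f) g
  have h2 := lp.hasSum_inner (𝕜 := ℂ) f (amp T g)
  refine h1.unique ?_
  convert h2 using 2 with j
  simp only [amp_apply]
  rw [ContinuousLinearMap.star_eq_adjoint, ContinuousLinearMap.adjoint_inner_left]

/-- amplification as a *-homomorphism -/
noncomputable def ampHom : (K →L[ℂ] K) →⋆ₙₐ[ℂ] (HS K →L[ℂ] HS K) where
  toFun := amp
  map_smul' := amp_smul
  map_zero' := amp_zero
  map_add' := amp_add
  map_mul' := amp_mul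
  map_star' := amp_star

@[simp] lemma ampHom_apply (T : K →L[ℂ] K) : (ampHom (K := K)) T = amp T := rfl

end Complete

/-! ### twisted shifts -/

/-- the sequence `(A₀ f₀, G f₀, f₁, f₂, …)` -/
def twFun (A₀ G : K →L[ℂ] K) (f : ℕ → K) : ℕ → K
  | 0 => A₀ (f 0)
  | 1 => G (f 0)
  | (j + 2) => f (j + 1)

lemma summable_tw (A₀ G : K →L[ℂ] K) (f : HS K) : Summable fun j => ‖twFun A₀ G f j‖ ^ 2 := by
  rw [← summable_nat_add_iff 2]
  have := (summable_nat_add_iff 1).mpr (summable_sq f)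
  exact this

lemma tsum_tw (A₀ G : K →L[ℂ] K) (f : HS K) :
    ∑' j, ‖twFun A₀ G f j‖ ^ 2 + ‖f 0‖ ^ 2 = ‖A₀ (f 0)‖ ^ 2 + ‖G (f 0)‖ ^ 2 + ‖f‖ ^ 2 := by
  have h1 := (summable_tw A₀ G f).sum_add_tsum_nat_add 2
  have h2 := (summable_sq f).sum_add_tsum_nat_add 1
  rw [← h1, norm_sq_eq f, ← h2]
  simp only [Finset.sum_range_succ, Finset.sum_range_zero, zero_add, twFun]
  ring

/-- the twisted shift `f ↦ (A₀ f₀, G f₀, f₁, f₂, …)` on `ℓ²(ℕ, K)` -/
noncomputable def tw (A₀ G : K →L[ℂ] K) : HS K →L[ℂ] HS K :=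
  LinearMap.mkContinuous
    { toFun := fun f => mk (twFun A₀ G f) (summable_tw A₀ G f)
      map_add' := fun f g => by
        apply ext'; intro j
        rw [add_apply]
        match j with
        | 0 => simp [twFun, add_apply]
        | 1 => simp [twFun, add_apply]
        | (j + 2) => simp [twFun, add_apply]
      map_smul' := fun c f => by
        apply ext'; intro j
        rw [smul_apply]
        match j with
        | 0 => simp [twFun, smul_apply]
        | 1 => simp [twFun, smul_apply]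
        | (j + 2) => simp [twFun, smul_apply] } (‖A₀‖ + ‖G‖ + 1) (by
      intro f
      simp only [LinearMap.coe_mk, AddHom.coe_mk]
      have h : ‖mk (twFun A₀ G f) (summable_tw A₀ G f)‖ ^ 2 ≤ ((‖A₀‖ + ‖G‖ + 1) * ‖f‖) ^ 2 := by
        rw [norm_sq_eq]
        simp only [mk_apply]
        have h1 := tsum_tw A₀ G f
        have h2 : ‖A₀ (f 0)‖ ^ 2 ≤ ‖A₀‖ ^ 2 * ‖f‖ ^ 2 := by
          rw [← mul_pow]
          gcongr
          exact (A₀.le_opNorm _).trans (by gcongr; exact lp.norm_apply_le_norm (by norm_num) f 0)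
        have h3 : ‖G (f 0)‖ ^ 2 ≤ ‖G‖ ^ 2 * ‖f‖ ^ 2 := by
          rw [← mul_pow]
          gcongr
          exact (G.le_opNorm _).trans (by gcongr; exact lp.norm_apply_le_norm (by norm_num) f 0)
        have h4 : 0 ≤ ‖f 0‖ ^ 2 := by positivity
        have h5 : 0 ≤ ‖A₀‖ * ‖G‖ * ‖f‖ ^ 2 := by positivity
        have h6 : 0 ≤ ‖A₀‖ * ‖f‖ ^ 2 := by positivity
        have h7 : 0 ≤ ‖G‖ * ‖f‖ ^ 2 := by positivity
        nlinarith
      exact (pow_le_pow_iff_left₀ (norm_nonneg _) (by positivity) two_ne_zero).mp h)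

lemma tw_apply (A₀ G : K →L[ℂ] K) (f : HS K) (j : ℕ) : tw A₀ G f j = twFun A₀ G f j := rfl

@[simp] lemma tw_apply_zero (A₀ G : K →L[ℂ] K) (f : HS K) : tw A₀ G f 0 = A₀ (f 0) := rfl

@[simp] lemma tw_apply_one (A₀ G : K →L[ℂ] K) (f : HS K) : tw A₀ G f 1 = G (f 0) := rfl

@[simp] lemma tw_apply_add_two (A₀ G : K →L[ℂ] K) (f : HS K) (j : ℕ) :
    tw A₀ G f (j + 2) = f (j + 1) := rfl

lemma norm_tw_sq (A₀ G : K →L[ℂ] K) (f : HS K) :
    ‖tw A₀ G f‖ ^ 2 + ‖f 0‖ ^ 2 = ‖A₀ (f 0)‖ ^ 2 + ‖G (f 0)‖ ^ 2 + ‖f‖ ^ 2 := by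
  rw [← tsum_tw, norm_sq_eq]
  simp only [tw_apply]

lemma norm_tw_of {A₀ G : K →L[ℂ] K} (h : ∀ w, ‖A₀ w‖ ^ 2 + ‖G w‖ ^ 2 = ‖w‖ ^ 2) (f : HS K) :
    ‖tw A₀ G f‖ = ‖f‖ := by
  have h1 := norm_tw_sq A₀ G f
  rw [h, add_comm] at h1
  have h2 : ‖tw A₀ G f‖ ^ 2 = ‖f‖ ^ 2 := by linarith
  exact (pow_left_inj₀ (norm_nonneg _) (norm_nonneg _) two_ne_zero).mp h2

lemma star_tw_mul_tw [CompleteSpace K] {A₀ G : K →L[ℂ] K}
    (h : ∀ w, ‖A₀ w‖ ^ 2 + ‖G w‖ ^ 2 = ‖w‖ ^ 2) : star (tw A₀ G) * tw A₀ G = 1 := by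
  rw [ContinuousLinearMap.star_eq_adjoint]
  exact (ContinuousLinearMap.norm_map_iff_adjoint_comp_self _).mp (norm_tw_of h)

lemma amp_mul_tw {A₀ G T : K →L[ℂ] K} (h0 : T * A₀ = A₀ * T) (h1 : T * G = G * T) :
    amp T * tw A₀ G = tw A₀ G * amp T := by
  ext1 f; apply ext'; intro j
  match j with
  | 0 =>
    simp only [mul_apply_eq_comp, amp_apply, tw_apply_zero]
    exact congrArg (fun S : K →L[ℂ] K => S (f 0)) h0
  | 1 =>
    simp only [mul_apply_eq_comp, amp_apply, tw_apply_one]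
    exact congrArg (fun S : K →L[ℂ] K => S (f 0)) h1
  | (j + 2) => simp

/-- the unilateral shift -/
noncomputable def sh : HS K →L[ℂ] HS K := tw 0 1

@[simp] lemma sh_apply_zero (f : HS K) : (sh f : HS K) 0 = 0 := by simp [sh]

@[simp] lemma sh_apply_succ (f : HS K) (j : ℕ) : (sh f : HS K) (j + 1) = f j := by
  cases j with
  | zero => simp [sh]
  | succ j => simp [sh]

lemma tw_mul_sh (A₀ G : K →L[ℂ] K) : tw A₀ G * sh = sh * sh := by
  ext1 f; apply ext'; intro j
  match j with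
  | 0 => simp
  | 1 => simp
  | (j + 2) => simp

lemma amp_mul_sh (T : K →L[ℂ] K) : amp T * sh = sh * amp T :=
  amp_mul_tw (by simp) (by simp)

lemma sh_pow_apply_lt (n : ℕ) (f : HS K) (j : ℕ) (hj : j < n) : ((sh ^ n) f : HS K) j = 0 := by
  induction n generalizing j f with
  | zero => omega
  | succ n ih =>
    rw [pow_succ', mul_apply_eq_comp]
    cases j with
    | zero => simp
    | succ j => rw [sh_apply_succ]; exact ih f j (by omega)

lemma sh_pow_apply_add (n : ℕ) (f : HS K) (j : ℕ) : ((sh ^ n) f : HS K) (n + j) = f j := by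
  induction n generalizing j f with
  | zero => simp
  | succ n ih =>
    rw [pow_succ', mul_apply_eq_comp]
    have : n + 1 + j = (n + j) + 1 := by ring
    rw [this, sh_apply_succ]
    exact ih f j

/-! ### coordinate embeddings -/

/-- the embedding of `K` at level `j` -/
noncomputable def emb (j : ℕ) : K →L[ℂ] HS K :=
  lp.singleContinuousLinearMap ℂ (fun _ : ℕ => K) 2 j

lemma emb_apply (j : ℕ) (x : K) (i : ℕ) : emb j x i = if i = j then x else 0 := by
  have : emb j x = lp.single 2 j x := rfl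
  rw [this]
  by_cases h : i = j
  · subst h; simp
  · simp [h, lp.single_apply_ne]

@[simp] lemma emb_apply_self (j : ℕ) (x : K) : emb j x j = x := by simp [emb_apply]

lemma norm_emb (j : ℕ) (x : K) : ‖emb j x‖ = ‖x‖ := by
  have : emb j x = lp.single 2 j x := rfl
  rw [this, lp.norm_single (by norm_num)]

lemma sh_emb (j : ℕ) (x : K) : sh (emb j x) = emb (j + 1) x := by
  apply ext'; intro i
  cases i with
  | zero => simp [emb_apply]
  | succ i => simp [emb_apply]

lemma sh_pow_emb (j : ℕ) (x : K) : (sh ^ j) (emb 0 x) = emb j x := by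
  induction j with
  | zero => simp
  | succ j ih => rw [pow_succ', mul_apply_eq_comp, ih, sh_emb]

lemma amp_emb (T : K →L[ℂ] K) (j : ℕ) (x : K) : amp T (emb j x) = emb j (T x) := by
  apply ext'; intro i
  simp only [amp_apply, emb_apply]
  split_ifs <;> simp

lemma tw_emb_zero (A₀ G : K →L[ℂ] K) (x : K) : tw A₀ G (emb 0 x) = emb 0 (A₀ x) + emb 1 (G x) := by
  apply ext'; intro i
  rw [add_apply]
  match i with
  | 0 => simp [emb_apply]
  | 1 => simp [emb_apply]
  | (i + 2) => simp [emb_apply]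

/-- evaluation at level `j` -/
noncomputable def ev (j : ℕ) : HS K →L[ℂ] K := lp.evalCLM ℂ (fun _ : ℕ => K) 2 j

@[simp] lemma ev_apply (j : ℕ) (f : HS K) : ev j f = f j := rfl

lemma norm_apply_le (f : HS K) (j : ℕ) : ‖f j‖ ≤ ‖f‖ := lp.norm_apply_le_norm (by norm_num) f j

/-- Two twisted shifts are close when their parameters are. -/
lemma norm_tw_sub_tw_le (A₀ G A₁ G₁ : K →L[ℂ] K) :
    ‖tw A₀ G - tw A₁ G₁‖ ≤ ‖A₀ - A₁‖ + ‖G - G₁‖ := by
  refine ContinuousLinearMap.opNorm_le_bound _ (by positivity) fun f => ?_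
  have h : (tw A₀ G - tw A₁ G₁) f = emb 0 ((A₀ - A₁) (f 0)) + emb 1 ((G - G₁) (f 0)) := by
    apply ext'; intro i
    rw [_root_.sub_apply, sub_apply, add_apply]
    match i with
    | 0 => simp [emb_apply]
    | 1 => simp [emb_apply]
    | (i + 2) => simp [emb_apply]
  rw [h]
  refine (norm_add_le _ _).trans ?_
  rw [norm_emb, norm_emb, add_mul]
  refine add_le_add ?_ ?_
  · exact ((A₀ - A₁).le_opNorm _).trans (by gcongr; exact norm_apply_le f 0)
  · exact ((G - G₁).le_opNorm _).trans (by gcongr; exact norm_apply_le f 0)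

end HS

end Pool.Agent.helper27.TA
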