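import Pool.Agent.helper27.TA.Defs
import Pool.Agent.helper27.TA.Shift

/-!
# Words in the tensor algebra and the twisted representations
-/

set_option autoImplicit false
set_option linter.unusedSimpArgs false
set_option linter.unusedSectionVars false

open scoped InnerProductSpace Topology
open Filter

namespace Pool.Agent.helper27.TA

universe u

variable {A X : Type u} [NonUnitalCStarAlgebra A] [NormedAddCommGroup X] [NormedSpace ℂ X]
  [CompleteSpace X] {E : Correspondence A X} {B : Type u} [NonUnitalCStarAlgebra B]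

namespace ToeplitzRep

/-- words in the generators, with their degree -/
inductive IsWord (ρ : ToeplitzRep E B) : ℕ → B → Prop
  | pi (a : A) : IsWord ρ 0 (ρ.π a)
  | t (x : X) : IsWord ρ 1 (ρ.t x)
  | step (x : X) {n : ℕ} {w : B} (h : IsWord ρ n w) : IsWord ρ (n + 1) (ρ.t x * w)

variable {ρ : ToeplitzRep E B}

lemma IsWord.pi_mul {n : ℕ} {w : B} (a : A) (h : ρ.IsWord n w) : ρ.IsWord n (ρ.π a * w) := by
  cases h with
  | pi b => rw [← map_mul]; exact IsWord.pi _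
  | t x => rw [ρ.pi_mul_t]; exact IsWord.t _
  | step x h => rw [← mul_assoc, ρ.pi_mul_t]; exact IsWord.step _ h

lemma IsWord.mul {m n : ℕ} {v w : B} (hv : ρ.IsWord m v) (hw : ρ.IsWord n w) :
    ρ.IsWord (m + n) (v * w) := by
  induction hv with
  | pi a => rw [zero_add]; exact hw.pi_mul a
  | t x => rw [add_comm]; exact IsWord.step x hw
  | @step x m v h ih =>
    rw [mul_assoc]
    have : m + 1 + n = (m + n) + 1 := by ring
    rw [this]
    exact IsWord.step x ih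

lemma IsWord.star_mul_word {n : ℕ} {v w : B} (hv : ρ.IsWord n v) (hw : ρ.IsWord n w) :
    ∃ a, star v * w = ρ.π a := by
  induction hv generalizing w with
  | pi a =>
    cases hw with
    | pi b => exact ⟨star a * b, by rw [map_mul, map_star]⟩
  | t x =>
    cases hw with
    | t y => exact ⟨_, ρ.star_t_mul_t x y⟩
    | step y h =>
      cases h with
      | pi b => exact ⟨E.ip x y * b, by rw [← mul_assoc, ρ.star_t_mul_t, map_mul]⟩
  | @step x n v h ih =>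
    cases hw with
    | t y =>
      cases h with
      | pi b =>
        exact ⟨star b * E.ip x y, by
          rw [star_mul, mul_assoc, ρ.star_t_mul_t, map_mul, map_star]⟩
    | step y h' =>
      obtain ⟨a, ha⟩ := ih (h'.pi_mul (E.ip x y))
      refine ⟨a, ?_⟩
      rw [star_mul, mul_assoc, ← mul_assoc (star (ρ.t x)), ρ.star_t_mul_t, ha]

/-- the linear span of the words -/
def wordSpan (ρ : ToeplitzRep E B) : Submodule ℂ B :=
  Submodule.span ℂ {w | ∃ n, ρ.IsWord n w}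

lemma wordSpan_mul {x y : B} (hx : x ∈ ρ.wordSpan) (hy : y ∈ ρ.wordSpan) : x * y ∈ ρ.wordSpan := by
  unfold wordSpan at hx hy ⊢
  induction hx using Submodule.span_induction with
  | zero => rw [zero_mul]; exact Submodule.zero_mem _
  | add a b _ _ ha hb => rw [add_mul]; exact Submodule.add_mem _ ha hb
  | smul c a _ ha => rw [smul_mul_assoc]; exact Submodule.smul_mem _ _ ha
  | mem v hv =>
    obtain ⟨m, hv⟩ := hv
    induction hy using Submodule.span_induction with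
    | zero => rw [mul_zero]; exact Submodule.zero_mem _
    | add a b _ _ ha hb => rw [mul_add]; exact Submodule.add_mem _ ha hb
    | smul c a _ ha => rw [mul_smul_comm]; exact Submodule.smul_mem _ _ ha
    | mem w hw =>
      obtain ⟨n, hw⟩ := hw
      exact Submodule.subset_span ⟨_, hv.mul hw⟩

lemma adjoin_le_wordSpan :
    ∀ y ∈ NonUnitalAlgebra.adjoin ℂ (Set.range ρ.π ∪ Set.range ρ.t), y ∈ ρ.wordSpan := by
  intro y hy
  induction hy using NonUnitalAlgebra.adjoin_induction with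
  | mem x hx =>
    rcases hx with ⟨a, rfl⟩ | ⟨x, rfl⟩
    · exact Submodule.subset_span ⟨0, IsWord.pi a⟩
    · exact Submodule.subset_span ⟨1, IsWord.t x⟩
  | add x y _ _ hx hy => exact Submodule.add_mem _ hx hy
  | zero => exact Submodule.zero_mem _
  | mul x y _ _ hx hy => exact wordSpan_mul hx hy
  | smul c x _ hx => exact Submodule.smul_mem _ _ hx

/-- Induction principle for the tensor algebra. -/
lemma tensorAlgebra_induction {p : B → Prop} (hcl : IsClosed {y | p y}) (h0 : p 0)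
    (hadd : ∀ x y, p x → p y → p (x + y)) (hsmul : ∀ (c : ℂ) x, p x → p (c • x))
    (hword : ∀ n w, ρ.IsWord n w → p w) : ∀ y ∈ ρ.tensorAlgebra, p y := by
  intro y hy
  have h1 : (NonUnitalAlgebra.adjoin ℂ (Set.range ρ.π ∪ Set.range ρ.t) : Set B) ⊆ {y | p y} := by
    intro z hz
    have hz' := adjoin_le_wordSpan (ρ := ρ) z hz
    unfold wordSpan at hz'
    refine Submodule.span_induction (p := fun x _ => p x) ?_ h0 (fun _ _ _ _ => hadd _ _)
      (fun c _ _ => hsmul c _) hz'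
    rintro w ⟨n, hw⟩
    exact hword n w hw
  have h2 : closure (NonUnitalAlgebra.adjoin ℂ (Set.range ρ.π ∪ Set.range ρ.t) : Set B)
      ⊆ {y | p y} := closure_minimal h1 hcl
  exact h2 hy

lemma IsWord.mem {n : ℕ} {w : B} (h : ρ.IsWord n w) : w ∈ ρ.tensorAlgebra := by
  apply NonUnitalSubalgebra.le_topologicalClosure
  induction h with
  | pi a => exact NonUnitalAlgebra.subset_adjoin ℂ (Or.inl ⟨a, rfl⟩)
  | t x => exact NonUnitalAlgebra.subset_adjoin ℂ (Or.inr ⟨x, rfl⟩)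
  | step x h ih => exact mul_mem (NonUnitalAlgebra.subset_adjoin ℂ (Or.inr ⟨x, rfl⟩)) ih

lemma pi_mem (a : A) : ρ.π a ∈ ρ.tensorAlgebra := (IsWord.pi a).mem
lemma t_mem (x : X) : ρ.t x ∈ ρ.tensorAlgebra := (IsWord.t x).mem

/-! ### Twisted representations on `ℓ²(ℕ, K)` -/

section Tw

variable {K : Type u} [NormedAddCommGroup K] [InnerProductSpace ℂ K] [CompleteSpace K]

/-- the twisted Toeplitz representation -/
noncomputable def twRep (ρ : ToeplitzRep E B) (Ψ : B →⋆ₙₐ[ℂ] (K →L[ℂ] K)) (A₀ G : K →L[ℂ] K)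
    (hiso : ∀ w, ‖A₀ w‖ ^ 2 + ‖G w‖ ^ 2 = ‖w‖ ^ 2)
    (hA : ∀ a, Ψ (ρ.π a) * A₀ = A₀ * Ψ (ρ.π a)) (hG : ∀ a, Ψ (ρ.π a) * G = G * Ψ (ρ.π a)) :
    ToeplitzRep E (HS K →L[ℂ] HS K) where
  π := HS.ampHom.comp (Ψ.comp ρ.π)
  t :=
    { toFun := fun x => HS.tw A₀ G * HS.amp (Ψ (ρ.t x))
      map_add' := fun x y => by rw [map_add, map_add, HS.amp_add, mul_add]
      map_smul' := fun c x => by
        rw [map_smul, map_smul, HS.amp_smul, mul_smul_comm]; rfl }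
  pi_mul_t := fun a x => by
    simp only [LinearMap.coe_mk, AddHom.coe_mk, NonUnitalStarAlgHom.comp_apply, HS.ampHom_apply]
    rw [← mul_assoc, HS.amp_mul_tw (hA a) (hG a), mul_assoc, ← HS.amp_mul, ← map_mul, ρ.pi_mul_t]
  star_t_mul_t := fun x y => by
    simp only [LinearMap.coe_mk, AddHom.coe_mk, NonUnitalStarAlgHom.comp_apply, HS.ampHom_apply]
    rw [star_mul, mul_assoc, ← mul_assoc (star (HS.tw A₀ G)), HS.star_tw_mul_tw hiso, one_mul,
      ← HS.amp_star, ← HS.amp_mul, ← map_star, ← map_mul, ρ.star_t_mul_t]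

/-- `Φ` is the integrated form of the twisted representation -/
structure IsTwLift (ρ : ToeplitzRep E B) (Ψ : B →⋆ₙₐ[ℂ] (K →L[ℂ] K)) (A₀ G : K →L[ℂ] K)
    (Φ : B →⋆ₙₐ[ℂ] (HS K →L[ℂ] HS K)) : Prop where
  pi : ∀ a, Φ (ρ.π a) = HS.amp (Ψ (ρ.π a))
  t : ∀ x, Φ (ρ.t x) = HS.tw A₀ G * HS.amp (Ψ (ρ.t x))

lemma IsUniversal.exists_twLift (hρ : ρ.IsUniversal) (Ψ : B →⋆ₙₐ[ℂ] (K →L[ℂ] K))
    (A₀ G : K →L[ℂ] K) (hiso : ∀ w, ‖A₀ w‖ ^ 2 + ‖G w‖ ^ 2 = ‖w‖ ^ 2)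
    (hA : ∀ a, Ψ (ρ.π a) * A₀ = A₀ * Ψ (ρ.π a)) (hG : ∀ a, Ψ (ρ.π a) * G = G * Ψ (ρ.π a)) :
    ∃ Φ : B →⋆ₙₐ[ℂ] (HS K →L[ℂ] HS K), IsTwLift ρ Ψ A₀ G Φ := by
  obtain ⟨Φ, h1, h2⟩ := hρ.lift (HS K →L[ℂ] HS K) (twRep ρ Ψ A₀ G hiso hA hG)
  exact ⟨Φ, ⟨h1, h2⟩⟩

lemma IsUniversal.exists_shLift (hρ : ρ.IsUniversal) (Ψ : B →⋆ₙₐ[ℂ] (K →L[ℂ] K)) :
    ∃ Φ : B →⋆ₙₐ[ℂ] (HS K →L[ℂ] HS K), IsTwLift ρ Ψ 0 1 Φ :=
  hρ.exists_twLift Ψ 0 1 (by simp) (by simp) (by simp)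

variable {Ψ : B →⋆ₙₐ[ℂ] (K →L[ℂ] K)} {A₀ G : K →L[ℂ] K} {Φ Φ₀ : B →⋆ₙₐ[ℂ] (HS K →L[ℂ] HS K)}

lemma continuous_hom {C D : Type u} [NonUnitalCStarAlgebra C] [NonUnitalCStarAlgebra D]
    (f : C →⋆ₙₐ[ℂ] D) : Continuous f := by
  have : ∀ x, ‖f x‖ ≤ 1 * ‖x‖ := fun x => by
    rw [one_mul]; exact NonUnitalStarAlgHom.norm_apply_le f x
  exact AddMonoidHomClass.continuous_of_bound f 1 this

/-- the twisted representation agrees with the untwisted one above level `0` -/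
lemma IsTwLift.mul_sh (hΦ : IsTwLift ρ Ψ A₀ G Φ) (hΦ₀ : IsTwLift ρ Ψ 0 1 Φ₀) :
    ∀ y ∈ ρ.tensorAlgebra, Φ y * HS.sh = HS.sh * Φ₀ y := by
  apply tensorAlgebra_induction
  · exact isClosed_eq ((continuous_hom Φ).mul continuous_const)
      (continuous_const.mul (continuous_hom Φ₀))
  · simp
  · intro x y hx hy
    rw [map_add, map_add, add_mul, mul_add, hx, hy]
  · intro c x hx
    rw [map_smul, map_smul, smul_mul_assoc, mul_smul_comm, hx]
  · intro n w hw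
    induction hw with
    | pi a => rw [hΦ.pi, hΦ₀.pi, HS.amp_mul_sh]
    | t x =>
      rw [hΦ.t, hΦ₀.t, mul_assoc, HS.amp_mul_sh, ← mul_assoc, HS.tw_mul_sh, mul_assoc]; rfl
    | step x h ih =>
      rw [map_mul, map_mul, mul_assoc, ih, ← mul_assoc, hΦ.t, mul_assoc (HS.tw A₀ G), HS.amp_mul_sh,
        ← mul_assoc, HS.tw_mul_sh, hΦ₀.t]
      change HS.sh * HS.sh * _ * _ = HS.sh * (HS.sh * _ * _)
      simp only [mul_assoc]

lemma IsTwLift.mul_sh_pow (hΦ₀ : IsTwLift ρ Ψ 0 1 Φ₀) (n : ℕ) :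
    ∀ y ∈ ρ.tensorAlgebra, Φ₀ y * HS.sh ^ n = HS.sh ^ n * Φ₀ y := by
  intro y hy
  induction n with
  | zero => simp
  | succ n ih => rw [pow_succ, ← mul_assoc, ih, mul_assoc, hΦ₀.mul_sh hΦ₀ y hy, mul_assoc]

lemma IsTwLift.mul_sh_pow_succ (hΦ : IsTwLift ρ Ψ A₀ G Φ) (hΦ₀ : IsTwLift ρ Ψ 0 1 Φ₀) (n : ℕ) :
    ∀ y ∈ ρ.tensorAlgebra, Φ y * HS.sh ^ (n + 1) = HS.sh ^ (n + 1) * Φ₀ y := by
  intro y hy
  rw [pow_succ', ← mul_assoc, hΦ.mul_sh hΦ₀ y hy, mul_assoc, hΦ₀.mul_sh_pow n y hy, mul_assoc]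

lemma IsTwLift.word_emb (hΦ₀ : IsTwLift ρ Ψ 0 1 Φ₀) {n : ℕ} {w : B} (hw : ρ.IsWord n w) (j : ℕ)
    (x : K) : Φ₀ w (HS.emb j x) = HS.emb (n + j) (Ψ w x) := by
  induction hw with
  | pi a => rw [hΦ₀.pi, HS.amp_emb, zero_add]
  | t y =>
    rw [hΦ₀.t, mul_apply_eq_comp, HS.amp_emb]
    change HS.sh _ = _
    rw [HS.sh_emb, add_comm]
  | @step y n w h ih =>
    rw [map_mul, mul_apply_eq_comp, ih, hΦ₀.t, mul_apply_eq_comp, HS.amp_emb]
    change HS.sh _ = _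
    rw [HS.sh_emb, map_mul, mul_apply_eq_comp]
    congr 2
    ring

/-- the homogeneous components -/
noncomputable def comp (Φ₀ : B →⋆ₙₐ[ℂ] (HS K →L[ℂ] HS K)) (n : ℕ) (y : B) : K →L[ℂ] K :=
  (HS.ev n) ∘L (Φ₀ y) ∘L (HS.emb 0)

lemma comp_apply (Φ₀ : B →⋆ₙₐ[ℂ] (HS K →L[ℂ] HS K)) (n : ℕ) (y : B) (x : K) :
    comp Φ₀ n y x = (Φ₀ y (HS.emb 0 x) : HS K) n := rfl

lemma comp_add (Φ₀ : B →⋆ₙₐ[ℂ] (HS K →L[ℂ] HS K)) (n : ℕ) (y z : B) :
    comp Φ₀ n (y + z) = comp Φ₀ n y + comp Φ₀ n z := by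
  ext1 x
  rw [_root_.add_apply]
  simp only [comp_apply, map_add, _root_.add_apply, HS.add_apply]

lemma comp_smul (Φ₀ : B →⋆ₙₐ[ℂ] (HS K →L[ℂ] HS K)) (n : ℕ) (c : ℂ) (y : B) :
    comp Φ₀ n (c • y) = c • comp Φ₀ n y := by
  ext1 x
  rw [_root_.smul_apply]
  simp only [comp_apply, map_smul, _root_.smul_apply, HS.smul_apply]

lemma comp_zero (Φ₀ : B →⋆ₙₐ[ℂ] (HS K →L[ℂ] HS K)) (n : ℕ) : comp Φ₀ n (0 : B) = 0 := by
  have := comp_smul Φ₀ n 0 (0 : B)
  simpa using this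

lemma comp_sub (Φ₀ : B →⋆ₙₐ[ℂ] (HS K →L[ℂ] HS K)) (n : ℕ) (y z : B) :
    comp Φ₀ n (y - z) = comp Φ₀ n y - comp Φ₀ n z := by
  have h := comp_add Φ₀ n (y - z) z
  rw [sub_add_cancel] at h
  rw [h, add_sub_cancel_right]

lemma norm_comp_le (Φ₀ : B →⋆ₙₐ[ℂ] (HS K →L[ℂ] HS K)) (n : ℕ) (y : B) :
    ‖comp Φ₀ n y‖ ≤ ‖y‖ := by
  refine ContinuousLinearMap.opNorm_le_bound _ (norm_nonneg _) fun x => ?_
  rw [comp_apply]
  refine (HS.norm_apply_le _ _).trans ?_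
  refine ((Φ₀ y).le_opNorm _).trans ?_
  rw [HS.norm_emb]
  gcongr
  exact NonUnitalStarAlgHom.norm_apply_le Φ₀ y

lemma continuous_comp (Φ₀ : B →⋆ₙₐ[ℂ] (HS K →L[ℂ] HS K)) (n : ℕ) :
    Continuous (comp Φ₀ n) := by
  have h : LipschitzWith 1 (comp Φ₀ n) := by
    apply LipschitzWith.of_dist_le_mul
    intro y z
    rw [dist_eq_norm, dist_eq_norm, ← comp_sub, NNReal.coe_one, one_mul]
    exact norm_comp_le Φ₀ n _
  exact h.continuous

lemma IsTwLift.comp_word (hΦ₀ : IsTwLift ρ Ψ 0 1 Φ₀) {m : ℕ} {w : B} (hw : ρ.IsWord m w) (n : ℕ) :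
    comp Φ₀ n w = if n = m then Ψ w else 0 := by
  ext1 x
  rw [comp_apply, hΦ₀.word_emb hw, HS.emb_apply, add_zero]
  split_ifs <;> simp

lemma IsTwLift.comp_mul_pi (hΦ₀ : IsTwLift ρ Ψ 0 1 Φ₀) (n : ℕ) (y : B) (a : A) :
    comp Φ₀ n (y * ρ.π a) = comp Φ₀ n y * Ψ (ρ.π a) := by
  ext1 x
  rw [comp_apply, map_mul, mul_apply_eq_comp, hΦ₀.pi, HS.amp_emb]
  rfl

/-- a general closedness lemma -/
lemma isClosed_tendsto {V W : Type*} [SeminormedAddCommGroup V] [SeminormedAddCommGroup W]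
    (F : ℕ → V → W) (F₀ : V → W) (C : ℝ) (h : ∀ n x y, ‖F n x - F n y‖ ≤ C * ‖x - y‖)
    (h₀ : ∀ x y, ‖F₀ x - F₀ y‖ ≤ C * ‖x - y‖) :
    IsClosed {y | Tendsto (fun n => F n y) atTop (𝓝 (F₀ y))} := by
  rw [← closure_subset_iff_isClosed]
  intro y hy
  rw [Set.mem_ofPred_eq, Metric.tendsto_atTop]
  intro ε hε
  have hC : 0 ≤ |C| := abs_nonneg C
  obtain ⟨z, hz, hyz⟩ := Metric.mem_closure_iff.mp hy (ε / (3 * (|C| + 1))) (by positivity)
  rw [Set.mem_ofPred_eq, Metric.tendsto_atTop] at hz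
  obtain ⟨N, hN⟩ := hz (ε / 3) (by positivity)
  refine ⟨N, fun n hn => ?_⟩
  have hb : C * ‖y - z‖ ≤ ε / 3 := by
    rw [dist_eq_norm] at hyz
    calc C * ‖y - z‖ ≤ (|C| + 1) * ‖y - z‖ := by
          gcongr
          have := le_abs_self C
          linarith
      _ ≤ (|C| + 1) * (ε / (3 * (|C| + 1))) := by gcongr
      _ = ε / 3 := by field_simp
  have h1 := h n y z
  have h2 := h₀ z y
  rw [norm_sub_rev z y] at h2
  have h3 := hN n hn
  rw [dist_eq_norm] at h3 ⊢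
  calc ‖F n y - F₀ y‖ = ‖(F n y - F n z) + (F n z - F₀ z) + (F₀ z - F₀ y)‖ := by
        congr 1; abel
    _ ≤ ‖F n y - F n z‖ + ‖F n z - F₀ z‖ + ‖F₀ z - F₀ y‖ := norm_add₃_le
    _ < ε := by linarith

/-- continuity of the twisted representations in the parameters -/
lemma IsTwLift.tendsto {A₁ G₁ : ℕ → K →L[ℂ] K} {Φ₁ : ℕ → B →⋆ₙₐ[ℂ] (HS K →L[ℂ] HS K)}
    (hΦ₁ : ∀ n, IsTwLift ρ Ψ (A₁ n) (G₁ n) (Φ₁ n)) (hΦ₀ : IsTwLift ρ Ψ 0 1 Φ₀)
    (hA₁ : Tendsto A₁ atTop (𝓝 0)) (hG₁ : Tendsto G₁ atTop (𝓝 1)) :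
    ∀ y ∈ ρ.tensorAlgebra, Tendsto (fun n => Φ₁ n y) atTop (𝓝 (Φ₀ y)) := by
  have htw : Tendsto (fun n => HS.tw (A₁ n) (G₁ n)) atTop (𝓝 (HS.tw 0 1)) := by
    rw [tendsto_iff_norm_sub_tendsto_zero]
    refine squeeze_zero (fun _ => norm_nonneg _) (fun n => HS.norm_tw_sub_tw_le _ _ _ _) ?_
    have h1 := tendsto_iff_norm_sub_tendsto_zero.mp hA₁
    have h2 := tendsto_iff_norm_sub_tendsto_zero.mp hG₁
    simpa using h1.add h2
  apply tensorAlgebra_induction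
  · refine isClosed_tendsto (fun n y => Φ₁ n y) (fun y => Φ₀ y) 1 (fun n x y => ?_) (fun x y => ?_)
    · rw [← map_sub, one_mul]; exact NonUnitalStarAlgHom.norm_apply_le _ _
    · rw [← map_sub, one_mul]; exact NonUnitalStarAlgHom.norm_apply_le _ _
  · simp
  · intro x y hx hy
    simp only [map_add]
    exact hx.add hy
  · intro c x hx
    simp only [map_smul]
    exact hx.const_smul c
  · intro n w hw
    induction hw with
    | pi a =>
      simp only [hΦ₀.pi, (hΦ₁ _).pi]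
      exact tendsto_const_nhds
    | t x =>
      simp only [hΦ₀.t, (hΦ₁ _).t]
      exact htw.mul tendsto_const_nhds
    | step x h ih =>
      simp only [map_mul, hΦ₀.t, (hΦ₁ _).t]
      exact (htw.mul tendsto_const_nhds).mul ih

/-- the vector `∑_{i < N} e_i ⊗ k` -/
noncomputable def flat (N : ℕ) (k : K) : HS K := ∑ i ∈ Finset.range N, HS.emb i k

lemma norm_flat_sq (N : ℕ) (k : K) : ‖flat N k‖ ^ 2 = N * ‖k‖ ^ 2 := by
  have h := lp.norm_sum_single (p := 2) (E := fun _ : ℕ => K) (by norm_num) (fun _ => k)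
    (Finset.range N)
  have h2 : flat N k = ∑ i ∈ Finset.range N, lp.single 2 i k := rfl
  rw [h2]
  simpa using h

lemma inner_flat_emb (N : ℕ) (k k' : K) (m : ℕ) :
    ⟪flat N k', HS.emb m k⟫_ℂ = if m < N then ⟪k', k⟫_ℂ else 0 := by
  unfold flat
  rw [sum_inner]
  have h : ∀ i, ⟪HS.emb i k', HS.emb m k⟫_ℂ = if i = m then ⟪k', k⟫_ℂ else 0 := by
    intro i
    have h1 : (HS.emb i k' : HS K) = lp.single 2 i k' := rfl
    rw [h1, lp.inner_single_left, HS.emb_apply]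
    split_ifs <;> simp
  simp only [h]
  rw [Finset.sum_ite_eq']
  simp

lemma IsTwLift.tendsto_flat (hΦ₀ : IsTwLift ρ Ψ 0 1 Φ₀) (k k' : K) :
    ∀ y ∈ ρ.tensorAlgebra,
      Tendsto (fun N : ℕ => ((N : ℂ) + 1)⁻¹ * ⟪flat (N + 1) k', Φ₀ y (flat (N + 1) k)⟫_ℂ) atTop
        (𝓝 ⟪k', Ψ y k⟫_ℂ) := by
  have hb : ∀ (N : ℕ) (y : B),
      ‖((N : ℂ) + 1)⁻¹ * ⟪flat (N + 1) k', Φ₀ y (flat (N + 1) k)⟫_ℂ‖ ≤ (‖k'‖ * ‖k‖) * ‖y‖ := by
    intro N y
    have hN : ‖((N : ℂ) + 1)⁻¹‖ = ((N : ℝ) + 1)⁻¹ := by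
      rw [norm_inv]
      congr 1
      have : ((N : ℂ) + 1) = (((N : ℝ) + 1 : ℝ) : ℂ) := by push_cast; rfl
      rw [this, Complex.norm_real, Real.norm_of_nonneg (by positivity)]
    have hf : ∀ k : K, ‖flat (N + 1) k‖ = Real.sqrt (N + 1) * ‖k‖ := by
      intro k
      have h := norm_flat_sq (N + 1) k
      push_cast at h
      rw [← Real.sqrt_sq (norm_nonneg (flat (N + 1) k)), h, Real.sqrt_mul (by positivity),
        Real.sqrt_sq (norm_nonneg k)]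
    rw [norm_mul, hN]
    have h1 : ‖⟪flat (N + 1) k', Φ₀ y (flat (N + 1) k)⟫_ℂ‖ ≤
        (Real.sqrt (N + 1) * ‖k'‖) * (‖y‖ * (Real.sqrt (N + 1) * ‖k‖)) := by
      refine (norm_inner_le_norm _ _).trans ?_
      rw [← hf k', ← hf k]
      gcongr
      refine ((Φ₀ y).le_opNorm _).trans ?_
      gcongr
      exact NonUnitalStarAlgHom.norm_apply_le Φ₀ y
    have h2 : Real.sqrt ((N : ℝ) + 1) * Real.sqrt (N + 1) = N + 1 :=
      Real.mul_self_sqrt (by positivity)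
    calc ((N : ℝ) + 1)⁻¹ * ‖⟪flat (N + 1) k', Φ₀ y (flat (N + 1) k)⟫_ℂ‖
        ≤ ((N : ℝ) + 1)⁻¹ * ((Real.sqrt (N + 1) * ‖k'‖) * (‖y‖ * (Real.sqrt (N + 1) * ‖k‖))) := by
          gcongr
      _ = ((N : ℝ) + 1)⁻¹ * (Real.sqrt (N + 1) * Real.sqrt (N + 1)) * (‖k'‖ * ‖k‖ * ‖y‖) := by ring
      _ = (‖k'‖ * ‖k‖) * ‖y‖ := by
          rw [h2, inv_mul_cancel₀ (by positivity), one_mul]
  apply tensorAlgebra_induction
  · refine isClosed_tendsto (fun (N : ℕ) (y : B) => ((N : ℂ) + 1)⁻¹ *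
      ⟪flat (N + 1) k', Φ₀ y (flat (N + 1) k)⟫_ℂ) (fun y => ⟪k', Ψ y k⟫_ℂ) (‖k'‖ * ‖k‖)
      (fun n x y => ?_) (fun x y => ?_)
    · rw [← mul_sub, ← inner_sub_right, ← _root_.sub_apply, ← map_sub]
      exact hb n _
    · rw [← inner_sub_right, ← _root_.sub_apply, ← map_sub]
      refine (norm_inner_le_norm _ _).trans ?_
      rw [mul_assoc]
      gcongr
      refine ((Ψ _).le_opNorm _).trans ?_
      rw [mul_comm]
      gcongr
      exact NonUnitalStarAlgHom.norm_apply_le Ψ _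
  · simp
  · intro x y hx hy
    simp only [map_add, _root_.add_apply, inner_add_right, mul_add]
    exact hx.add hy
  · intro c x hx
    simp only [map_smul, _root_.smul_apply, inner_smul_right]
    have := hx.const_mul c
    refine this.congr fun N => ?_
    ring
  · intro n w hw
    have h1 : ∀ N : ℕ, n ≤ N → ((N : ℂ) + 1)⁻¹ * ⟪flat (N + 1) k', Φ₀ w (flat (N + 1) k)⟫_ℂ
        = (1 - (n : ℂ) * ((N : ℂ) + 1)⁻¹) * ⟪k', Ψ w k⟫_ℂ := by
      intro N hN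
      have h2 : Φ₀ w (flat (N + 1) k) = ∑ i ∈ Finset.range (N + 1), HS.emb (n + i) (Ψ w k) := by
        unfold flat
        rw [map_sum]
        exact Finset.sum_congr rfl fun i _ => hΦ₀.word_emb hw i k
      rw [h2, inner_sum]
      simp only [inner_flat_emb]
      rw [← Finset.sum_filter, Finset.sum_const]
      have h3 : (Finset.filter (fun i => n + i < N + 1) (Finset.range (N + 1))).card = N + 1 - n := by
        have : Finset.filter (fun i => n + i < N + 1) (Finset.range (N + 1)) =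
            Finset.range (N + 1 - n) := by
          ext i
          simp only [Finset.mem_filter, Finset.mem_range]
          omega
        rw [this, Finset.card_range]
      rw [h3, nsmul_eq_mul, Nat.cast_sub (by omega)]
      push_cast
      have h4 : ((N : ℂ) + 1) ≠ 0 := by exact_mod_cast Nat.succ_ne_zero N
      field_simp
    have h5 : Tendsto (fun N : ℕ => (1 - (n : ℂ) * ((N : ℂ) + 1)⁻¹) * ⟪k', Ψ w k⟫_ℂ) atTop
        (𝓝 ⟪k', Ψ w k⟫_ℂ) := by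
      have h6 : Tendsto (fun N : ℕ => ((N : ℂ) + 1)⁻¹) atTop (𝓝 0) := by
        have := tendsto_one_div_add_atTop_nhds_zero_nat (𝕜 := ℂ)
        simpa using this
      have h7 := ((h6.const_mul (n : ℂ)).const_sub 1).mul_const ⟪k', Ψ w k⟫_ℂ
      simpa using h7
    refine h5.congr' ?_
    filter_upwards [eventually_ge_atTop n] with N hN
    exact (h1 N hN).symm

/-- if all homogeneous components of `y` kill `k` then so does `y` -/
lemma IsTwLift.eq_zero_of_comp (hΦ₀ : IsTwLift ρ Ψ 0 1 Φ₀) {y : B} (hy : y ∈ ρ.tensorAlgebra)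
    {k : K} (h : ∀ n, comp Φ₀ n y k = 0) : Ψ y k = 0 := by
  have h0 : Φ₀ y (HS.emb 0 k) = 0 := by
    apply HS.ext'
    intro j
    rw [HS.zero_apply]
    exact h j
  have h1 : ∀ i, Φ₀ y (HS.emb i k) = 0 := by
    intro i
    rw [← HS.sh_pow_emb]
    have := congrArg (fun T : HS K →L[ℂ] HS K => T (HS.emb 0 k)) (hΦ₀.mul_sh_pow i y hy)
    simp only [mul_apply_eq_comp] at this
    rw [this, h0, map_zero]
  have h2 := hΦ₀.tendsto_flat k (Ψ y k) y hy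
  have h3 : ∀ N : ℕ, Φ₀ y (flat (N + 1) k) = 0 := by
    intro N
    unfold flat
    rw [map_sum]
    exact Finset.sum_eq_zero fun i _ => h1 i
  simp only [h3, inner_zero_right, mul_zero] at h2
  have h4 := tendsto_nhds_unique h2 tendsto_const_nhds
  exact inner_self_eq_zero.mp h4

/-! ### the coefficient algebra in the representation -/

/-- the closure of the image of the coefficient algebra -/
noncomputable def coeff (ρ : ToeplitzRep E B) (Ψ : B →⋆ₙₐ[ℂ] (K →L[ℂ] K)) :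
    NonUnitalStarSubalgebra ℂ (K →L[ℂ] K) :=
  (NonUnitalStarAlgHom.range (Ψ.comp ρ.π)).topologicalClosure

lemma coeff_mem (a : A) : Ψ (ρ.π a) ∈ coeff ρ Ψ :=
  NonUnitalStarSubalgebra.le_topologicalClosure _ ⟨a, rfl⟩

lemma isClosed_coeff : IsClosed (coeff ρ Ψ : Set (K →L[ℂ] K)) :=
  NonUnitalStarSubalgebra.isClosed_topologicalClosure _

/-- an induction principle for `coeff` -/
lemma coeff_induction {p : (K →L[ℂ] K) → Prop} (hcl : IsClosed {y | p y})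
    (h : ∀ a, p (Ψ (ρ.π a))) : ∀ T ∈ coeff ρ Ψ, p T := by
  intro T hT
  have h1 : ((NonUnitalStarAlgHom.range (Ψ.comp ρ.π) : NonUnitalStarSubalgebra ℂ (K →L[ℂ] K)) :
      Set (K →L[ℂ] K)) ⊆ {y | p y} := by
    rintro _ ⟨a, rfl⟩
    exact h a
  exact closure_minimal h1 hcl hT

lemma IsTwLift.star_comp_mul_word (hΦ₀ : IsTwLift ρ Ψ 0 1 Φ₀) {n : ℕ} {v : B} (hv : ρ.IsWord n v) :
    ∀ y ∈ ρ.tensorAlgebra, star (Ψ v) * comp Φ₀ n y ∈ coeff ρ Ψ := by
  apply tensorAlgebra_induction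
  · exact isClosed_coeff.preimage (continuous_const.mul (continuous_comp Φ₀ n))
  · rw [comp_zero, mul_zero]; exact zero_mem _
  · intro x y hx hy
    rw [comp_add, mul_add]; exact add_mem hx hy
  · intro c x hx
    rw [comp_smul, mul_smul_comm]; exact SMulMemClass.smul_mem c hx
  · intro m w hw
    rw [hΦ₀.comp_word hw]
    split_ifs with h
    · subst h
      obtain ⟨a, ha⟩ := hv.star_mul_word hw
      rw [← map_star, ← map_mul, ha]
      exact coeff_mem a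
    · rw [mul_zero]; exact zero_mem _

lemma IsTwLift.star_comp_mul_comp (hΦ₀ : IsTwLift ρ Ψ 0 1 Φ₀) (n : ℕ) {x : B}
    (hx : x ∈ ρ.tensorAlgebra) :
    ∀ y ∈ ρ.tensorAlgebra, star (comp Φ₀ n y) * comp Φ₀ n x ∈ coeff ρ Ψ := by
  apply tensorAlgebra_induction
  · exact isClosed_coeff.preimage ((continuous_comp Φ₀ n).star.mul continuous_const)
  · rw [comp_zero, star_zero, zero_mul]; exact zero_mem _
  · intro x y hx hy
    rw [comp_add, star_add, add_mul]; exact add_mem hx hy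
  · intro c x hx
    rw [comp_smul, star_smul, smul_mul_assoc]; exact SMulMemClass.smul_mem _ hx
  · intro m w hw
    rw [hΦ₀.comp_word hw]
    split_ifs with h
    · subst h
      exact hΦ₀.star_comp_mul_word hw x hx
    · rw [star_zero, zero_mul]; exact zero_mem _

end Tw

section Change

variable {K K' : Type u} [NormedAddCommGroup K] [InnerProductSpace ℂ K] [CompleteSpace K]
  [NormedAddCommGroup K'] [InnerProductSpace ℂ K'] [CompleteSpace K']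

lemma comp_change {Ψ : B →⋆ₙₐ[ℂ] (K →L[ℂ] K)} {Φ₀ : B →⋆ₙₐ[ℂ] (HS K →L[ℂ] HS K)}
    (hΦ₀ : IsTwLift ρ Ψ 0 1 Φ₀) (τ : (K →L[ℂ] K) →⋆ₙₐ[ℂ] (K' →L[ℂ] K'))
    {Φ' : B →⋆ₙₐ[ℂ] (HS K' →L[ℂ] HS K')} (hΦ' : IsTwLift ρ (τ.comp Ψ) 0 1 Φ') (n : ℕ) :
    ∀ y ∈ ρ.tensorAlgebra, comp Φ' n y = τ (comp Φ₀ n y) := by
  apply tensorAlgebra_induction
  · exact isClosed_eq (continuous_comp Φ' n) ((continuous_hom τ).comp (continuous_comp Φ₀ n))
  · rw [comp_zero, comp_zero, map_zero]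
  · intro x y hx hy
    rw [comp_add, comp_add, map_add, hx, hy]
  · intro c x hx
    rw [comp_smul, comp_smul, map_smul, hx]
  · intro m w hw
    rw [hΦ₀.comp_word hw, hΦ'.comp_word hw]
    split_ifs
    · rfl
    · rw [map_zero]

end Change

end ToeplitzRep

end Pool.Agent.helper27.TA
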